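import Pool.Agent.Lib.MP_02fec8_nt.Defs

/-!
# CRT, BOUND, SMALLC (Paper 9)
-/

set_option autoImplicit false

namespace Pool.Agent.Lib.MP_02fec8_nt

open Finset

/-- **CRT** -/
theorem crt : CrtStmt := by
  classical
  intro c p hcp S hS
  let e := ZMod.chineseRemainder hcp
  refine ⟨S.map e.toEquiv.toEmbedding, ?_, Finset.card_map _⟩
  intro T hT hne hsum
  obtain ⟨T', hT', rfl⟩ := Finset.subset_map_iff.mp hT
  refine hS T' hT' (Finset.map_nonempty.mp hne) ?_
  rw [Finset.sum_map] at hsum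
  have h1 : e (∑ x ∈ T', x) = 0 := by
    rw [map_sum]
    exact hsum
  exact (map_eq_zero_iff e e.injective).mp h1

/-- **BOUND** -/
theorem bound (hTwo : TwoStmt) (hA : CaseAStmt) (hB : CaseBStmt) (hCrt : CrtStmt)
    (hK : KattStmt) : BoundStmt := by
  classical
  intro c p hc hc0 hp hbig
  have hc2 : 2 ≤ c := by
    obtain ⟨r, hr⟩ := hc; omega
  have hcc : c ≤ c ^ 3 := Nat.le_self_pow (by norm_num) c
  have hcp : c < p := by omega
  have hcop : Nat.Coprime c p :=
    Nat.Coprime.symm ((Nat.Prime.coprime_iff_not_dvd hp).mpr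
      (fun h => absurd (Nat.le_of_dvd hc0 h) (by omega)))
  obtain ⟨S, hS, hSk⟩ := hK (c * p) (Nat.mul_ne_zero hc0.ne' hp.ne_zero)
  obtain ⟨S', hS', hcard⟩ := hCrt c p hcop S hS
  rw [← hSk, ← hcard]
  obtain ⟨n, hn⟩ : ∃ n, c = 2 * n + 2 := by
    obtain ⟨r, hr⟩ := hc
    exact ⟨r - 1, by omega⟩
  subst hn
  rcases Nat.eq_zero_or_pos n with h0 | h0
  · subst h0
    have hp2 : p ≠ 2 := by omega
    have h1 : S'.card ^ 2 + 3 ≤ 4 * p := hTwo p hp hp2 S' hS'
    omega
  · by_cases hall : (cls S' 0).Nonempty ∧ (cls S' ((n + 1 : ℕ) : ZMod (2 * n + 2))).Nonempty ∧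
      (∀ i ∈ Icc 1 n, 1 ≤ wt S' i)
    · exact hA n p h0 hp hbig S' hS' hall.1 hall.2.1 hall.2.2
    · have h1 := hB n p h0 hp hbig S' hS' hall
      have h2 : 2 * (2 * n + 2) ≤ (2 * n + 2) ^ 2 := by
        rw [sq]; exact Nat.mul_le_mul_right _ (by omega)
      omega

lemma no_solution {c p k r : ℕ} (hc : c ≤ 8) (hr : r ≤ 3) (hp : p.Prime) (hbig : 6400 ≤ p)
    (hc0 : 0 < c) (h : k * k = 2 * (c * p) + r * r) : False := by
  have hkr : r < k := by
    by_contra hcon
    push Not at hcon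
    have h1 : k * k ≤ r * r := Nat.mul_le_mul hcon hcon
    have h2 : 0 < c * p := Nat.mul_pos hc0 hp.pos
    omega
  obtain ⟨d, rfl⟩ := Nat.exists_eq_add_of_lt hkr
  obtain ⟨e, he⟩ : ∃ e, e = d + 1 := ⟨_, rfl⟩
  have h1 : e * (e + 2 * r) = 2 * c * p := by
    have : (r + d + 1) * (r + d + 1) = e * (e + 2 * r) + r * r := by rw [he]; ring
    rw [this] at h
    linarith
  have h2 : 2 * c * p ≤ 16 * p := Nat.mul_le_mul_right p (by omega)
  have hdvd : p ∣ e * (e + 2 * r) := by rw [h1]; exact Dvd.intro_left _ rfl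
  have hple : p ≤ e + 2 * r := by
    rcases (Nat.Prime.dvd_mul hp).mp hdvd with h3 | h3
    · have := Nat.le_of_dvd (by omega) h3
      omega
    · exact Nat.le_of_dvd (by omega) h3
  have h4 : 17 ≤ e := by omega
  have h5 : 17 * p ≤ e * (e + 2 * r) := Nat.mul_le_mul h4 hple
  omega

/-- **SMALLC** -/
theorem smallC (hBd : BoundStmt) (hCons : ConsStmt) : SmallCStmt := by
  classical
  intro c p hc hp hbig
  have hcev : Even c := by
    rcases hc with rfl | rfl | rfl <;> decide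
  have hc0 : 0 < c := by omega
  have hp6400 : 6400 ≤ p := by
    have : 4 ^ 3 ≤ c ^ 3 := Nat.pow_le_pow_left (by omega) 3
    omega
  have hbd := hBd c p hcev hc0 hp hbig
  refine ((hCons (c * p) (hcev.mul_right p) ?_).2.2 ?_).1
  · have : 4 * 6400 ≤ c * p := Nat.mul_le_mul (by omega) hp6400
    omega
  intro S hS
  have hm0 : c * p ≠ 0 := Nat.mul_ne_zero hc0.ne' hp.ne_zero
  have hle : S.card ≤ kmax (c * p) := by
    have : NeZero (c * p) := ⟨hm0⟩
    refine le_csSup ⟨c * p, ?_⟩ ⟨S, hS, rfl⟩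
    rintro n ⟨S, -, rfl⟩
    have := Finset.card_le_univ S
    rwa [ZMod.card] at this
  have hle2 : S.card ^ 2 ≤ kmax (c * p) ^ 2 := Nat.pow_le_pow_left hle 2
  obtain ⟨k, hk⟩ : ∃ k, k = S.card := ⟨_, rfl⟩
  rw [← hk] at hle2 ⊢
  have hb2 : 4 * k ^ 2 + 2 * c ≤ 8 * (c * p) + c ^ 2 := by omega
  by_contra hcon
  push Not at hcon
  rw [sq] at hcon
  rw [sq k] at hb2
  rcases hc with rfl | rfl | rfl
  · have hmod : k * k % 8 = 0 ∨ k * k % 8 = 1 ∨ k * k % 8 = 4 := by
      have hlt := Nat.mod_lt k (show 0 < 8 by norm_num)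
      rw [Nat.mul_mod]
      interval_cases h : k % 8 <;> simp
    have : k * k = 2 * (4 * p) + 0 * 0 ∨ k * k = 2 * (4 * p) + 1 * 1 := by omega
    rcases this with h | h
    · exact no_solution (by norm_num) (by norm_num) hp hp6400 (by norm_num) h
    · exact no_solution (by norm_num) (by norm_num) hp hp6400 (by norm_num) h
  · have hmod : k * k % 12 = 0 ∨ k * k % 12 = 1 ∨ k * k % 12 = 4 ∨ k * k % 12 = 9 := by
      have hlt := Nat.mod_lt k (show 0 < 12 by norm_num)
      rw [Nat.mul_mod]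
      interval_cases h : k % 12 <;> simp
    have : k * k = 2 * (6 * p) + 0 * 0 ∨ k * k = 2 * (6 * p) + 1 * 1 ∨
        k * k = 2 * (6 * p) + 2 * 2 := by omega
    rcases this with h | h | h
    · exact no_solution (by norm_num) (by norm_num) hp hp6400 (by norm_num) h
    · exact no_solution (by norm_num) (by norm_num) hp hp6400 (by norm_num) h
    · exact no_solution (by norm_num) (by norm_num) hp hp6400 (by norm_num) h
  · have hmod : k * k % 16 = 0 ∨ k * k % 16 = 1 ∨ k * k % 16 = 4 ∨ k * k % 16 = 9 := by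
      have hlt := Nat.mod_lt k (show 0 < 16 by norm_num)
      rw [Nat.mul_mod]
      interval_cases h : k % 16 <;> simp
    have : k * k = 2 * (8 * p) + 0 * 0 ∨ k * k = 2 * (8 * p) + 1 * 1 ∨
        k * k = 2 * (8 * p) + 2 * 2 ∨ k * k = 2 * (8 * p) + 3 * 3 := by omega
    rcases this with h | h | h | h
    · exact no_solution (by norm_num) (by norm_num) hp hp6400 (by norm_num) h
    · exact no_solution (by norm_num) (by norm_num) hp hp6400 (by norm_num) h
    · exact no_solution (by norm_num) (by norm_num) hp hp6400 (by norm_num) h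
    · exact no_solution (by norm_num) (by norm_num) hp hp6400 (by norm_num) h

end Pool.Agent.Lib.MP_02fec8_nt
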