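import Pool.Agent.Lib.MP_02fec8_nt.CaseB

/-!
# CASEA: all classes occur (Paper 7)
-/

set_option autoImplicit false

namespace Pool.Agent.Lib.MP_02fec8_nt

open Finset

open CaseBAux in
/-- **CASEA** -/
theorem caseA (hStar : StarStmt) (hStar3 : Star3Stmt) (hVec : VecAStmt) (hNum : NumAStmt)
    (hS : SplitStmt) : CaseAStmt := by
  classical
  intro n p hn hp hbig S hZ h0 h1 hw
  have hp2 : p ≠ 2 := by
    rintro rfl
    have : 1 ≤ (2 * n + 2) ^ 3 := Nat.one_le_pow _ _ (by omega)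
    omega
  obtain ⟨h, e, he, hh, hidx, hsq, habs⟩ := hVec n hn (wt S) (tt S) hw
  have hsp := hS n p S
  rcases hStar n p hp hp2 S hZ h hh e (he.imp id (fun h => ⟨h, h1⟩)) hidx with hA | hB | hC
  · rw [hsp]
    exact hNum n p _ _ (wt S) h hn (Finset.card_pos.mpr h1) hh hA hsq
  · -- `b ≤ 1` and `w i ≤ 2`
    obtain ⟨a, ha⟩ : ∃ a, a = (cls S 0).card := ⟨_, rfl⟩
    obtain ⟨b, hb⟩ : ∃ b, b = (cls S ((n + 1 : ℕ) : ZMod (2 * n + 2))).card := ⟨_, rfl⟩
    rw [← hb] at hB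
    have hb1 : b ≤ 1 := by
      by_contra hcon
      have h2 : 2 ≤ b := by omega
      have h3 : 2 * 1 ≤ b * (b - 1) := Nat.mul_le_mul h2 (by omega)
      omega
    have hsum0 : ∑ i ∈ Icc 1 n, h i * (wt S i - h i) = 0 := by omega
    have hwi : ∀ i ∈ Icc 1 n, wt S i ≤ 2 := by
      intro i hi
      have h2 := (Finset.sum_eq_zero_iff.mp hsum0) i hi
      have h3 := habs i hi
      have h4 := hh i hi
      rw [abs_le] at h3
      rcases Nat.mul_eq_zero.mp h2 with h5 | h5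
      · rw [h5] at h3
        push_cast at h3
        omega
      · have : h i = wt S i := by omega
        rw [this] at h3
        omega
    have hsumw : ∑ i ∈ Icc 1 n, wt S i ≤ n * 2 := by
      have := Finset.sum_le_card_nsmul (Icc 1 n) (wt S) 2 hwi
      simpa using this
    obtain ⟨v, hv, hv0⟩ := exists_of_cls h0
    have h3 := hStar3 n p hp hp2 S hZ v hv (tt (S.erase v)) (fun i _ => Nat.le_add_left _ _) 0
      (Or.inl rfl) (by rw [hv0]; simp)
    obtain ⟨a', ha'⟩ : ∃ a', a' = (cls (S.erase v) 0).card := ⟨_, rfl⟩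
    have haa : a ≤ a' + 1 := by rw [ha, ha']; exact cls_erase_card S v 0
    rw [← ha'] at h3
    have h4 : 2 + a' * (a' + 1) / 2 ≤ p := by omega
    have h5 : a' * (a' + 1) / 2 * 2 = a' * (a' + 1) :=
      Nat.div_mul_cancel (Nat.even_mul_succ_self a').two_dvd
    have h6 : a' * a' + 4 ≤ 2 * p := by nlinarith
    obtain ⟨c, hc⟩ : ∃ c, c = 2 * n + 2 := ⟨_, rfl⟩
    have hk : S.card ≤ a' + c := by omega
    obtain ⟨k, hkS⟩ : ∃ k, k = S.card := ⟨_, rfl⟩
    rw [← hkS] at hk ⊢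
    rw [← hc] at hbig ⊢
    have hc4 : 4 ≤ c := by omega
    have h7 : k ^ 2 ≤ (a' + c) ^ 2 := Nat.pow_le_pow_left hk 2
    have h8 : (a' + c) ^ 2 ≤ 2 * (a' * a') + 2 * (c * c) := by
      have : (0 : ℤ) ≤ ((a' : ℤ) - c) ^ 2 := sq_nonneg _
      have h9 : ((a' : ℤ) + c) ^ 2 ≤ 2 * ((a' : ℤ) * a') + 2 * ((c : ℤ) * c) := by nlinarith
      exact_mod_cast h9
    have h9 : c * c ≤ p := by
      have : c * c * 1 ≤ c * c * c := Nat.mul_le_mul_left _ (by omega)
      nlinarith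
    have h10 : 4 * p ≤ c * p := Nat.mul_le_mul_right p hc4
    nlinarith
  · have := Finset.card_pos.mpr h0
    omega

end Pool.Agent.Lib.MP_02fec8_nt
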