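import Pool.Agent.Lib.MP_02fec8_nt.Defs

/-!
# CASEB: some class does not occur (Paper 8)
-/

set_option autoImplicit false

namespace Pool.Agent.Lib.MP_02fec8_nt

open Finset

namespace CaseBAux

lemma cls_erase_subset {c p : ℕ} (S : Finset (ZMod c × ZMod p)) (v : ZMod c × ZMod p)
    (j : ZMod c) : cls (S.erase v) j ⊆ cls S j :=
  image_subset_image (filter_subset_filter _ (erase_subset _ _))

lemma cls_erase_card {c p : ℕ} (S : Finset (ZMod c × ZMod p)) (v : ZMod c × ZMod p)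
    (j : ZMod c) : (cls S j).card ≤ (cls (S.erase v) j).card + 1 := by
  have h : cls S j ⊆ insert v.2 (cls (S.erase v) j) := by
    intro y hy
    simp only [cls, mem_image, mem_filter] at hy
    obtain ⟨x, ⟨hx, hxj⟩, rfl⟩ := hy
    by_cases hxv : x = v
    · rw [hxv]; exact mem_insert_self _ _
    · refine mem_insert_of_mem ?_
      simp only [cls, mem_image, mem_filter, mem_erase]
      exact ⟨x, ⟨⟨hxv, hx⟩, hxj⟩, rfl⟩
  exact (card_le_card h).trans (card_insert_le _ _)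

lemma exists_of_cls {c p : ℕ} {S : Finset (ZMod c × ZMod p)} {j : ZMod c}
    (h : (cls S j).Nonempty) : ∃ v ∈ S, v.1 = j := by
  obtain ⟨y, hy⟩ := h
  simp only [cls, mem_image, mem_filter] at hy
  obtain ⟨x, ⟨hx, hxj⟩, -⟩ := hy
  exact ⟨x, hx, hxj⟩

/-- Cauchy-Schwarz for two terms -/
lemma cs2 {α β X Y x y : ℝ} (hα : 0 ≤ α) (hβ : 0 ≤ β) (hX : 0 ≤ X) (hY : 0 ≤ Y)
    (h1 : x ^ 2 ≤ α * X) (h2 : y ^ 2 ≤ β * Y) : (x + y) ^ 2 ≤ (α + β) * (X + Y) := by
  have h3 : 2 * (x * y) ≤ α * Y + β * X := by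
    have h4 : (x * y) ^ 2 ≤ (α * Y) * (β * X) := by
      calc (x * y) ^ 2 = x ^ 2 * y ^ 2 := by ring
        _ ≤ (α * X) * (β * Y) := mul_le_mul h1 h2 (sq_nonneg _) (mul_nonneg hα hX)
        _ = _ := by ring
    have h5 : (2 * (x * y)) ^ 2 ≤ (α * Y + β * X) ^ 2 := by
      nlinarith [sq_nonneg (α * Y - β * X)]
    exact le_of_abs_le (abs_le_of_sq_le_sq h5 (add_nonneg (mul_nonneg hα hY)
      (mul_nonneg hβ hX)))
  nlinarith

/-- the final numerical inequality -/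
lemma numB {c p U ρ k : ℝ} (hc : 1 ≤ c) (hp : 100 * c ^ 3 ≤ p) (hU0 : 0 ≤ U) (hρ : 1 ≤ ρ)
    (hρc : ρ ≤ c / 2) (hU : U ^ 2 ≤ (c - ρ) * (2 * p - 4 + 8 * c ^ 2)) (hk0 : 0 ≤ k)
    (hk : k ≤ U + 5 * c * ρ) : k ^ 2 ≤ 2 * (c * p) := by
  have hc0 : 0 < c := by linarith
  have hc3 : c ^ 2 ≤ c ^ 3 := by
    have : c ^ 3 = c ^ 2 * c := by ring
    rw [this]
    exact le_mul_of_one_le_right (sq_nonneg c) hc
  have hp0 : 0 < p := lt_of_lt_of_le (by positivity) hp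
  have h1 : U ^ 2 ≤ 2 * (c * p) + 8 * c ^ 3 - 2 * (p * ρ) := by
    have h2 : 0 ≤ (c - ρ) * 4 := mul_nonneg (by linarith) (by norm_num)
    have h3 : 0 ≤ ρ * (8 * c ^ 2) := by positivity
    nlinarith
  have h4 : 10 * c * U ≤ 7 / 4 * p := by
    have h5 : (10 * c * U) ^ 2 ≤ (7 / 4 * p) ^ 2 := by
      have h6 : U ^ 2 ≤ 2 * (c * p) + 8 * c ^ 3 := by
        have : 0 ≤ p * ρ := by positivity
        linarith
      have h7 : 100 * c ^ 2 * U ^ 2 ≤ 100 * c ^ 2 * (2 * (c * p) + 8 * c ^ 3) :=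
        mul_le_mul_of_nonneg_left h6 (by positivity)
      have h8 : 100 * c ^ 3 * p ≤ p * p := mul_le_mul_of_nonneg_right hp hp0.le
      have h9 : 8 * c ^ 2 * (100 * c ^ 3) ≤ 8 * c ^ 2 * p :=
        mul_le_mul_of_nonneg_left hp (by positivity)
      have h10 : 8 * c ^ 2 * p ≤ p * p := by
        apply mul_le_mul_of_nonneg_right _ hp0.le
        linarith
      nlinarith
    exact abs_le_of_sq_le_sq' h5 (by positivity) |>.2
  have h11 : k ^ 2 ≤ (U + 5 * c * ρ) ^ 2 := pow_le_pow_left₀ hk0 hk 2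
  have h12 : 25 * c ^ 2 * ρ ^ 2 ≤ 25 / 2 * c ^ 3 * ρ := by
    have : ρ ^ 2 ≤ c / 2 * ρ := by nlinarith
    calc 25 * c ^ 2 * ρ ^ 2 ≤ 25 * c ^ 2 * (c / 2 * ρ) :=
          mul_le_mul_of_nonneg_left this (by positivity)
      _ = _ := by ring
  have h13 : 10 * c * U * ρ ≤ 7 / 4 * p * ρ := mul_le_mul_of_nonneg_right h4 (by linarith)
  have h14 : 8 * c ^ 3 ≤ 8 * c ^ 3 * ρ := le_mul_of_one_le_right (by positivity) hρ
  have h15 : 82 * c ^ 3 * ρ ≤ p * ρ :=
    mul_le_mul_of_nonneg_right (by linarith [pow_pos hc0 3]) (by linarith)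
  nlinarith

/-- from the inequality of STAR3 to the bound -/
lemma core (n p a b : ℕ) (w h : ℕ → ℕ) (hn : 1 ≤ n) (hp : 100 * (2 * n + 2) ^ 3 ≤ p)
    (hh : ∀ i ∈ Icc 1 n, h i ≤ w i)
    (hst : 2 + a * (a + 1) / 2 + b * (b - 1) / 2 + ∑ i ∈ Icc 1 n, h i * (w i - h i) ≤ p)
    (hsq : ∑ i ∈ (Icc 1 n).filter (fun i => 4 * (2 * n + 2) ≤ w i + 1),
      ((w i : ℤ) - 2 * (h i : ℤ)) ^ 2 ≤ 16 * ((2 * n + 2 : ℕ) : ℤ) ^ 2)
    (hnot : ¬ (1 ≤ a ∧ 1 ≤ b ∧ ∀ i ∈ Icc 1 n, 1 ≤ w i)) (k : ℕ)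
    (hk : k = a + b + ∑ i ∈ Icc 1 n, w i + 1) : k ^ 2 ≤ 2 * ((2 * n + 2) * p) := by
  classical
  obtain ⟨c, hc⟩ : ∃ c : ℕ, c = 2 * n + 2 := ⟨_, rfl⟩
  rw [← hc] at hp hsq ⊢
  set P := (Icc 1 n).filter (fun i => 4 * c ≤ w i + 1) with hP
  set R := (Icc 1 n).filter (fun i => ¬ 4 * c ≤ w i + 1) with hR
  have hPR : P.card + R.card = n := by
    have := Finset.card_filter_add_card_filter_not (s := Icc 1 n)
      (fun i => 4 * c ≤ w i + 1)
    rw [Nat.card_Icc, Nat.add_sub_cancel] at this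
    exact this
  have hsplit : ∑ i ∈ P, w i + ∑ i ∈ R, w i = ∑ i ∈ Icc 1 n, w i :=
    Finset.sum_filter_add_sum_filter_not _ _ _
  have hRle : ∑ i ∈ R, w i ≤ R.card * (4 * c) := by
    rw [← smul_eq_mul]
    apply Finset.sum_le_card_nsmul
    intro i hi
    have := (mem_filter.mp hi).2
    omega
  -- real quantities
  obtain ⟨A, hA⟩ : ∃ A : ℝ, A = a := ⟨_, rfl⟩
  obtain ⟨B, hB⟩ : ∃ B : ℝ, B = ((b - 1 : ℕ) : ℝ) := ⟨_, rfl⟩
  obtain ⟨ta, hta⟩ : ∃ ta : ℕ, ta = if 1 ≤ a then 1 else 0 := ⟨_, rfl⟩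
  obtain ⟨tb, htb⟩ : ∃ tb : ℕ, tb = if 1 ≤ b then 1 else 0 := ⟨_, rfl⟩
  have hta1 : ta ≤ 1 := by rw [hta]; split_ifs <;> omega
  have htb1 : tb ≤ 1 := by rw [htb]; split_ifs <;> omega
  have hAA : A ^ 2 ≤ (ta : ℝ) * A ^ 2 := by
    rw [hta]
    by_cases h1 : 1 ≤ a
    · rw [if_pos h1]; simp
    · have : a = 0 := by omega
      rw [if_neg h1, hA, this]; simp
  have hBB : B ^ 2 ≤ (tb : ℝ) * B ^ 2 := by
    rw [htb]
    by_cases h1 : 1 ≤ b
    · rw [if_pos h1]; simp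
    · have : b = 0 := by omega
      rw [if_neg h1, hB, this]; simp
  have hcs : (∑ i ∈ P, (w i : ℝ)) ^ 2 ≤ (2 * (P.card : ℝ)) * ((∑ i ∈ P, (w i : ℝ) ^ 2) / 2) := by
    have := sq_sum_le_card_mul_sum_sq (s := P) (f := fun i => (w i : ℝ))
    linarith
  obtain ⟨U, hU⟩ : ∃ U : ℝ, U = A + B + ∑ i ∈ P, (w i : ℝ) := ⟨_, rfl⟩
  have hA0 : 0 ≤ A := by rw [hA]; positivity
  have hB0 : 0 ≤ B := by rw [hB]; positivity
  have hU0 : 0 ≤ U := by
    rw [hU]; exact add_nonneg (add_nonneg hA0 hB0) (sum_nonneg fun i _ => Nat.cast_nonneg _)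
  have hUsq : U ^ 2 ≤ ((ta : ℝ) + tb + 2 * (P.card : ℝ)) *
      (A ^ 2 + B ^ 2 + (∑ i ∈ P, (w i : ℝ) ^ 2) / 2) := by
    rw [hU]
    refine cs2 (by positivity) (by positivity) (by positivity)
      (by positivity) ?_ hcs
    exact cs2 (by positivity) (by positivity) (by positivity) (by positivity) hAA hBB
  -- the quadratic inequality
  have hquad : 2 * A ^ 2 + 2 * B ^ 2 + ∑ i ∈ P, (w i : ℝ) ^ 2 ≤ 4 * p - 8 + 16 * (c : ℝ) ^ 2 := by
    have e1 : A ^ 2 / 2 ≤ ((a * (a + 1) / 2 : ℕ) : ℝ) := by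
      have h1 : a * (a + 1) / 2 * 2 = a * (a + 1) := Nat.div_mul_cancel (Nat.even_mul_succ_self a).two_dvd
      have h2 : ((a * (a + 1) / 2 : ℕ) : ℝ) * 2 = a * (a + 1) := by exact_mod_cast h1
      rw [hA]
      have h3 : (0 : ℝ) ≤ a := Nat.cast_nonneg a
      nlinarith
    have e2 : B ^ 2 / 2 ≤ ((b * (b - 1) / 2 : ℕ) : ℝ) := by
      have h1 : b * (b - 1) / 2 * 2 = b * (b - 1) :=
        Nat.div_mul_cancel (Nat.even_mul_pred_self b).two_dvd
      have h2 : ((b * (b - 1) / 2 : ℕ) : ℝ) * 2 = b * ((b - 1 : ℕ) : ℝ) := by exact_mod_cast h1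
      have h3 : ((b - 1 : ℕ) : ℝ) ≤ b := by exact_mod_cast Nat.sub_le b 1
      have h4 : (0 : ℝ) ≤ ((b - 1 : ℕ) : ℝ) := Nat.cast_nonneg _
      rw [hB]
      nlinarith
    have e3 : ∑ i ∈ P, (w i : ℝ) ^ 2 / 4 - 4 * (c : ℝ) ^ 2 ≤
        ((∑ i ∈ Icc 1 n, h i * (w i - h i) : ℕ) : ℝ) := by
      have h1 : ((∑ i ∈ P, h i * (w i - h i) : ℕ) : ℝ) ≤
          ((∑ i ∈ Icc 1 n, h i * (w i - h i) : ℕ) : ℝ) := by
        exact_mod_cast Finset.sum_le_sum_of_subset (filter_subset _ _)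
      refine le_trans ?_ h1
      have h2 : ∑ i ∈ P, ((w i : ℝ) - 2 * (h i : ℝ)) ^ 2 ≤ 16 * (c : ℝ) ^ 2 := by
        exact_mod_cast hsq
      have h3 : ((∑ i ∈ P, h i * (w i - h i) : ℕ) : ℝ) =
          ∑ i ∈ P, ((w i : ℝ) ^ 2 / 4 - ((w i : ℝ) - 2 * (h i : ℝ)) ^ 2 / 4) := by
        push_cast
        apply Finset.sum_congr rfl
        intro i hi
        rw [Nat.cast_sub (hh i (mem_filter.mp hi).1)]
        ring
      rw [h3, Finset.sum_sub_distrib, ← Finset.sum_div, ← Finset.sum_div]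
      linarith
    have e4 : (2 : ℝ) + ((a * (a + 1) / 2 : ℕ) : ℝ) + ((b * (b - 1) / 2 : ℕ) : ℝ) +
        ((∑ i ∈ Icc 1 n, h i * (w i - h i) : ℕ) : ℝ) ≤ p := by exact_mod_cast hst
    rw [← Finset.sum_div] at e3
    linarith
  -- `ρ`
  obtain ⟨ρ, hρ⟩ : ∃ ρ : ℕ, ρ = max 1 R.card := ⟨_, rfl⟩
  have hρ1 : 1 ≤ ρ := by rw [hρ]; exact le_max_left _ _
  have hρR : R.card ≤ ρ := by rw [hρ]; exact le_max_right _ _
  have hρc : 2 * ρ ≤ c := by
    rw [hρ, hc]
    have : R.card ≤ n := by omega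
    rcases le_total 1 R.card with h1 | h1
    · rw [max_eq_right h1]; omega
    · rw [max_eq_left h1]; omega
  have hT : ta + tb + 2 * P.card + ρ ≤ c := by
    rcases Nat.eq_zero_or_pos R.card with hR0 | hR0
    · have hρ' : ρ = 1 := by rw [hρ, hR0]; rfl
      have hall : ∀ i ∈ Icc 1 n, 1 ≤ w i := by
        intro i hi
        by_contra hlt
        have : i ∈ R := by
          rw [hR, mem_filter]; exact ⟨hi, by omega⟩
        rw [Finset.card_eq_zero] at hR0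
        rw [hR0] at this
        exact absurd this (notMem_empty _)
      have hab : ta + tb ≤ 1 := by
        by_contra hcon
        have h1 : 1 ≤ a := by
          by_contra h1
          rw [if_neg h1] at hta
          omega
        have h2 : 1 ≤ b := by
          by_contra h2
          rw [if_neg h2] at htb
          omega
        exact hnot ⟨h1, h2, hall⟩
      omega
    · have hρ' : ρ = R.card := by rw [hρ]; exact max_eq_right hR0
      omega
  have hkU : (k : ℝ) ≤ U + 5 * c * ρ := by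
    have h1 : (k : ℝ) = a + b + (∑ i ∈ P, (w i : ℝ) + ((∑ i ∈ R, w i : ℕ) : ℝ)) + 1 := by
      rw [hk, ← hsplit]; push_cast; ring
    have h2 : ((∑ i ∈ R, w i : ℕ) : ℝ) ≤ R.card * (4 * c) := by exact_mod_cast hRle
    have h3 : (b : ℝ) ≤ B + 1 := by
      rw [hB]
      have : b ≤ (b - 1) + 1 := by omega
      exact_mod_cast this
    have h4 : (R.card : ℝ) ≤ ρ := by exact_mod_cast hρR
    have h5 : (1 : ℝ) ≤ ρ := by exact_mod_cast hρ1
    have h6 : (4 : ℝ) ≤ c := by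
      have : 4 ≤ c := by omega
      exact_mod_cast this
    have h7 : (R.card : ℝ) * (4 * c) ≤ ρ * (4 * c) := mul_le_mul_of_nonneg_right h4 (by linarith)
    have h8 : (4 : ℝ) * 1 ≤ c * ρ := mul_le_mul h6 h5 (by norm_num) (by linarith)
    rw [h1, hU, hA]
    linarith
  have hfin := numB (c := (c : ℝ)) (p := (p : ℝ)) (U := U) (ρ := (ρ : ℝ)) (k := (k : ℝ))
    (by have : 1 ≤ c := by omega
        exact_mod_cast this)
    (by exact_mod_cast hp) hU0 (by exact_mod_cast hρ1)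
    (by have : (2 : ℝ) * ρ ≤ c := by exact_mod_cast hρc
        linarith)
    (by
      have hT' : (ta : ℝ) + tb + 2 * (P.card : ℝ) ≤ c - ρ := by
        have : (ta : ℝ) + tb + 2 * (P.card : ℝ) + ρ ≤ c := by exact_mod_cast hT
        linarith
      have h0 : 0 ≤ A ^ 2 + B ^ 2 + (∑ i ∈ P, (w i : ℝ) ^ 2) / 2 := by positivity
      have h1 : A ^ 2 + B ^ 2 + (∑ i ∈ P, (w i : ℝ) ^ 2) / 2 ≤ 2 * p - 4 + 8 * (c : ℝ) ^ 2 := by
        linarith
      calc U ^ 2 ≤ _ := hUsq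
        _ ≤ ((c : ℝ) - ρ) * (A ^ 2 + B ^ 2 + (∑ i ∈ P, (w i : ℝ) ^ 2) / 2) :=
            mul_le_mul_of_nonneg_right hT' h0
        _ ≤ _ := mul_le_mul_of_nonneg_left h1 (le_trans (by positivity) hT'))
    (Nat.cast_nonneg k) hkU
  exact_mod_cast hfin

end CaseBAux

open CaseBAux

/-- **CASEB** -/
theorem caseB (h3 : Star3Stmt) (hV : VecBStmt) (hS : SplitStmt) : CaseBStmt := by
  classical
  intro n p hn hp hbig S hZ hnot
  have hp2 : p ≠ 2 := by
    rintro rfl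
    have : 1 ≤ (2 * n + 2) ^ 3 := Nat.one_le_pow _ _ (by omega)
    omega
  by_cases hsmall : S.card ≤ 4 * (2 * n + 2) ^ 2
  · calc S.card ^ 2 ≤ (4 * (2 * n + 2) ^ 2) ^ 2 := Nat.pow_le_pow_left hsmall 2
      _ = 16 * (2 * n + 2) ^ 3 * (2 * n + 2) := by ring
      _ ≤ p * (2 * n + 2) := Nat.mul_le_mul_right _ (by omega)
      _ ≤ 2 * ((2 * n + 2) * p) := by
        rw [mul_comm p]; omega
  push Not at hsmall
  have hn1 : ((n + 1 : ℕ) : ZMod (2 * n + 2)) + ((n + 1 : ℕ) : ZMod (2 * n + 2)) = 0 := by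
    rw [← Nat.cast_add]
    have : n + 1 + (n + 1) = 2 * n + 2 := by ring
    rw [this]; exact ZMod.natCast_self _
  -- the choice of `v`
  obtain ⟨v, hv, e, g, he, hidx⟩ : ∃ v ∈ S, ∃ (e : ℕ) (g : ℕ → ℕ),
      (e = 0 ∨ (e = 1 ∧ (cls (S.erase v) ((n + 1 : ℕ) : ZMod (2 * n + 2))).Nonempty)) ∧
      (∑ i ∈ (Icc 1 n).filter (fun i => 4 * (2 * n + 2) ≤ wt (S.erase v) i + 1),
        (i : ZMod (2 * n + 2)) * ((g i : ZMod (2 * n + 2)) - (tt (S.erase v) i : ℕ)))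
        + (e : ZMod (2 * n + 2)) * ((n + 1 : ℕ) : ZMod (2 * n + 2)) = -v.1 := by
    by_cases h0 : (cls S 0).Nonempty
    · obtain ⟨v, hv, hv0⟩ := exists_of_cls h0
      refine ⟨v, hv, 0, tt (S.erase v), Or.inl rfl, ?_⟩
      rw [hv0]
      simp
    rw [Finset.not_nonempty_iff_eq_empty] at h0
    by_cases h1 : ∃ i ∈ Icc 1 n, 4 * (2 * n + 2) + 1 ≤ wt S i
    · obtain ⟨i, hi, hwi⟩ := h1
      have hgen : ∀ v ∈ S, ∀ r : ℕ, (i : ZMod (2 * n + 2)) * (r : ZMod (2 * n + 2)) = -v.1 →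
          ∃ v ∈ S, ∃ (e : ℕ) (g : ℕ → ℕ),
          (e = 0 ∨ (e = 1 ∧ (cls (S.erase v) ((n + 1 : ℕ) : ZMod (2 * n + 2))).Nonempty)) ∧
          (∑ i ∈ (Icc 1 n).filter (fun i => 4 * (2 * n + 2) ≤ wt (S.erase v) i + 1),
            (i : ZMod (2 * n + 2)) * ((g i : ZMod (2 * n + 2)) - (tt (S.erase v) i : ℕ)))
            + (e : ZMod (2 * n + 2)) * ((n + 1 : ℕ) : ZMod (2 * n + 2)) = -v.1 := by
        intro v hv r hr
        refine ⟨v, hv, 0, Function.update (tt (S.erase v)) i (tt (S.erase v) i + r),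
          Or.inl rfl, ?_⟩
        have hmem : i ∈ (Icc 1 n).filter (fun i => 4 * (2 * n + 2) ≤ wt (S.erase v) i + 1) := by
          rw [mem_filter]
          refine ⟨hi, ?_⟩
          have e1 := cls_erase_card S v (i : ZMod (2 * n + 2))
          have e2 := cls_erase_card S v (-(i : ZMod (2 * n + 2)))
          unfold wt at hwi ⊢
          omega
        rw [Finset.sum_eq_single_of_mem i hmem]
        · rw [Function.update_self]
          push_cast
          rw [add_sub_cancel_left, hr]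
          ring
        · intro b _ hb
          rw [Function.update_of_ne hb]
          ring
      by_cases h2 : (cls S (i : ZMod (2 * n + 2))).Nonempty
      · obtain ⟨v, hv, hvi⟩ := exists_of_cls h2
        refine hgen v hv (2 * n + 1) ?_
        rw [hvi]
        have : ((2 * n + 1 : ℕ) : ZMod (2 * n + 2)) = -1 := by
          have h5 : ((2 * n + 2 : ℕ) : ZMod (2 * n + 2)) = 0 := ZMod.natCast_self _
          have h6 : ((2 * n + 1 : ℕ) : ZMod (2 * n + 2)) + 1 = 0 := by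
            rw [← h5]; push_cast; ring
          exact eq_neg_of_add_eq_zero_left h6
        rw [this]; ring
      · have h3' : (cls S (-(i : ZMod (2 * n + 2)))).Nonempty := by
          rw [Finset.not_nonempty_iff_eq_empty] at h2
          unfold wt at hwi
          rw [h2, card_empty] at hwi
          rw [← Finset.card_pos]
          omega
        obtain ⟨v, hv, hvi⟩ := exists_of_cls h3'
        refine hgen v hv 1 ?_
        rw [hvi]; push_cast; ring
    · push Not at h1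
      have hsp := hS n p S
      rw [h0, card_empty, zero_add] at hsp
      have hle : ∑ i ∈ Icc 1 n, wt S i ≤ n * (4 * (2 * n + 2)) := by
        have := Finset.sum_le_card_nsmul (Icc 1 n) (wt S) (4 * (2 * n + 2))
          (fun i hi => by have := h1 i hi; omega)
        simpa using this
      have hb : 2 ≤ (cls S ((n + 1 : ℕ) : ZMod (2 * n + 2))).card := by
        nlinarith
      have hne : (cls S ((n + 1 : ℕ) : ZMod (2 * n + 2))).Nonempty := by
        rw [← Finset.card_pos]; omega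
      obtain ⟨v, hv, hvi⟩ := exists_of_cls hne
      refine ⟨v, hv, 1, tt (S.erase v), Or.inr ⟨rfl, ?_⟩, ?_⟩
      · rw [← Finset.card_pos]
        have := cls_erase_card S v ((n + 1 : ℕ) : ZMod (2 * n + 2))
        omega
      · rw [hvi]
        rw [eq_neg_iff_add_eq_zero]
        simp only [sub_self, mul_zero, sum_const_zero, zero_add, Nat.cast_one, one_mul]
        exact hn1
  obtain ⟨h, hh, hsum, hsq⟩ := hV n hn
    ((Icc 1 n).filter (fun i => 4 * (2 * n + 2) ≤ wt (S.erase v) i + 1)) (filter_subset _ _)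
    (wt (S.erase v)) (tt (S.erase v)) g (fun i _ => Nat.le_add_left _ _)
    (fun i hi => (mem_filter.mp hi).2) _ rfl
  have hst := h3 n p hp hp2 S hZ v hv h hh e he (by rw [hsum]; exact hidx)
  have hsp := hS n p (S.erase v)
  rw [Finset.card_erase_of_mem hv] at hsp
  have hpos : 0 < S.card := by omega
  refine core n p (cls (S.erase v) 0).card (cls (S.erase v) ((n + 1 : ℕ) : ZMod (2 * n + 2))).card
    (wt (S.erase v)) h hn hbig hh hst hsq ?_ S.card (by omega)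
  rintro ⟨h1, h2, h3'⟩
  apply hnot
  refine ⟨?_, ?_, ?_⟩
  · exact (Finset.card_pos.mp h1).mono (cls_erase_subset S v _)
  · exact (Finset.card_pos.mp h2).mono (cls_erase_subset S v _)
  · intro i hi
    have := h3' i hi
    have e1 := card_le_card (cls_erase_subset S v (i : ZMod (2 * n + 2)))
    have e2 := card_le_card (cls_erase_subset S v (-(i : ZMod (2 * n + 2))))
    unfold wt at this ⊢
    omega

end Pool.Agent.Lib.MP_02fec8_nt
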