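import Pool.Agent.Lib.MP_02fec8_nt.Defs

/-!
# CONS: the sets `A_l` and `B_l` (Paper 9)
-/

set_option autoImplicit false

namespace Pool.Agent.Lib.MP_02fec8_nt

open Finset

/-- the small part of a residue modulo `2h` -/
def part (h i : ℕ) : ℕ := if i < h then i else i - h

/-- a set of nonzero residues modulo `2h` whose small parts have sum `< h` is zero-sum-free -/
lemma sum_ne_zero_of_part {h : ℕ} (hh : 0 < h) (T : Finset (ZMod (2 * h))) (hT : T.Nonempty)
    (h0 : ∀ x ∈ T, x ≠ 0) (hp : ∑ x ∈ T, part h x.val < h) : ∑ x ∈ T, x ≠ 0 := by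
  classical
  have : NeZero (2 * h) := ⟨by omega⟩
  intro hsum
  obtain ⟨τ, hτ⟩ : ∃ τ, τ = ∑ x ∈ T, part h x.val := ⟨_, rfl⟩
  rw [← hτ] at hp
  obtain ⟨u, hu⟩ : ∃ u, u = ∑ x ∈ T, (if x.val < h then 0 else 1) := ⟨_, rfl⟩
  have h1 : ∑ x ∈ T, x.val = τ + u * h := by
    rw [hτ, hu, Finset.sum_mul, ← Finset.sum_add_distrib]
    apply Finset.sum_congr rfl
    intro x _
    unfold part
    split_ifs <;> omega
  have h2 : ((∑ x ∈ T, x.val : ℕ) : ZMod (2 * h)) = 0 := by
    rw [Nat.cast_sum, ← hsum]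
    apply Finset.sum_congr rfl
    intro x _
    exact ZMod.natCast_zmod_val x
  rw [ZMod.natCast_eq_zero_iff, h1] at h2
  have h3 : h ∣ τ := by
    have h4 : h ∣ τ + u * h := (Dvd.intro_left 2 rfl).trans h2
    exact (Nat.dvd_add_left (Dvd.intro_left u rfl)).mp h4
  have hτ0 : τ = 0 := Nat.eq_zero_of_dvd_of_lt h3 hp
  rw [hτ0, zero_add] at h2
  have h5 : 2 ∣ u := Nat.dvd_of_mul_dvd_mul_right hh h2
  -- all parts are zero
  have h6 : ∀ x ∈ T, x.val = h := by
    intro x hx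
    have h7 := (Finset.sum_eq_zero_iff.mp (hτ.symm.trans hτ0)) x hx
    have h8 : x.val ≠ 0 := by
      rw [Ne, ZMod.val_eq_zero]; exact h0 x hx
    unfold part at h7
    split_ifs at h7
    · exact absurd h7 h8
    · omega
  have hu' : u = T.card := by
    rw [hu, Finset.card_eq_sum_ones]
    apply Finset.sum_congr rfl
    intro x hx
    rw [if_neg (by rw [h6 x hx]; omega)]
  have hcard : T.card ≤ 1 := by
    rw [Finset.card_le_one]
    intro x hx y hy
    exact ZMod.val_injective _ ((h6 x hx).trans (h6 y hy).symm)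
  have := hT.card_pos
  omega

/-- the representatives of `A_l` -/
def DD (h l : ℕ) : Finset ℕ := Icc 1 l ∪ Icc h (h + l)

lemma setA_eq {h l : ℕ} : setA (2 * h) l = (DD h l).image (fun i : ℕ => (i : ZMod (2 * h))) := by
  unfold setA DD
  have : 2 * h / 2 = h := by omega
  rw [this, Finset.image_union]

lemma DD_lt {h l : ℕ} (hl : l < h) {i : ℕ} (hi : i ∈ DD h l) : i < 2 * h ∧ 1 ≤ i := by
  unfold DD at hi
  rw [mem_union, mem_Icc, mem_Icc] at hi
  omega

lemma injOn_DD {h l : ℕ} (hl : l < h) :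
    Set.InjOn (fun i : ℕ => (i : ZMod (2 * h))) (DD h l : Set ℕ) := by
  intro i hi j hj hij
  have h1 := congrArg ZMod.val hij
  simp only at h1
  rw [ZMod.val_cast_of_lt (DD_lt hl hi).1, ZMod.val_cast_of_lt (DD_lt hl hj).1] at h1
  exact h1

lemma disj_DD {h l : ℕ} (hl : l < h) : Disjoint (Icc 1 l) (Icc h (h + l)) := by
  rw [Finset.disjoint_left]
  intro i hi hj
  rw [mem_Icc] at hi hj
  omega

lemma card_setA {h l : ℕ} (hl : l < h) : (setA (2 * h) l).card = 2 * l + 1 := by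
  rw [setA_eq, Finset.card_image_of_injOn (injOn_DD hl), DD,
    Finset.card_union_of_disjoint (disj_DD hl), Nat.card_Icc, Nat.card_Icc]
  omega

lemma sum_part_setA {h l : ℕ} (hl : l < h) :
    ∑ x ∈ setA (2 * h) l, part h x.val = l * (l + 1) := by
  rw [setA_eq, Finset.sum_image (injOn_DD hl)]
  have h1 : ∑ i ∈ DD h l, part h ((i : ZMod (2 * h)).val) = ∑ i ∈ DD h l, part h i := by
    apply Finset.sum_congr rfl
    intro i hi
    rw [ZMod.val_cast_of_lt (DD_lt hl hi).1]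
  rw [h1, DD, Finset.sum_union (disj_DD hl)]
  have h2 : ∑ i ∈ Icc 1 l, part h i = ∑ i ∈ range (l + 1), i := by
    rw [Finset.sum_range_succ']
    simp only [add_zero]
    rw [Finset.range_eq_Ico]
    rw [show Icc 1 l = (Ico 0 l).map (addRightEmbedding 1) by
      ext i; simp only [mem_Icc, mem_map, mem_Ico, addRightEmbedding_apply]
      constructor
      · rintro ⟨h1, h2⟩; exact ⟨i - 1, by omega, by omega⟩
      · rintro ⟨j, h1, rfl⟩; omega]
    rw [Finset.sum_map]
    apply Finset.sum_congr rfl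
    intro i hi
    rw [mem_Ico] at hi
    simp only [addRightEmbedding_apply]
    unfold part
    rw [if_pos (by omega)]
  have h3 : ∑ i ∈ Icc h (h + l), part h i = ∑ i ∈ range (l + 1), i := by
    have : Icc h (h + l) = Ico h (h + l + 1) := by ext i; rw [mem_Icc, mem_Ico]; omega
    rw [this, Finset.sum_Ico_eq_sum_range]
    have : h + l + 1 - h = l + 1 := by omega
    rw [this]
    apply Finset.sum_congr rfl
    intro i _
    unfold part
    rw [if_neg (by omega)]
    omega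
  rw [h2, h3]
  have := Finset.sum_range_id_mul_two (l + 1)
  rw [Nat.add_sub_cancel] at this
  linarith

lemma zero_notMem_setA {h l : ℕ} (hl : l < h) : ∀ x ∈ setA (2 * h) l, x ≠ 0 := by
  intro x hx hx0
  rw [setA_eq, mem_image] at hx
  obtain ⟨i, hi, hix⟩ := hx
  have h1 := DD_lt hl hi
  have h2 : (i : ZMod (2 * h)).val = 0 := by rw [hix, hx0]; exact ZMod.val_zero
  rw [ZMod.val_cast_of_lt h1.1] at h2
  omega

lemma zsf_setA {h l : ℕ} (hl : l < h) (hlh : l * (l + 1) < h) : ZSF (setA (2 * h) l) := by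
  intro T hT hne
  refine sum_ne_zero_of_part (by omega) T hne (fun x hx => zero_notMem_setA hl x (hT hx)) ?_
  refine lt_of_le_of_lt (Finset.sum_le_sum_of_subset hT) ?_
  rw [sum_part_setA hl]
  exact hlh

lemma mem_setA {h l : ℕ} (hl1 : 1 ≤ l) : (l : ZMod (2 * h)) ∈ setA (2 * h) l := by
  rw [setA_eq, mem_image]
  refine ⟨l, ?_, rfl⟩
  unfold DD
  rw [mem_union, mem_Icc]
  exact Or.inl ⟨hl1, le_rfl⟩

lemma card_setB {h l : ℕ} (hl : l < h) (hl1 : 1 ≤ l) : (setB (2 * h) l).card = 2 * l := by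
  unfold setB
  rw [Finset.card_erase_of_mem (mem_setA hl1), card_setA hl]
  omega

lemma zsf_setB {h l : ℕ} (hl : l < h) (hl1 : 1 ≤ l) (hlh : l * l < h) :
    ZSF (setB (2 * h) l) := by
  intro T hT hne
  refine sum_ne_zero_of_part (by omega) T hne
    (fun x hx => zero_notMem_setA hl x (Finset.erase_subset _ _ (hT hx))) ?_
  refine lt_of_le_of_lt (Finset.sum_le_sum_of_subset hT) ?_
  unfold setB
  have h1 := Finset.add_sum_erase (setA (2 * h) l) (fun x => part h x.val) (mem_setA hl1)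
  rw [sum_part_setA hl] at h1
  rw [ZMod.val_cast_of_lt (by omega)] at h1
  have h2 : part h l = l := by unfold part; rw [if_pos hl]
  rw [h2] at h1
  have h3 : l * (l + 1) = l * l + l := by ring
  omega

lemma bdd_k {m : ℕ} (hm : m ≠ 0) : BddAbove {n | ∃ S : Finset (ZMod m), ZSF S ∧ S.card = n} := by
  have : NeZero m := ⟨hm⟩
  refine ⟨m, ?_⟩
  rintro n ⟨S, -, rfl⟩
  have := Finset.card_le_univ S
  rwa [ZMod.card] at this

lemma le_kmax {m : ℕ} (hm : m ≠ 0) {S : Finset (ZMod m)} (hS : ZSF S) : S.card ≤ kmax m :=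
  le_csSup (bdd_k hm) ⟨S, hS, rfl⟩

/-- **KATT** -/
theorem katt : KattStmt := by
  intro m hm
  have := Nat.sSup_mem (s := {n | ∃ S : Finset (ZMod m), ZSF S ∧ S.card = n})
    ⟨0, ∅, fun T hT hne => absurd (Finset.subset_empty.mp hT) hne.ne_empty, rfl⟩ (bdd_k hm)
  exact this

/-- **CONS** -/
theorem cons : ConsStmt := by
  classical
  intro m hm hm6
  obtain ⟨h, hh⟩ := hm
  have hmh : m = 2 * h := by omega
  subst hmh
  have hm0 : 2 * h ≠ 0 := by omega
  have hbs : BddAbove {n | ∃ l, 1 ≤ l ∧ l < 2 * h / 2 ∧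
      ((ZSF (setA (2 * h) l) ∧ (setA (2 * h) l).card = n) ∨
       (ZSF (setB (2 * h) l) ∧ (setB (2 * h) l).card = n))} := by
    refine (bdd_k hm0).mono ?_
    rintro n ⟨l, -, -, ⟨h1, h2⟩ | ⟨h1, h2⟩⟩
    · exact ⟨_, h1, h2⟩
    · exact ⟨_, h1, h2⟩
  have hsk : smax (2 * h) ≤ kmax (2 * h) := by
    apply csSup_le'
    rintro n ⟨l, -, -, ⟨h1, rfl⟩ | ⟨h1, rfl⟩⟩
    · exact le_kmax hm0 h1
    · exact le_kmax hm0 h1
  have hlow : Nat.sqrt (2 * (2 * h) - 3) ≤ smax (2 * h) := by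
    obtain ⟨q, hq⟩ : ∃ q, q = Nat.sqrt (2 * (2 * h) - 3) := ⟨_, rfl⟩
    rw [← hq]
    have hq2 : q * q ≤ 2 * (2 * h) - 3 := by rw [hq]; exact Nat.sqrt_le _
    have hq3 : 3 ≤ q := by
      rw [hq, Nat.le_sqrt]; omega
    rcases Nat.even_or_odd' q with ⟨l, hl | hl⟩
    · subst hl
      have h1 : 4 * (l * l) ≤ 2 * (2 * h) - 3 := by
        calc 4 * (l * l) = 2 * l * (2 * l) := by ring
          _ ≤ _ := hq2
      have h2 : l * l < h := by omega
      have hl2 : 2 ≤ l := by omega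
      have h3 : l < h := lt_of_le_of_lt (by nlinarith) h2
      rw [← card_setB h3 (by omega)]
      exact le_csSup hbs ⟨l, by omega, by omega, Or.inr ⟨zsf_setB h3 (by omega) h2, rfl⟩⟩
    · subst hl
      have h1 : 4 * (l * (l + 1)) + 1 ≤ 2 * (2 * h) - 3 := by
        calc 4 * (l * (l + 1)) + 1 = (2 * l + 1) * (2 * l + 1) := by ring
          _ ≤ _ := hq2
      have h2 : l * (l + 1) < h := by omega
      have hl2 : 1 ≤ l := by omega
      have h3 : l < h := lt_of_le_of_lt (by nlinarith) h2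
      rw [← card_setA h3]
      exact le_csSup hbs ⟨l, by omega, by omega, Or.inl ⟨zsf_setA h3 h2, rfl⟩⟩
  refine ⟨hsk, hlow, fun hall => ?_⟩
  have hup : kmax (2 * h) ≤ Nat.sqrt (2 * (2 * h) - 3) := by
    apply csSup_le'
    rintro n ⟨S, hS, rfl⟩
    rw [Nat.le_sqrt']
    have := hall S hS
    omega
  exact ⟨le_antisymm (hup.trans hlow) hsk, le_antisymm hup (hlow.trans hsk)⟩

end Pool.Agent.Lib.MP_02fec8_nt
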