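import Mathlib

/-!
Definitions and module statements for MP_02fec8_nt (zero-sum-free sets modulo an even number).
Every module proves one of the `...Stmt` propositions, possibly from others as hypotheses.
-/

set_option autoImplicit false

namespace Pool.Agent.Lib.MP_02fec8_nt

open Finset

section basic

variable {G : Type*} [AddCommGroup G] [DecidableEq G]

/-- sums over all subsets of `S`. -/
def sums (S : Finset G) : Finset G := S.powerset.image (fun T => ∑ x ∈ T, x)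

/-- sums over the subsets `T` of `S` whose number of elements has the parity of `e`. -/
def sumsPar (e : ℕ) (S : Finset G) : Finset G :=
  (S.powerset.filter (fun T => T.card % 2 = e % 2)).image (fun T => ∑ x ∈ T, x)

/-- sums over the `h`-element subsets of `S`. -/
def sumsCard (h : ℕ) (S : Finset G) : Finset G :=
  (S.powersetCard h).image (fun T => ∑ x ∈ T, x)

/-- zero-sum-free sets. -/
def ZSF (S : Finset G) : Prop := ∀ T ⊆ S, T.Nonempty → ∑ x ∈ T, x ≠ 0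

end basic

/-! ### the numbers of the problem -/

/-- `k(m)`: the largest cardinality of a zero-sum-free set of residues modulo `m`. -/
noncomputable def kmax (m : ℕ) : ℕ :=
  sSup {n | ∃ S : Finset (ZMod m), ZSF S ∧ S.card = n}

/-- `A_l = {1, ..., l} ∪ {m/2, m/2 + 1, ..., m/2 + l}`. -/
def setA (m l : ℕ) : Finset (ZMod m) :=
  (Icc 1 l).image (fun i : ℕ => (i : ZMod m)) ∪
    (Icc (m / 2) (m / 2 + l)).image (fun i : ℕ => (i : ZMod m))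

/-- `B_l = A_l \ {l}`. -/
def setB (m l : ℕ) : Finset (ZMod m) := (setA m l).erase (l : ZMod m)

/-- `s(m)`: the largest cardinality of a zero-sum-free set among the `A_l`, `B_l`, `1 ≤ l < m/2`. -/
noncomputable def smax (m : ℕ) : ℕ :=
  sSup {n | ∃ l, 1 ≤ l ∧ l < m / 2 ∧
    ((ZSF (setA m l) ∧ (setA m l).card = n) ∨ (ZSF (setB m l) ∧ (setB m l).card = n))}

/-! ### polynomial method -/

/-- `det (X_i ^ b_j)`. -/
noncomputable def vdm (p : ℕ) {s : ℕ} (b : Fin s → ℕ) : MvPolynomial (Fin s) (ZMod p) :=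
  (Matrix.of fun i j => (MvPolynomial.X i : MvPolynomial (Fin s) (ZMod p)) ^ (b j)).det

/-- the matrix `1 / (t_i - b_j)!` (with entry `0` if `t_i < b_j`). -/
def fac (p : ℕ) {s : ℕ} (b t : Fin s → ℕ) : Matrix (Fin s) (Fin s) (ZMod p) :=
  fun i j => if b j ≤ t i then (((t i - b j).factorial : ℕ) : ZMod p)⁻¹ else 0

/-- the exponents `M, M-1, ..., M-(s-2), M-(s-1+d)`. -/
def tvec (s M d : ℕ) (i : Fin s) : ℕ := if (i : ℕ) + 1 = s then M - (s - 1 + d) else M - i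

/-- CORE. -/
def CoreStmt : Prop :=
  ∀ (p : ℕ), p.Prime → ∀ (s : ℕ) (C : Finset (ZMod p)) (b t : Fin s → ℕ)
    (R : MvPolynomial (Fin s) (ZMod p)) (N : ℕ), N < p → N + ∑ i, b i = ∑ i, t i →
    (R = vdm p b ∨ (R - vdm p b).totalDegree < ∑ i, b i) →
    (fac p b t).det ≠ 0 → (∀ i, t i < C.card) →
    ∀ E : Finset (ZMod p), E.card ≤ N →
      ∃ x : Fin s → ZMod p, (∀ i, x i ∈ C) ∧ MvPolynomial.eval x R ≠ 0 ∧ ∑ i, x i ∉ E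

/-- NVB: type B determinant. -/
def NVBStmt : Prop :=
  ∀ (p : ℕ), p.Prime → ∀ s d : ℕ, 1 ≤ s → d < s → 2 * s < p →
    (fac p (fun j : Fin s => 2 * (j : ℕ)) (tvec s (2 * s - 1) d)).det ≠ 0

/-- NVD: type D determinant. -/
def NVDStmt : Prop :=
  ∀ (p : ℕ), p.Prime → ∀ s d : ℕ, 1 ≤ s → d < s → 2 * s < p →
    (fac p (fun j : Fin s => 2 * (j : ℕ) + 1) (tvec s (2 * s - 1) d)).det ≠ 0

/-- NVH: determinant for the Dias da Silva - Hamidoune theorem. -/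
def NVHStmt : Prop :=
  ∀ (p : ℕ), p.Prime → ∀ h w d : ℕ, 1 ≤ h → h ≤ w → d ≤ w - h → w ≤ p →
    (fac p (fun j : Fin h => (j : ℕ)) (tvec h (w - 1) d)).det ≠ 0

/-- TYPEB (Balandraud). -/
def TypeBStmt : Prop :=
  ∀ (p : ℕ), p.Prime → p ≠ 2 → ∀ A : Finset (ZMod p), (∀ x ∈ A, ∀ y ∈ A, x + y ≠ 0) →
    min p (1 + A.card * (A.card + 1) / 2) ≤ (sums A).card

/-- TYPED. -/
def TypeDStmt : Prop :=
  ∀ (p : ℕ), p.Prime → p ≠ 2 → ∀ B : Finset (ZMod p),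
    (∀ x ∈ B, ∀ y ∈ B, x ≠ y → x + y ≠ 0) →
    ∀ e : ℕ, (e = 0 ∨ (e = 1 ∧ B.Nonempty)) →
    min p (1 + B.card * (B.card - 1) / 2) ≤ (sumsPar e B).card

/-- DDSH (Dias da Silva - Hamidoune). -/
def DdshStmt : Prop :=
  ∀ (p : ℕ), p.Prime → ∀ (W : Finset (ZMod p)) (h : ℕ), h ≤ W.card →
    min p (1 + h * (W.card - h)) ≤ (sumsCard h W).card

/-! ### fibres -/

/-- the part of `S` over `j`. -/
def cls {c p : ℕ} (S : Finset (ZMod c × ZMod p)) (j : ZMod c) : Finset (ZMod p) :=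
  (S.filter (fun x => x.1 = j)).image Prod.snd

/-- `t_i`: number of elements over `-i`. -/
def tt {c p : ℕ} (S : Finset (ZMod c × ZMod p)) (i : ℕ) : ℕ := (cls S (-(i : ZMod c))).card

/-- `w_i`: number of elements over `i` and `-i`. -/
def wt {c p : ℕ} (S : Finset (ZMod c × ZMod p)) (i : ℕ) : ℕ :=
  (cls S (i : ZMod c)).card + (cls S (-(i : ZMod c))).card

/-- TWO: the case `m = 2p`. -/
def TwoStmt : Prop :=
  ∀ (p : ℕ), p.Prime → p ≠ 2 → ∀ S : Finset (ZMod 2 × ZMod p), ZSF S → S.card ^ 2 + 3 ≤ 4 * p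

/-- FIB: fibres of the set of subset sums. Here `c = 2n+2`. -/
def FibStmt : Prop :=
  ∀ (n p : ℕ), p.Prime → p ≠ 2 → ∀ S : Finset (ZMod (2 * n + 2) × ZMod p), ZSF S →
    ∀ h : ℕ → ℕ, (∀ i ∈ Icc 1 n, h i ≤ wt S i) →
    ∀ e : ℕ, (e = 0 ∨ (e = 1 ∧ (cls S ((n + 1 : ℕ) : ZMod (2 * n + 2))).Nonempty)) →
    min p (1 + (cls S 0).card * ((cls S 0).card + 1) / 2
      + (cls S ((n + 1 : ℕ) : ZMod (2 * n + 2))).card *
        ((cls S ((n + 1 : ℕ) : ZMod (2 * n + 2))).card - 1) / 2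
      + ∑ i ∈ Icc 1 n, h i * (wt S i - h i)) ≤
    (cls (sums S) (∑ i ∈ Icc 1 n, (i : ZMod (2 * n + 2)) * ((h i : ZMod (2 * n + 2)) - (tt S i : ℕ))
      + (e : ZMod (2 * n + 2)) * ((n + 1 : ℕ) : ZMod (2 * n + 2)))).card

/-- STAR: consequence for zero-sum-free sets, index `0`. -/
def StarStmt : Prop :=
  ∀ (n p : ℕ), p.Prime → p ≠ 2 → ∀ S : Finset (ZMod (2 * n + 2) × ZMod p), ZSF S →
    ∀ h : ℕ → ℕ, (∀ i ∈ Icc 1 n, h i ≤ wt S i) →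
    ∀ e : ℕ, (e = 0 ∨ (e = 1 ∧ (cls S ((n + 1 : ℕ) : ZMod (2 * n + 2))).Nonempty)) →
    (∑ i ∈ Icc 1 n, (i : ZMod (2 * n + 2)) * ((h i : ZMod (2 * n + 2)) - (tt S i : ℕ))
      + (e : ZMod (2 * n + 2)) * ((n + 1 : ℕ) : ZMod (2 * n + 2))) = 0 →
    (1 + (cls S 0).card * ((cls S 0).card + 1) / 2
      + (cls S ((n + 1 : ℕ) : ZMod (2 * n + 2))).card *
        ((cls S ((n + 1 : ℕ) : ZMod (2 * n + 2))).card - 1) / 2
      + ∑ i ∈ Icc 1 n, h i * (wt S i - h i) ≤ p) ∨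
    ((cls S ((n + 1 : ℕ) : ZMod (2 * n + 2))).card *
        ((cls S ((n + 1 : ℕ) : ZMod (2 * n + 2))).card - 1) / 2
      + ∑ i ∈ Icc 1 n, h i * (wt S i - h i) = 0) ∨
    (cls S 0).card = 0

/-- STAR3: consequence for zero-sum-free sets, one element `v` removed, index `-v`. -/
def Star3Stmt : Prop :=
  ∀ (n p : ℕ), p.Prime → p ≠ 2 → ∀ S : Finset (ZMod (2 * n + 2) × ZMod p), ZSF S →
    ∀ v ∈ S, ∀ h : ℕ → ℕ, (∀ i ∈ Icc 1 n, h i ≤ wt (S.erase v) i) →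
    ∀ e : ℕ, (e = 0 ∨ (e = 1 ∧ (cls (S.erase v) ((n + 1 : ℕ) : ZMod (2 * n + 2))).Nonempty)) →
    (∑ i ∈ Icc 1 n, (i : ZMod (2 * n + 2)) *
        ((h i : ZMod (2 * n + 2)) - (tt (S.erase v) i : ℕ))
      + (e : ZMod (2 * n + 2)) * ((n + 1 : ℕ) : ZMod (2 * n + 2))) = -v.1 →
    2 + (cls (S.erase v) 0).card * ((cls (S.erase v) 0).card + 1) / 2
      + (cls (S.erase v) ((n + 1 : ℕ) : ZMod (2 * n + 2))).card *
        ((cls (S.erase v) ((n + 1 : ℕ) : ZMod (2 * n + 2))).card - 1) / 2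
      + ∑ i ∈ Icc 1 n, h i * (wt (S.erase v) i - h i) ≤ p

/-- SPLIT: the classes exhaust `S`. -/
def SplitStmt : Prop :=
  ∀ (n p : ℕ) (S : Finset (ZMod (2 * n + 2) × ZMod p)),
    S.card = (cls S 0).card + (cls S ((n + 1 : ℕ) : ZMod (2 * n + 2))).card +
      ∑ i ∈ Icc 1 n, wt S i

/-- VECA: near-balanced vector when all classes occur. -/
def VecAStmt : Prop :=
  ∀ (n : ℕ), 1 ≤ n → ∀ w t : ℕ → ℕ, (∀ i ∈ Icc 1 n, 1 ≤ w i) →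
    ∃ (h : ℕ → ℕ) (e : ℕ), (e = 0 ∨ e = 1) ∧ (∀ i ∈ Icc 1 n, h i ≤ w i) ∧
      (∑ i ∈ Icc 1 n, (i : ZMod (2 * n + 2)) * ((h i : ZMod (2 * n + 2)) - (t i : ℕ))
        + (e : ZMod (2 * n + 2)) * ((n + 1 : ℕ) : ZMod (2 * n + 2))) = 0 ∧
      (∑ i ∈ Icc 1 n, ((w i : ℤ) - 2 * (h i : ℤ)) ^ 2 ≤ (n : ℤ) + 3) ∧
      ∀ i ∈ Icc 1 n, |(w i : ℤ) - 2 * (h i : ℤ)| ≤ 2

/-- VECB: near-balanced vector on the frequent classes `P`, arbitrary attainable index `j`. -/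
def VecBStmt : Prop :=
  ∀ (n : ℕ), 1 ≤ n → ∀ (P : Finset ℕ), P ⊆ Icc 1 n → ∀ w t g : ℕ → ℕ,
    (∀ i ∈ Icc 1 n, t i ≤ w i) → (∀ i ∈ P, 4 * (2 * n + 2) ≤ w i + 1) →
    ∀ j : ZMod (2 * n + 2),
    (∑ i ∈ P, (i : ZMod (2 * n + 2)) * ((g i : ZMod (2 * n + 2)) - (t i : ℕ))) = j →
    ∃ h : ℕ → ℕ, (∀ i ∈ Icc 1 n, h i ≤ w i) ∧
      (∑ i ∈ Icc 1 n, (i : ZMod (2 * n + 2)) * ((h i : ZMod (2 * n + 2)) - (t i : ℕ))) = j ∧
      ∑ i ∈ P, ((w i : ℤ) - 2 * (h i : ℤ)) ^ 2 ≤ 16 * ((2 * n + 2 : ℕ) : ℤ) ^ 2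

/-- NUMA: final inequality in case A. -/
def NumAStmt : Prop :=
  ∀ (n p a b : ℕ) (w h : ℕ → ℕ), 1 ≤ n → 1 ≤ b → (∀ i ∈ Icc 1 n, h i ≤ w i) →
    1 + a * (a + 1) / 2 + b * (b - 1) / 2 + ∑ i ∈ Icc 1 n, h i * (w i - h i) ≤ p →
    (∑ i ∈ Icc 1 n, ((w i : ℤ) - 2 * (h i : ℤ)) ^ 2 ≤ (n : ℤ) + 3) →
    4 * (a + b + ∑ i ∈ Icc 1 n, w i) ^ 2 + 2 * (2 * n + 2) ≤ 8 * ((2 * n + 2) * p) + (2 * n + 2) ^ 2

/-- MAIN: the bound for `m = cp`, `c = 2n+2 ≥ 4`, `p ≥ 100 c^3`. -/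
def MainStmt : Prop :=
  ∀ (n p : ℕ), 1 ≤ n → p.Prime → 100 * (2 * n + 2) ^ 3 ≤ p →
    ∀ S : Finset (ZMod (2 * n + 2) × ZMod p), ZSF S →
    4 * S.card ^ 2 + 2 * (2 * n + 2) ≤ 8 * ((2 * n + 2) * p) + (2 * n + 2) ^ 2

/-- CASEA: all classes occur. -/
def CaseAStmt : Prop :=
  ∀ (n p : ℕ), 1 ≤ n → p.Prime → 100 * (2 * n + 2) ^ 3 ≤ p →
    ∀ S : Finset (ZMod (2 * n + 2) × ZMod p), ZSF S → (cls S 0).Nonempty →
    (cls S ((n + 1 : ℕ) : ZMod (2 * n + 2))).Nonempty → (∀ i ∈ Icc 1 n, 1 ≤ wt S i) →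
    4 * S.card ^ 2 + 2 * (2 * n + 2) ≤ 8 * ((2 * n + 2) * p) + (2 * n + 2) ^ 2

/-- CASEB: some class does not occur. -/
def CaseBStmt : Prop :=
  ∀ (n p : ℕ), 1 ≤ n → p.Prime → 100 * (2 * n + 2) ^ 3 ≤ p →
    ∀ S : Finset (ZMod (2 * n + 2) × ZMod p), ZSF S →
    ¬ ((cls S 0).Nonempty ∧ (cls S ((n + 1 : ℕ) : ZMod (2 * n + 2))).Nonempty ∧
      (∀ i ∈ Icc 1 n, 1 ≤ wt S i)) →
    S.card ^ 2 ≤ 2 * ((2 * n + 2) * p)

/-! ### back to residues -/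

/-- CRT: transfer to `ZMod (c * p)`. -/
def CrtStmt : Prop :=
  ∀ (c p : ℕ), Nat.Coprime c p → ∀ S : Finset (ZMod (c * p)), ZSF S →
    ∃ S' : Finset (ZMod c × ZMod p), ZSF S' ∧ S'.card = S.card

/-- CONS: the sets `A_l`, `B_l`. -/
def ConsStmt : Prop :=
  ∀ m : ℕ, Even m → 6 ≤ m →
    smax m ≤ kmax m ∧ Nat.sqrt (2 * m - 3) ≤ smax m ∧
    ((∀ S : Finset (ZMod m), ZSF S → S.card ^ 2 + 3 ≤ 2 * m) →
      kmax m = smax m ∧ kmax m = Nat.sqrt (2 * m - 3))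

/-- KATT: `k(m)` is attained. -/
def KattStmt : Prop :=
  ∀ m : ℕ, m ≠ 0 → ∃ S : Finset (ZMod m), ZSF S ∧ S.card = kmax m

/-- the bound for `k(cp)`. -/
def BoundStmt : Prop :=
  ∀ c p : ℕ, Even c → 0 < c → p.Prime → 100 * c ^ 3 ≤ p →
    4 * kmax (c * p) ^ 2 + 2 * c ≤ 8 * (c * p) + c ^ 2

/-- SMALLC: `m = 4p, 6p, 8p`. -/
def SmallCStmt : Prop :=
  ∀ c p : ℕ, (c = 4 ∨ c = 6 ∨ c = 8) → p.Prime → 100 * c ^ 3 ≤ p →
    kmax (c * p) = smax (c * p)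

open Classical in
/-- MERT: primes between `K x^{3/4}` and `x/2`. -/
def MertStmt : Prop :=
  ∀ K : ℝ, 1 ≤ K → ∀ ε : ℝ, 0 < ε → ∃ X : ℕ, ∀ x : ℕ, X ≤ x →
    Real.log (4 / 3) - ε ≤
      ∑ p ∈ (Icc 1 (x / 2)).filter (fun p : ℕ => p.Prime ∧ K * (x : ℝ) ^ (3 / 4 : ℝ) ≤ (p : ℝ)),
        (1 / (p : ℝ))

open Classical in
/-- FEW: few `m ≤ x` have a square in `(2m-3, 2m + δ √x]`. -/
def FewStmt : Prop :=
  ∀ δ : ℝ, 0 < δ → ∃ X : ℕ, ∀ x : ℕ, X ≤ x →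
    (((Icc 1 x).filter (fun m : ℕ => ∃ q : ℕ, 2 * m < q ^ 2 + 3 ∧
      (q : ℝ) ^ 2 ≤ 2 * (m : ℝ) + δ * Real.sqrt x)).card : ℝ) ≤ 4 * δ * x

open Classical in
/-- DENS: density of the even moduli with `k(m) = s(m)`. -/
def DensStmt : Prop :=
  ∀ ε : ℝ, 0 < ε → ∃ X : ℕ, ∀ x : ℕ, X ≤ x →
    (Real.log (4 / 3) - ε) * ((x : ℝ) / 2) ≤
      (((Icc 1 x).filter (fun m : ℕ => Even m ∧ 6 ≤ m ∧ kmax m = smax m)).card : ℝ)

end Pool.Agent.Lib.MP_02fec8_nt
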