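import Mathlib
import Pool.Agent.Lib.MP_02fec8_nt.Defs

set_option autoImplicit false

namespace Pool.Agent.Lib.MP_02fec8_nt

open Finset

section

variable {p s : ℕ}

lemma tdeg_eq (t : Fin s → ℕ) : (Finsupp.equivFunOnFinite.symm t).degree = ∑ i, t i := by
  rw [Finsupp.degree_eq_sum]
  rfl

lemma core_coeff_mono (hp : p.Prime) (u t : Fin s → ℕ) (N : ℕ) (hN : N < p)
    (hdeg : N + ∑ i, u i = ∑ i, t i) :
    MvPolynomial.coeff (Finsupp.equivFunOnFinite.symm t)
      ((∏ i, (MvPolynomial.X i : MvPolynomial (Fin s) (ZMod p)) ^ u i) *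
        (∑ i, MvPolynomial.X i) ^ N) =
    ((N.factorial : ℕ) : ZMod p) *
      ∏ i, (if u i ≤ t i then (((t i - u i).factorial : ℕ) : ZMod p)⁻¹ else 0) := by
  haveI : Fact p.Prime := ⟨hp⟩
  have hmono : (∏ i, (MvPolynomial.X i : MvPolynomial (Fin s) (ZMod p)) ^ u i) =
      MvPolynomial.monomial (Finsupp.equivFunOnFinite.symm u) 1 := by
    rw [MvPolynomial.monomial_eq]
    rw [Finsupp.prod_fintype _ _ (by intro i; simp)]
    simp
  rw [hmono, MvPolynomial.coeff_monomial_mul']
  by_cases hut : ∀ i, u i ≤ t i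
  · have hle : Finsupp.equivFunOnFinite.symm u ≤ Finsupp.equivFunOnFinite.symm t := by
      intro i; exact hut i
    rw [if_pos hle, one_mul, MvPolynomial.coeff_sum_X_pow_of_fintype]
    have hsum : ∑ i, (t i - u i) = N := by
      have h1 : ∑ i, (t i - u i) + ∑ i, u i = ∑ i, t i := by
        rw [← Finset.sum_add_distrib]
        exact Finset.sum_congr rfl (fun i _ => Nat.sub_add_cancel (hut i))
      omega
    have hs2 : ((Finsupp.equivFunOnFinite.symm t - Finsupp.equivFunOnFinite.symm u).sum
        (fun _ m => m)) = N := by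
      rw [Finsupp.sum_fintype _ _ (by intro i; rfl), ← hsum]
      rfl
    rw [if_pos hs2]
    have hprod : ∏ i, (if u i ≤ t i then (((t i - u i).factorial : ℕ) : ZMod p)⁻¹ else 0) =
        (((∏ i, (t i - u i).factorial : ℕ)) : ZMod p)⁻¹ := by
      rw [Nat.cast_prod, ← Finset.prod_inv_distrib]
      exact Finset.prod_congr rfl (fun i _ => if_pos (hut i))
    rw [hprod]
    have hne : (((∏ i, (t i - u i).factorial : ℕ)) : ZMod p) ≠ 0 := by
      rw [Nat.cast_prod, Finset.prod_ne_zero_iff]
      intro i _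
      rw [Ne, ZMod.natCast_eq_zero_iff, hp.dvd_factorial, not_le]
      calc t i - u i ≤ ∑ i, (t i - u i) :=
            Finset.single_le_sum (f := fun i => t i - u i) (fun _ _ => Nat.zero_le _)
              (Finset.mem_univ i)
        _ = N := hsum
        _ < p := hN
    rw [eq_mul_inv_iff_mul_eq₀ hne, ← Nat.cast_mul]
    congr 1
    have hmn : (Finsupp.equivFunOnFinite.symm t - Finsupp.equivFunOnFinite.symm u).multinomial =
        Nat.multinomial Finset.univ (fun i => t i - u i) := by
      rw [Finsupp.multinomial_eq_of_support_subset (Finset.subset_univ _)]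
      rfl
    rw [hmn, mul_comm, Nat.multinomial_spec, hsum]
  · have hle : ¬ (Finsupp.equivFunOnFinite.symm u ≤ Finsupp.equivFunOnFinite.symm t) := by
      intro h; exact hut (fun i => h i)
    rw [if_neg hle]
    push Not at hut
    obtain ⟨i, hi⟩ := hut
    rw [Finset.prod_eq_zero (Finset.mem_univ i), mul_zero]
    rw [if_neg (not_le.2 hi)]

lemma core_coeff_vdm (hp : p.Prime) (b t : Fin s → ℕ) (N : ℕ) (hN : N < p)
    (hdeg : N + ∑ i, b i = ∑ i, t i) :
    MvPolynomial.coeff (Finsupp.equivFunOnFinite.symm t)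
      (vdm p b * (∑ i, MvPolynomial.X i) ^ N) =
    ((N.factorial : ℕ) : ZMod p) * (fac p b t).det := by
  classical
  unfold vdm
  rw [Matrix.det_apply', Matrix.det_apply', Finset.sum_mul, MvPolynomial.coeff_sum, Finset.mul_sum]
  apply Finset.sum_congr rfl
  intro σ _
  have h1 : ∏ i, (Matrix.of fun i j => (MvPolynomial.X i : MvPolynomial (Fin s) (ZMod p)) ^ (b j))
      (σ i) i = ∏ i, (MvPolynomial.X i : MvPolynomial (Fin s) (ZMod p)) ^ (b (σ⁻¹ i)) := by
    rw [← Equiv.prod_comp σ (fun i => (MvPolynomial.X i : MvPolynomial (Fin s) (ZMod p)) ^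
      (b (σ⁻¹ i)))]
    simp
  have h2 : ∏ i, fac p b t (σ i) i = ∏ i, (if b (σ⁻¹ i) ≤ t i then
      (((t i - b (σ⁻¹ i)).factorial : ℕ) : ZMod p)⁻¹ else 0) := by
    rw [← Equiv.prod_comp σ (fun i => (if b (σ⁻¹ i) ≤ t i then
      (((t i - b (σ⁻¹ i)).factorial : ℕ) : ZMod p)⁻¹ else 0))]
    simp [fac]
  have h3 : ∑ i, b (σ⁻¹ i) = ∑ i, b i := Equiv.sum_comp (σ⁻¹) b
  have h4 := core_coeff_mono hp (fun i => b (σ⁻¹ i)) t N hN (by rw [h3]; exact hdeg)
  rw [h1, h2]
  have h5 : ((Equiv.Perm.sign σ : ℤ) : MvPolynomial (Fin s) (ZMod p)) =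
      MvPolynomial.C (((Equiv.Perm.sign σ : ℤ) : ZMod p)) := by
    simp
  rw [h5, mul_assoc, MvPolynomial.coeff_C_mul, h4]
  ring

lemma core_vdm_deg (b : Fin s → ℕ) : (vdm p b).totalDegree ≤ ∑ i, b i := by
  classical
  unfold vdm
  rw [Matrix.det_apply']
  apply MvPolynomial.totalDegree_finsetSum_le
  intro σ _
  have h1 : ∏ i, (Matrix.of fun i j => (MvPolynomial.X i : MvPolynomial (Fin s) (ZMod p)) ^ (b j))
      (σ i) i = MvPolynomial.monomial (∑ i, Finsupp.single (σ i) (b i)) 1 := by
    rw [MvPolynomial.monomial_sum_one]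
    apply Finset.prod_congr rfl
    intro i _
    rw [Matrix.of_apply, MvPolynomial.X_pow_eq_monomial]
  rw [h1]
  have h5 : ((Equiv.Perm.sign σ : ℤ) : MvPolynomial (Fin s) (ZMod p)) =
      MvPolynomial.C (((Equiv.Perm.sign σ : ℤ) : ZMod p)) := by
    simp
  rw [h5, MvPolynomial.C_mul_monomial]
  refine (MvPolynomial.totalDegree_monomial_le _ _).trans (le_of_eq ?_)
  change (∑ i, Finsupp.single (σ i) (b i)).degree = _
  rw [map_sum]
  simp

lemma core_prod (E : Finset (ZMod p)) (t : Fin s →₀ ℕ) :
    ∀ g : MvPolynomial (Fin s) (ZMod p), g.totalDegree + E.card ≤ t.degree →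
    MvPolynomial.coeff t (g * ∏ e ∈ E, ((∑ i, MvPolynomial.X i) - MvPolynomial.C e)) =
    MvPolynomial.coeff t (g * (∑ i, MvPolynomial.X i) ^ E.card) := by
  classical
  induction E using Finset.induction_on with
  | empty => intro g _; simp
  | insert e E he ih =>
    intro g hg
    rw [Finset.card_insert_of_notMem he] at hg
    rw [Finset.prod_insert he, Finset.card_insert_of_notMem he, ← mul_assoc]
    have hL : (∑ i, MvPolynomial.X i : MvPolynomial (Fin s) (ZMod p)).totalDegree ≤ 1 := by
      apply MvPolynomial.totalDegree_finsetSum_le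
      intro i _
      rw [MvPolynomial.X]
      refine (MvPolynomial.totalDegree_monomial_le _ _).trans (le_of_eq ?_)
      simp
    have hLE : ((∑ i, MvPolynomial.X i : MvPolynomial (Fin s) (ZMod p)) ^ E.card).totalDegree
        ≤ E.card := by
      refine (MvPolynomial.totalDegree_pow _ _).trans ?_
      calc E.card * _ ≤ E.card * 1 := Nat.mul_le_mul_left _ hL
        _ = E.card := mul_one _
    have hgC : (g * MvPolynomial.C e).totalDegree ≤ g.totalDegree := by
      refine (MvPolynomial.totalDegree_mul _ _).trans ?_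
      rw [MvPolynomial.totalDegree_C, add_zero]
    rw [ih]
    · rw [mul_sub, sub_mul, MvPolynomial.coeff_sub]
      have h0 : MvPolynomial.coeff t (g * MvPolynomial.C e * (∑ i, MvPolynomial.X i) ^ E.card)
          = 0 := by
        apply MvPolynomial.coeff_eq_zero_of_totalDegree_lt
        have h1 := MvPolynomial.totalDegree_mul (g * MvPolynomial.C e)
          ((∑ i, MvPolynomial.X i : MvPolynomial (Fin s) (ZMod p)) ^ E.card)
        have h2 : t.degree = ∑ i ∈ t.support, t i := rfl
        omega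
      rw [h0, sub_zero]
      congr 1
      ring
    · have h1 := MvPolynomial.totalDegree_mul g
        ((∑ i, MvPolynomial.X i : MvPolynomial (Fin s) (ZMod p)) - MvPolynomial.C e)
      have h2 := MvPolynomial.totalDegree_sub
        (∑ i, MvPolynomial.X i : MvPolynomial (Fin s) (ZMod p)) (MvPolynomial.C e)
      rw [MvPolynomial.totalDegree_C] at h2
      have h3 : max (∑ i, MvPolynomial.X i : MvPolynomial (Fin s) (ZMod p)).totalDegree 0 ≤ 1 := by
        simpa using hL
      omega

end

theorem core : CoreStmt := by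
  classical
  intro p hp s C b t R N hN hdeg hR hdet ht E hE
  haveI : Fact p.Prime := ⟨hp⟩
  obtain ⟨E', hEE', hE'c⟩ : ∃ E' : Finset (ZMod p), E ⊆ E' ∧ E'.card = N := by
    apply Finset.exists_superset_card_eq hE
    rw [ZMod.card]
    exact hN.le
  set L : MvPolynomial (Fin s) (ZMod p) := ∑ i, MvPolynomial.X i with hL
  set T : Fin s →₀ ℕ := Finsupp.equivFunOnFinite.symm t with hT
  have hTdeg : T.degree = ∑ i, t i := tdeg_eq t
  have hL1 : L.totalDegree ≤ 1 := by
    apply MvPolynomial.totalDegree_finsetSum_le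
    intro i _
    rw [MvPolynomial.X]
    refine (MvPolynomial.totalDegree_monomial_le _ _).trans (le_of_eq ?_)
    simp
  have hLN : (L ^ N).totalDegree ≤ N := by
    refine (MvPolynomial.totalDegree_pow _ _).trans ?_
    calc N * _ ≤ N * 1 := Nat.mul_le_mul_left _ hL1
      _ = N := mul_one _
  have hRdeg : R.totalDegree ≤ ∑ i, b i := by
    rcases hR with h | h
    · rw [h]; exact core_vdm_deg b
    · have h1 : R = (R - vdm p b) + vdm p b := by ring
      rw [h1]
      refine (MvPolynomial.totalDegree_add _ _).trans (max_le h.le (core_vdm_deg b))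
  set f : MvPolynomial (Fin s) (ZMod p) := R * ∏ e ∈ E', (L - MvPolynomial.C e) with hf
  have hcoeff : MvPolynomial.coeff T f ≠ 0 := by
    rw [hf, core_prod E' T R (by omega), hE'c]
    have h1 : MvPolynomial.coeff T (R * L ^ N) = MvPolynomial.coeff T (vdm p b * L ^ N) := by
      rcases hR with h | h
      · rw [h]
      · have h2 : R * L ^ N = (R - vdm p b) * L ^ N + vdm p b * L ^ N := by ring
        rw [h2, MvPolynomial.coeff_add]
        have h3 : MvPolynomial.coeff T ((R - vdm p b) * L ^ N) = 0 := by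
          apply MvPolynomial.coeff_eq_zero_of_totalDegree_lt
          have h4 := MvPolynomial.totalDegree_mul (R - vdm p b) (L ^ N)
          have h5 : T.degree = ∑ i ∈ T.support, T i := rfl
          omega
        rw [h3, zero_add]
    rw [h1, core_coeff_vdm hp b t N hN hdeg]
    apply mul_ne_zero _ hdet
    rw [Ne, ZMod.natCast_eq_zero_iff, hp.dvd_factorial, not_le]
    exact hN
  have hprod : (∏ e ∈ E', (L - MvPolynomial.C e)).totalDegree ≤ N := by
    refine (MvPolynomial.totalDegree_finsetProd _ _).trans ?_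
    calc ∑ e ∈ E', (L - MvPolynomial.C e).totalDegree ≤ ∑ e ∈ E', 1 := by
          apply Finset.sum_le_sum
          intro e _
          refine (MvPolynomial.totalDegree_sub _ _).trans ?_
          rw [MvPolynomial.totalDegree_C]
          simpa using hL1
      _ = N := by simp [hE'c]
  have hfdeg : f.totalDegree = T.degree := by
    apply le_antisymm
    · have h1 := MvPolynomial.totalDegree_mul R (∏ e ∈ E', (L - MvPolynomial.C e))
      rw [hTdeg]
      calc f.totalDegree ≤ R.totalDegree + (∏ e ∈ E', (L - MvPolynomial.C e)).totalDegree := h1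
        _ ≤ ∑ i, b i + N := add_le_add hRdeg hprod
        _ = ∑ i, t i := by omega
    · have h1 := MvPolynomial.le_totalDegree (MvPolynomial.mem_support_iff.2 hcoeff)
      exact h1
  obtain ⟨x, hxC, hx⟩ := MvPolynomial.combinatorial_nullstellensatz_exists_eval_nonzero f T hcoeff
    hfdeg (fun _ => C) (fun i => ht i)
  refine ⟨x, hxC, ?_, ?_⟩
  · intro h
    apply hx
    rw [hf, map_mul, h, zero_mul]
  · intro h
    apply hx
    rw [hf, map_mul, map_prod, Finset.prod_eq_zero (hEE' h), mul_zero]
    simp [hL]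

end Pool.Agent.Lib.MP_02fec8_nt
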