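import Mathlib
import Pool.Agent.Lib.MP_02fec8_nt.Defs

set_option autoImplicit false

namespace Pool.Agent.Lib.MP_02fec8_nt

open Finset

lemma range_sub_sum (M : ℕ) : ∀ s : ℕ, s ≤ M + 1 →
    2 * ∑ i ∈ range s, (M - i) + s * (s - 1) = 2 * (s * M) := by
  intro s
  induction s with
  | zero => intro _; simp
  | succ s ih =>
    intro hs
    have h1 := ih (by omega)
    rw [Finset.sum_range_succ]
    obtain ⟨k, hk⟩ : ∃ k, M = s + k := ⟨M - s, by omega⟩
    subst hk
    rcases s with _ | s
    · simp
    · simp only [Nat.add_sub_cancel] at *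
      have h2 : s + 1 + k - (s + 1) = k := by omega
      rw [h2]
      nlinarith

/-- sum of the exponents `tvec`. -/
lemma tvec_sum (s M d : ℕ) (hs : 1 ≤ s) (hM : s - 1 + d ≤ M) :
    2 * ∑ i : Fin s, tvec s M d i + (s * (s - 1) + 2 * d) = 2 * (s * M) := by
  obtain ⟨r, rfl⟩ : ∃ r, s = r + 1 := ⟨s - 1, by omega⟩
  rw [Fin.sum_univ_castSucc]
  have h1 : ∑ i : Fin r, tvec (r + 1) M d i.castSucc = ∑ i ∈ range r, (M - i) := by
    rw [← Fin.sum_univ_eq_sum_range (fun i => M - i) r]
    apply Finset.sum_congr rfl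
    intro i _
    unfold tvec
    rw [if_neg]
    · simp
    · have := i.2
      simp only [Fin.val_castSucc]
      omega
  have h2 : tvec (r + 1) M d (Fin.last r) = M - (r + d) := by
    unfold tvec
    rw [if_pos (by simp)]
    simp
  rw [h1, h2]
  have h3 := range_sub_sum M r (by omega)
  simp only [Nat.add_sub_cancel] at *
  obtain ⟨k, hk⟩ : ∃ k, M = r + d + k := ⟨M - (r + d), by omega⟩
  subst hk
  have h4 : r + d + k - (r + d) = k := by omega
  rw [h4]
  rcases r with _ | r
  · simp at *
    ring
  · simp only [Nat.add_sub_cancel] at *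
    nlinarith

lemma tvec_lt (s M d C : ℕ) (hC : M < C) (i : Fin s) : tvec s M d i < C := by
  unfold tvec
  split_ifs
  · omega
  · omega

lemma zero_mem_sums {G : Type*} [AddCommGroup G] [DecidableEq G] (S : Finset G) :
    (0 : G) ∈ sums S := by
  unfold sums
  rw [Finset.mem_image]
  exact ⟨∅, by simp, by simp⟩

lemma sums_mono {G : Type*} [AddCommGroup G] [DecidableEq G] {S T : Finset G} (h : S ⊆ T) :
    sums S ⊆ sums T := by
  unfold sums
  apply Finset.image_subset_image
  exact Finset.powerset_mono.2 h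

lemma mem_sums {G : Type*} [AddCommGroup G] [DecidableEq G] (S : Finset G) (x : G) :
    x ∈ sums S ↔ ∃ T ⊆ S, ∑ y ∈ T, y = x := by
  unfold sums
  rw [Finset.mem_image]
  constructor
  · rintro ⟨T, hT, h⟩
    exact ⟨T, Finset.mem_powerset.1 hT, h⟩
  · rintro ⟨T, hT, h⟩
    exact ⟨T, Finset.mem_powerset.2 hT, h⟩

/-- evaluation of `vdm` for exponents `2j`. -/
lemma eval_vdm_two {p s : ℕ} (x : Fin s → ZMod p) :
    MvPolynomial.eval x (vdm p (fun j : Fin s => 2 * (j : ℕ))) =
      (Matrix.vandermonde (fun i => x i ^ 2)).det := by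
  unfold vdm
  rw [RingHom.map_det]
  congr 1
  ext i j
  simp [Matrix.vandermonde, pow_mul]

/-- signed representatives: the `x_i` lie in `A ∪ -A` and have distinct squares. -/
lemma signed_sum {p s : ℕ} [Fact p.Prime] (A : Finset (ZMod p)) (hs : A.card = s)
    (x : Fin s → ZMod p) (hx : ∀ i, x i ∈ A ∪ A.image (fun y => -y))
    (hinj : Function.Injective (fun i => x i ^ 2)) :
    ∃ a : Fin s → ZMod p, Function.Injective a ∧ Finset.univ.image a = A ∧
      (∀ i, x i = if x i ∈ A then a i else -a i) := by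
  classical
  refine ⟨fun i => if x i ∈ A then x i else -x i, ?_, ?_, ?_⟩
  · intro i j hij
    apply hinj
    have h1 : ∀ i, (if x i ∈ A then x i else -x i) ^ 2 = x i ^ 2 := by
      intro i
      split_ifs <;> ring
    simp only
    rw [← h1 i, ← h1 j]
    simp only at hij
    rw [hij]
  · apply Finset.eq_of_subset_of_card_le
    · intro y hy
      rw [Finset.mem_image] at hy
      obtain ⟨i, _, rfl⟩ := hy
      have := hx i
      rw [Finset.mem_union, Finset.mem_image] at this
      by_cases h : x i ∈ A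
      · simp only [h, if_true]
      · simp only [h, if_false]
        rcases this with h' | ⟨y, hy, hy'⟩
        · exact absurd h' h
        · rw [← hy', neg_neg]; exact hy
    · rw [hs, Finset.card_image_of_injective]
      · simp
      · intro i j hij
        apply hinj
        have h1 : ∀ i, (if x i ∈ A then x i else -x i) ^ 2 = x i ^ 2 := by
          intro i
          split_ifs <;> ring
        simp only
        rw [← h1 i, ← h1 j]
        simp only at hij
        rw [hij]
  · intro i
    by_cases h : x i ∈ A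
    · simp [h]
    · simp [h]

lemma signed_sum2 {p s : ℕ} [Fact p.Prime] (A : Finset (ZMod p))
    (x a : Fin s → ZMod p) (hinj : Function.Injective a) (ha : Finset.univ.image a = A)
    (hx : ∀ i, x i = if x i ∈ A then a i else -a i) :
    ∑ i, x i = ∑ y ∈ A, y - 2 * ∑ y ∈ (Finset.univ.filter (fun i => x i ∉ A)).image a, y := by
  classical
  rw [← ha, Finset.sum_image (fun i _ j _ h => hinj h), Finset.sum_image (fun i _ j _ h => hinj h)]
  rw [Finset.sum_filter, Finset.mul_sum, ← Finset.sum_sub_distrib]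
  apply Finset.sum_congr rfl
  intro i _
  rw [ha]
  rw [hx i]
  by_cases h : x i ∈ A
  · simp only [h, if_true, not_true, if_false]
    have h2 := hx i
    rw [if_pos h] at h2
    rw [← h2, if_neg (by simpa using h)]
    ring
  · have h2 := hx i
    rw [if_neg h] at h2
    simp only [h, if_false]
    rw [← h2, if_pos (by simpa using h), h2]
    ring

/-- `A`, `-A` disjoint: cardinality of `A ∪ -A`. -/
lemma card_union_neg {p : ℕ} (A : Finset (ZMod p))
    (hA : ∀ x ∈ A, ∀ y ∈ A, x + y ≠ 0) : (A ∪ A.image (fun y => -y)).card = 2 * A.card := by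
  rw [Finset.card_union_of_disjoint, Finset.card_image_of_injective _ neg_injective]
  · ring
  · rw [Finset.disjoint_left]
    intro x hx hx'
    rw [Finset.mem_image] at hx'
    obtain ⟨y, hy, rfl⟩ := hx'
    exact hA _ hx y hy (by ring)

lemma two_card_lt {p : ℕ} (hp : p.Prime) (A : Finset (ZMod p))
    (hA : ∀ x ∈ A, ∀ y ∈ A, x + y ≠ 0) : 2 * A.card < p := by
  haveI : Fact p.Prime := ⟨hp⟩
  rw [← card_union_neg A hA]
  have h1 : A ∪ A.image (fun y => -y) ⊆ (Finset.univ : Finset (ZMod p)).erase 0 := by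
    intro x hx
    rw [Finset.mem_erase]
    refine ⟨?_, Finset.mem_univ _⟩
    rintro rfl
    rw [Finset.mem_union, Finset.mem_image] at hx
    rcases hx with h | ⟨y, hy, hy'⟩
    · exact hA 0 h 0 h (by ring)
    · have : y = 0 := by simpa using hy'
      subst this
      exact hA 0 hy 0 hy (by ring)
  have h2 := Finset.card_le_card h1
  rw [Finset.card_erase_of_mem (Finset.mem_univ _), Finset.card_univ, ZMod.card] at h2
  have := hp.pos
  omega

lemma typeB_core (hcore : CoreStmt) (hnv : NVBStmt) (p : ℕ) (hp : p.Prime)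
    (A : Finset (ZMod p)) (hA : ∀ x ∈ A, ∀ y ∈ A, x + y ≠ 0) (d N : ℕ)
    (hA1 : 1 ≤ A.card) (hd : d < A.card) (hN : 2 * (N + d) = A.card * (A.card + 1))
    (hNp : N < p) : N + 1 ≤ (sums A).card := by
  classical
  haveI : Fact p.Prime := ⟨hp⟩
  by_contra hcon
  push Not at hcon
  set s := A.card with hs
  have h2s := two_card_lt hp A hA
  rw [← hs] at h2s
  set σ := ∑ y ∈ A, y with hσ
  obtain ⟨x, hxC, hxR, hxE⟩ := hcore p hp s (A ∪ A.image (fun y => -y))
    (fun j => 2 * (j : ℕ)) (tvec s (2 * s - 1) d) (vdm p (fun j => 2 * (j : ℕ))) N hNp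
    (by
      have h1 := tvec_sum s (2 * s - 1) d hA1 (by omega)
      have h2 : ∑ i : Fin s, 2 * (i : ℕ) = s * (s - 1) := by
        rw [← Finset.mul_sum, Fin.sum_univ_eq_sum_range (fun i => i) s, mul_comm,
          Finset.sum_range_id_mul_two]
      rw [h2]
      obtain ⟨r, hr⟩ : ∃ r, s = r + 1 := ⟨s - 1, by omega⟩
      rw [hr] at h1 hN ⊢
      have h3 : 2 * (r + 1) - 1 = 2 * r + 1 := by omega
      rw [h3] at h1 ⊢
      simp only [Nat.add_sub_cancel] at h1 ⊢
      nlinarith)
    (Or.inl rfl) (hnv p hp s d hA1 hd h2s)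
    (fun i => tvec_lt s (2 * s - 1) d _ (by rw [card_union_neg A hA]; omega) i)
    ((sums A).image (fun y => σ - 2 * y))
    (Finset.card_image_le.trans (by omega))
  rw [eval_vdm_two, Matrix.det_vandermonde_ne_zero_iff] at hxR
  obtain ⟨a, hinj, ha, hx⟩ := signed_sum A hs.symm x hxC hxR
  apply hxE
  rw [Finset.mem_image]
  refine ⟨∑ y ∈ (Finset.univ.filter (fun i => x i ∉ A)).image a, y, ?_, ?_⟩
  · rw [mem_sums]
    refine ⟨_, ?_, rfl⟩
    rw [← ha]
    exact Finset.image_subset_image (Finset.filter_subset _ _)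
  · exact (signed_sum2 A x a hinj ha hx).symm

theorem typeB (hcore : CoreStmt) (hnv : NVBStmt) : TypeBStmt := by
  classical
  intro p hp hp2 A hA
  haveI : Fact p.Prime := ⟨hp⟩
  rcases Nat.eq_zero_or_pos A.card with h0 | h1
  · rw [h0]
    refine (min_le_right _ _).trans ?_
    simp only [zero_mul, Nat.zero_div, add_zero]
    exact Finset.card_pos.2 ⟨0, zero_mem_sums A⟩
  · have hev : 2 * (A.card * (A.card + 1) / 2) = A.card * (A.card + 1) :=
      Nat.mul_div_cancel' (Nat.even_mul_succ_self _).two_dvd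
    by_cases hlt : A.card * (A.card + 1) / 2 < p
    · refine (min_le_right _ _).trans ?_
      have := typeB_core hcore hnv p hp A hA 0 (A.card * (A.card + 1) / 2) h1 h1
        (by rw [add_zero]; exact hev) hlt
      omega
    · push Not at hlt
      refine (min_le_left _ _).trans ?_
      have hex : ∃ s, 2 * (p - 1) ≤ s * (s + 1) := ⟨A.card, by omega⟩
      set s := Nat.find hex with hs
      have hs1 : 2 * (p - 1) ≤ s * (s + 1) := Nat.find_spec hex
      have hsA : s ≤ A.card := Nat.find_min' hex (by omega)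
      have hp3 : 2 ≤ p := hp.two_le
      have hs0 : 1 ≤ s := by
        by_contra h
        have : s = 0 := by omega
        rw [this] at hs1
        omega
      have hs2 : (s - 1) * s < 2 * (p - 1) := by
        have := Nat.find_min hex (m := s - 1) (by omega)
        push Not at this
        have h4 : s - 1 + 1 = s := by omega
        rw [h4] at this
        exact this
      obtain ⟨A', hA'A, hA'c⟩ := Finset.exists_subset_card_eq hsA
      have hev2 : 2 * (s * (s + 1) / 2) = s * (s + 1) :=
        Nat.mul_div_cancel' (Nat.even_mul_succ_self _).two_dvd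
      have h5 : s * (s + 1) = (s - 1) * s + 2 * s := by
        obtain ⟨r, hr⟩ : ∃ r, s = r + 1 := ⟨s - 1, by omega⟩
        rw [hr]; simp only [Nat.add_sub_cancel]; ring
      have := typeB_core hcore hnv p hp A' (fun x hx y hy => hA x (hA'A hx) y (hA'A hy))
        (s * (s + 1) / 2 - (p - 1)) (p - 1) (by omega) (by rw [hA'c]; omega)
        (by rw [hA'c]; omega) (by omega)
      have h6 := Finset.card_le_card (sums_mono hA'A)
      omega

end Pool.Agent.Lib.MP_02fec8_nt
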