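import Mathlib
import Pool.Agent.Lib.MP_02fec8_nt.Defs
import Pool.Agent.Lib.MP_02fec8_nt.TypeB

set_option autoImplicit false

namespace Pool.Agent.Lib.MP_02fec8_nt

open Finset

lemma ddsh_core (hcore : CoreStmt) (hnv : NVHStmt) (p : ℕ) (hp : p.Prime)
    (W : Finset (ZMod p)) (h d N : ℕ) (h1 : 1 ≤ h) (hw : h ≤ W.card) (hd : d ≤ W.card - h)
    (hN : N + d = h * (W.card - h)) (hNp : N < p) : N + 1 ≤ (sumsCard h W).card := by
  classical
  haveI : Fact p.Prime := ⟨hp⟩
  by_contra hcon
  push Not at hcon
  have hwp : W.card ≤ p := by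
    have := Finset.card_le_univ W
    rwa [ZMod.card] at this
  obtain ⟨x, hxC, hxR, hxE⟩ := hcore p hp h W (fun j => (j : ℕ)) (tvec h (W.card - 1) d)
    (vdm p (fun j => (j : ℕ))) N hNp
    (by
      have h2 := tvec_sum h (W.card - 1) d h1 (by omega)
      have h3 : ∑ i : Fin h, (i : ℕ) = ∑ i ∈ range h, i := Fin.sum_univ_eq_sum_range (fun i => i) h
      have h4 := Finset.sum_range_id_mul_two h
      rw [h3]
      obtain ⟨y, hy⟩ : ∃ y, W.card = h + y := ⟨W.card - h, by omega⟩
      rw [hy] at h2 hN ⊢
      have h5 : h + y - h = y := by omega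
      rw [h5] at hN
      obtain ⟨r, rfl⟩ : ∃ r, h = r + 1 := ⟨h - 1, by omega⟩
      have h6 : r + 1 + y - 1 = r + y := by omega
      rw [h6] at h2 ⊢
      simp only [Nat.add_sub_cancel] at h2 h4
      nlinarith)
    (Or.inl rfl) (hnv p hp h W.card d h1 hw hd hwp)
    (fun i => tvec_lt h (W.card - 1) d _ (by omega) i)
    (sumsCard h W) (by omega)
  have hev : MvPolynomial.eval x (vdm p (fun j : Fin h => (j : ℕ))) =
      (Matrix.vandermonde x).det := by
    unfold vdm
    rw [RingHom.map_det]
    congr 1
    ext i j
    simp [Matrix.vandermonde]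
  rw [hev, Matrix.det_vandermonde_ne_zero_iff] at hxR
  apply hxE
  unfold sumsCard
  rw [Finset.mem_image]
  refine ⟨Finset.univ.image x, ?_, ?_⟩
  · rw [Finset.mem_powersetCard]
    refine ⟨?_, ?_⟩
    · intro y hy
      rw [Finset.mem_image] at hy
      obtain ⟨i, _, rfl⟩ := hy
      exact hxC i
    · rw [Finset.card_image_of_injective _ hxR]
      simp
  · rw [Finset.sum_image (fun i _ j _ h => hxR h)]

theorem ddsh (hcore : CoreStmt) (hnv : NVHStmt) : DdshStmt := by
  classical
  intro p hp W h hw
  haveI : Fact p.Prime := ⟨hp⟩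
  have hne : 1 ≤ (sumsCard h W).card := by
    apply Finset.card_pos.2
    unfold sumsCard
    apply Finset.Nonempty.image
    exact Finset.powersetCard_nonempty.2 hw
  rcases Nat.eq_zero_or_pos h with h0 | h1
  · rw [h0, zero_mul, add_zero]
    rw [h0] at hne
    exact (min_le_right _ _).trans hne
  · by_cases hlt : h * (W.card - h) < p
    · refine (min_le_right _ _).trans ?_
      have := ddsh_core hcore hnv p hp W h 0 (h * (W.card - h)) h1 hw (Nat.zero_le _) (by omega) hlt
      omega
    · push Not at hlt
      refine (min_le_left _ _).trans ?_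
      set y := W.card - h with hy
      have hp2 := hp.two_le
      have hex : ∃ s, p - 1 ≤ s * y := ⟨h, by omega⟩
      set s := Nat.find hex with hs
      have hs1 : p - 1 ≤ s * y := Nat.find_spec hex
      have hsh : s ≤ h := Nat.find_min' hex (by omega)
      have hs0 : 1 ≤ s := by
        by_contra hc
        have : s = 0 := by omega
        rw [this, zero_mul] at hs1
        omega
      have hs2 : (s - 1) * y < p - 1 := by
        have := Nat.find_min hex (m := s - 1) (by omega)
        push Not at this
        exact this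
      have hs3 : s * y = (s - 1) * y + y := by
        obtain ⟨r, hr⟩ : ∃ r, s = r + 1 := ⟨s - 1, by omega⟩
        rw [hr]; simp only [Nat.add_sub_cancel]; ring
      obtain ⟨W', hW'W, hW'c⟩ := Finset.exists_subset_card_eq (show s + y ≤ W.card by omega)
      have h3 := ddsh_core hcore hnv p hp W' s (s * y - (p - 1)) (p - 1) hs0 (by omega)
        (by rw [hW'c]; omega)
        (by
          rw [hW'c]
          have : s + y - s = y := by omega
          rw [this]; omega) (by omega)
      have h4 : (sumsCard s W').card ≤ (sumsCard h W).card := by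
        rw [← Finset.card_image_of_injective (sumsCard s W')
          (add_left_injective (∑ z ∈ W \ W', z))]
        apply Finset.card_le_card
        intro x hx
        rw [Finset.mem_image] at hx
        obtain ⟨z, hz, rfl⟩ := hx
        unfold sumsCard at hz ⊢
        rw [Finset.mem_image] at hz ⊢
        obtain ⟨T, hT, rfl⟩ := hz
        rw [Finset.mem_powersetCard] at hT
        have hd : Disjoint T (W \ W') :=
          Finset.disjoint_of_subset_left hT.1 Finset.disjoint_sdiff
        refine ⟨T ∪ (W \ W'), ?_, ?_⟩
        · rw [Finset.mem_powersetCard]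
          refine ⟨Finset.union_subset (hT.1.trans hW'W) Finset.sdiff_subset, ?_⟩
          rw [Finset.card_union_of_disjoint hd, Finset.card_sdiff_of_subset hW'W, hT.2, hW'c]
          omega
        · rw [Finset.sum_union hd]
      omega

end Pool.Agent.Lib.MP_02fec8_nt
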