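import Pool.Agent.Lib.MP_02fec8_nt.Defs

/-!
# DENS: the density of the even moduli with `k(m) = s(m)` (Paper 10)
-/

set_option autoImplicit false

namespace Pool.Agent.Lib.MP_02fec8_nt

open Finset

/-- a modulus `c p` of the family is good or close to half a square -/
lemma dens_good (hBd : BoundStmt) (hCons : ConsStmt) {c p : ℕ} (hc : Even c) (hc0 : 0 < c)
    (hp : p.Prime) (hbig : 100 * c ^ 3 ≤ p) (hm6 : 6 ≤ c * p) (t : ℝ) (ht : (c : ℝ) ^ 2 ≤ 4 * t) :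
    kmax (c * p) = smax (c * p) ∨ ∃ q : ℕ, 2 * (c * p) < q ^ 2 + 3 ∧
      (q : ℝ) ^ 2 ≤ 2 * ((c * p : ℕ) : ℝ) + t := by
  by_cases h : 2 * (c * p) < kmax (c * p) ^ 2 + 3
  · right
    refine ⟨kmax (c * p), h, ?_⟩
    have h1 := hBd c p hc hc0 hp hbig
    have h2 : 4 * (kmax (c * p) : ℝ) ^ 2 + 2 * c ≤ 8 * ((c * p : ℕ) : ℝ) + (c : ℝ) ^ 2 := by
      exact_mod_cast h1
    have h3 : (0 : ℝ) ≤ c := Nat.cast_nonneg c
    linarith
  · left
    push Not at h
    refine ((hCons (c * p) (hc.mul_right p) hm6).2.2 fun S hS => ?_).1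
    have hm0 : c * p ≠ 0 := by omega
    have hle : S.card ≤ kmax (c * p) := by
      have : NeZero (c * p) := ⟨hm0⟩
      refine le_csSup ⟨c * p, ?_⟩ ⟨S, hS, rfl⟩
      rintro n ⟨S, -, rfl⟩
      have := Finset.card_le_univ S
      rwa [ZMod.card] at this
    have := Nat.pow_le_pow_left hle 2
    omega

open Classical in
/-- **DENS** -/
theorem dens (hMert : MertStmt) (hFew : FewStmt) (hBd : BoundStmt) (hCons : ConsStmt) :
    DensStmt := by
  intro ε hε
  obtain ⟨K, hK⟩ : ∃ K : ℝ, K = 4 + 16 / ε := ⟨_, rfl⟩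
  have h16 : 0 < 16 / ε := by positivity
  have hK4 : 4 ≤ K := by linarith
  have hK0 : 0 < K := by linarith
  have hKε : 16 ≤ ε * K ^ 2 := by
    have h1 : 16 ≤ ε * K := by
      have : 16 / ε ≤ K := by linarith
      rw [div_le_iff₀ hε] at this
      linarith
    nlinarith
  obtain ⟨δ, hδ⟩ : ∃ δ : ℝ, δ = 1 / (4 * K ^ 2) := ⟨_, rfl⟩
  have hδ0 : 0 < δ := by rw [hδ]; positivity
  have hδε : 4 * δ ≤ ε / 16 := by
    have : 4 * δ = 1 / K ^ 2 := by rw [hδ]; field_simp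
    rw [this, div_le_div_iff₀ (by positivity) (by norm_num)]
    linarith
  obtain ⟨X₁, hX₁⟩ := hMert K (by linarith) (ε / 4) (by positivity)
  obtain ⟨X₂, hX₂⟩ := hFew δ hδ0
  have hlogx : Filter.Tendsto (fun x : ℕ => Real.log (x : ℝ)) Filter.atTop Filter.atTop :=
    Real.tendsto_log_atTop.comp tendsto_natCast_atTop_atTop
  obtain ⟨X₃, hX₃⟩ := Filter.eventually_atTop.mp
    (hlogx.eventually (Filter.eventually_ge_atTop (Real.log 4 * (64 / (3 * ε)))))
  refine ⟨max (max X₁ X₂) (max X₃ 2), fun x hx => ?_⟩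
  have hx1 : X₁ ≤ x := ((le_max_left _ _).trans (le_max_left _ _)).trans hx
  have hx2 : X₂ ≤ x := ((le_max_right _ _).trans (le_max_left _ _)).trans hx
  have hx3 : X₃ ≤ x := ((le_max_left _ _).trans (le_max_right _ _)).trans hx
  have hx4 : 2 ≤ x := ((le_max_right _ _).trans (le_max_right _ _)).trans hx
  have hM := hX₁ x hx1
  have hF := hX₂ x hx2
  have hL := hX₃ x hx3
  have hxr : (2 : ℝ) ≤ x := by exact_mod_cast hx4
  have hx0 : (0 : ℝ) < x := by linarith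
  obtain ⟨r, hr⟩ : ∃ r : ℝ, r = (x : ℝ) ^ (1 / 4 : ℝ) := ⟨_, rfl⟩
  have hr0 : 0 < r := by rw [hr]; positivity
  have hr4 : r ^ 4 = x := by
    rw [hr, ← Real.rpow_natCast, ← Real.rpow_mul hx0.le]; norm_num
  have hr3 : (x : ℝ) ^ (3 / 4 : ℝ) = r ^ 3 := by
    rw [hr, ← Real.rpow_natCast, ← Real.rpow_mul hx0.le]; norm_num
  have hr2 : Real.sqrt (x : ℝ) = r ^ 2 := by
    rw [← hr4, show r ^ 4 = (r ^ 2) ^ 2 by ring, Real.sqrt_sq (by positivity)]
  have hr1 : 1 < r := by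
    rw [hr]; exact Real.one_lt_rpow (by linarith) (by norm_num)
  rw [hr3] at hM
  rw [hr2] at hF
  set P := (Icc 1 (x / 2)).filter (fun p : ℕ => p.Prime ∧ K * r ^ 3 ≤ (p : ℝ)) with hP
  set F := (Icc 1 x).filter (fun m : ℕ => ∃ q : ℕ, 2 * m < q ^ 2 + 3 ∧
      (q : ℝ) ^ 2 ≤ 2 * (m : ℝ) + δ * r ^ 2) with hFdef
  set G := (Icc 1 x).filter (fun m : ℕ => Even m ∧ 6 ≤ m ∧ kmax m = smax m) with hG
  have hPp : ∀ p ∈ P, p.Prime ∧ K * r ^ 3 ≤ (p : ℝ) ∧ p ≤ x := by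
    intro p hp
    rw [hP, mem_filter, mem_Icc] at hp
    exact ⟨hp.2.1, hp.2.2, by omega⟩
  -- few primes
  have hPcard : (P.card : ℝ) ≤ ε / 16 * x := by
    have h1 : Chebyshev.theta x ≤ Real.log 4 * x :=
      Chebyshev.theta_le_log4_mul_x (Nat.cast_nonneg x)
    rw [Chebyshev.theta_eq_sum_primesLE_log] at h1
    have h2 : ∑ p ∈ P, Real.log p ≤ ∑ p ∈ Nat.primesLE x, Real.log p := by
      apply Finset.sum_le_sum_of_subset_of_nonneg
      · intro p hp
        rw [Nat.mem_primesLE]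
        exact ⟨(hPp p hp).2.2, (hPp p hp).1⟩
      · intro p hp _
        rw [Nat.mem_primesLE] at hp
        exact Real.log_nonneg (by exact_mod_cast hp.2.one_lt.le)
    have h3 : ∀ p ∈ P, 3 / 4 * Real.log (x : ℝ) ≤ Real.log p := by
      intro p hp
      have h4 : r ^ 3 ≤ p := by
        have := (hPp p hp).2.1
        have h5 : 0 < r ^ 3 := by positivity
        nlinarith
      have h5 := Real.log_le_log (by positivity) h4
      rw [← hr3, Real.log_rpow hx0] at h5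
      exact h5
    have h4 : (P.card : ℝ) * (3 / 4 * Real.log (x : ℝ)) ≤ ∑ p ∈ P, Real.log p := by
      rw [← nsmul_eq_mul]
      exact Finset.card_nsmul_le_sum _ _ _ h3
    have h5 : (P.card : ℝ) * (3 / 4 * Real.log (x : ℝ)) ≤ Real.log 4 * x := by linarith
    have hlog4 : 0 < Real.log 4 := Real.log_pos (by norm_num)
    have h6 : Real.log 4 ≤ ε / 16 * (3 / 4 * Real.log (x : ℝ)) := by
      have h7 := mul_le_mul_of_nonneg_left hL (show 0 ≤ 3 * ε / 64 by positivity)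
      have h8 : 3 * ε / 64 * (Real.log 4 * (64 / (3 * ε))) = Real.log 4 := by field_simp
      linarith
    have h7 : (P.card : ℝ) * (3 / 4 * Real.log (x : ℝ)) ≤
        (ε / 16 * x) * (3 / 4 * Real.log (x : ℝ)) := by
      calc _ ≤ Real.log 4 * x := h5
        _ ≤ ε / 16 * (3 / 4 * Real.log (x : ℝ)) * x := mul_le_mul_of_nonneg_right h6 hx0.le
        _ = _ := by ring
    have hlogpos : 0 < 3 / 4 * Real.log (x : ℝ) := by
      have := Real.log_pos (show (1 : ℝ) < x by linarith)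
      positivity
    exact le_of_mul_le_mul_right h7 hlogpos
  -- the pairs
  set W : Finset (Σ _ : ℕ, ℕ) := P.sigma (fun p => Icc 1 (x / (2 * p))) with hW
  have hWcard : W.card = ∑ p ∈ P, x / (2 * p) := by
    rw [hW, Finset.card_sigma]
    apply Finset.sum_congr rfl
    intro p _
    rw [Nat.card_Icc, Nat.add_sub_cancel]
  have hmem : ∀ a ∈ W, a.1.Prime ∧ K * r ^ 3 ≤ (a.1 : ℝ) ∧ 1 ≤ a.2 ∧ 2 * a.2 * a.1 ≤ x := by
    intro a ha
    rw [hW, mem_sigma, mem_Icc] at ha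
    obtain ⟨h1, h2, -⟩ := hPp a.1 ha.1
    refine ⟨h1, h2, ha.2.1, ?_⟩
    have h3 := (Nat.le_div_iff_mul_le (by have := h1.pos; omega)).mp ha.2.2
    calc 2 * a.2 * a.1 = a.2 * (2 * a.1) := by ring
      _ ≤ x := h3
  have hinj : Set.InjOn (fun a : (Σ _ : ℕ, ℕ) => 2 * a.2 * a.1) (W : Set (Σ _ : ℕ, ℕ)) := by
    rintro ⟨p, j⟩ ha ⟨p', j'⟩ hb hab
    obtain ⟨h1, h2, h3, h4⟩ := hmem _ ha
    obtain ⟨h1', h2', h3', h4'⟩ := hmem _ hb
    simp only at hab h1 h2 h3 h4 h1' h2' h3' h4'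
    have hpp : p = p' := by
      by_contra hne
      have hcop : Nat.Coprime p p' := (Nat.coprime_primes h1 h1').mpr hne
      have hd : p * p' ∣ 2 * j * p := hcop.mul_dvd_of_dvd_of_dvd (Dvd.intro_left _ rfl)
        (by rw [hab]; exact Dvd.intro_left _ rfl)
      have hle : p * p' ≤ x := (Nat.le_of_dvd (by have := h1.pos; positivity) hd).trans h4
      have hle' : (p : ℝ) * p' ≤ r ^ 4 := by rw [hr4]; exact_mod_cast hle
      have h5 : r ^ 3 ≤ p := by
        have h5 : 0 < r ^ 3 := by positivity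
        nlinarith
      have h6 : r ^ 3 ≤ p' := by
        have h5 : 0 < r ^ 3 := by positivity
        nlinarith
      have h7 : r ^ 3 * r ^ 3 ≤ (p : ℝ) * p' := mul_le_mul h5 h6 (by positivity) (by positivity)
      have h8 : r ^ 4 * 1 < r ^ 4 * r ^ 2 :=
        mul_lt_mul_of_pos_left (by nlinarith) (by positivity)
      nlinarith
    subst hpp
    have h5 : 2 * j = 2 * j' := Nat.eq_of_mul_eq_mul_right h1.pos hab
    have h6 : j = j' := by omega
    rw [h6]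
  have hsub : W.image (fun a : (Σ _ : ℕ, ℕ) => 2 * a.2 * a.1) ⊆ G ∪ F := by
    intro m hm
    rw [mem_image] at hm
    obtain ⟨⟨p, j⟩, ha, rfl⟩ := hm
    obtain ⟨h1, h2, h3, h4⟩ := hmem _ ha
    simp only at h1 h2 h3 h4 ⊢
    obtain ⟨c, hc⟩ : ∃ c, c = 2 * j := ⟨_, rfl⟩
    rw [← hc] at h4 ⊢
    have hcev : Even c := by rw [hc]; exact even_two_mul j
    have hc0 : 0 < c := by omega
    have hcpx : (c : ℝ) * p ≤ r ^ 4 := by rw [hr4]; exact_mod_cast h4
    have hcr0 : (0 : ℝ) < c := by exact_mod_cast hc0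
    have hcK : (c : ℝ) * K ≤ r := by
      have h5 : (c : ℝ) * (K * r ^ 3) ≤ r ^ 4 := (mul_le_mul_of_nonneg_left h2 hcr0.le).trans hcpx
      have h6 : (c : ℝ) * K * r ^ 3 ≤ r * r ^ 3 := by
        calc (c : ℝ) * K * r ^ 3 = c * (K * r ^ 3) := by ring
          _ ≤ r ^ 4 := h5
          _ = _ := by ring
      exact le_of_mul_le_mul_right h6 (by positivity)
    have h100 : 100 * c ^ 3 ≤ p := by
      have h5 : ((c : ℝ) * K) ^ 3 ≤ r ^ 3 := pow_le_pow_left₀ (by positivity) hcK 3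
      have h6 : (100 : ℝ) ≤ K ^ 4 := by
        have : (4 : ℝ) ^ 4 ≤ K ^ 4 := pow_le_pow_left₀ (by norm_num) hK4 4
        linarith
      have h7 : (100 : ℝ) * c ^ 3 ≤ p := by
        calc (100 : ℝ) * c ^ 3 ≤ K ^ 4 * c ^ 3 := mul_le_mul_of_nonneg_right h6 (by positivity)
          _ = K * ((c : ℝ) * K) ^ 3 := by ring
          _ ≤ K * r ^ 3 := mul_le_mul_of_nonneg_left h5 hK0.le
          _ ≤ p := h2
      exact_mod_cast h7
    have hm6 : 6 ≤ c * p := by
      have h5 : 100 ≤ p := by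
        have : 1 ≤ c ^ 3 := Nat.one_le_pow _ _ hc0
        omega
      nlinarith
    have ht : (c : ℝ) ^ 2 ≤ 4 * (δ * r ^ 2) := by
      have h5 : ((c : ℝ) * K) ^ 2 ≤ r ^ 2 := pow_le_pow_left₀ (by positivity) hcK 2
      have h6 : 4 * (δ * r ^ 2) = r ^ 2 / K ^ 2 := by rw [hδ]; field_simp
      rw [h6, le_div_iff₀ (by positivity)]
      linarith [mul_pow (c : ℝ) K 2]
    have hmIcc : c * p ∈ Icc 1 x := by rw [mem_Icc]; omega
    rw [mem_union]
    rcases dens_good hBd hCons hcev hc0 h1 h100 hm6 _ ht with h5 | ⟨q, h5, h6⟩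
    · left
      rw [hG, mem_filter]
      exact ⟨hmIcc, hcev.mul_right p, hm6, h5⟩
    · right
      rw [hFdef, mem_filter]
      exact ⟨hmIcc, q, h5, h6⟩
  have hcount : W.card ≤ G.card + F.card := by
    rw [← Finset.card_image_of_injOn hinj]
    exact (card_le_card hsub).trans (card_union_le _ _)
  have hcount' : ((∑ p ∈ P, x / (2 * p) : ℕ) : ℝ) ≤ (G.card : ℝ) + F.card := by
    rw [← hWcard]; exact_mod_cast hcount
  have hlow : (x : ℝ) / 2 * ∑ p ∈ P, (1 / (p : ℝ)) - P.card ≤ ((∑ p ∈ P, x / (2 * p) : ℕ) : ℝ) := by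
    push_cast
    rw [Finset.mul_sum, Finset.card_eq_sum_ones, Nat.cast_sum, ← Finset.sum_sub_distrib]
    apply Finset.sum_le_sum
    intro p hp
    have hp0 : (0 : ℝ) < p := by exact_mod_cast (hPp p hp).1.pos
    have h5 := Nat.lt_floor_add_one ((x : ℝ) / ((2 * p : ℕ) : ℝ))
    rw [Nat.floor_div_eq_div] at h5
    have h6 : (x : ℝ) / 2 * (1 / (p : ℝ)) = (x : ℝ) / ((2 * p : ℕ) : ℝ) := by
      push_cast; field_simp
    rw [h6]
    push_cast at h5 ⊢
    linarith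
  have hfin : (x : ℝ) / 2 * (Real.log (4 / 3) - ε / 4) ≤ (x : ℝ) / 2 * ∑ p ∈ P, (1 / (p : ℝ)) :=
    mul_le_mul_of_nonneg_left hM (by linarith)
  have hF' : (F.card : ℝ) ≤ ε / 16 * x := hF.trans (mul_le_mul_of_nonneg_right hδε hx0.le)
  have hεx : 0 ≤ ε * x := by positivity
  linarith

end Pool.Agent.Lib.MP_02fec8_nt
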