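import Pool.Agent.Lib.MP_02fec8_nt.Defs

/-!
# FEW: few moduli close to half a square (Paper 10)
-/

set_option autoImplicit false

namespace Pool.Agent.Lib.MP_02fec8_nt

open Finset

open Classical in
/-- **FEW** -/
theorem few : FewStmt := by
  intro δ hδ
  -- eventually `√x ≥ δ`, `√x ≥ 4/δ`, `√x ≥ 4`
  have hs : Filter.Tendsto (fun x : ℕ => Real.sqrt (x : ℝ)) Filter.atTop Filter.atTop :=
    Real.tendsto_sqrt_atTop.comp tendsto_natCast_atTop_atTop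
  obtain ⟨X, hX⟩ := Filter.eventually_atTop.mp
    (hs.eventually (Filter.eventually_ge_atTop (δ + 4 / δ + 4)))
  refine ⟨X, fun x hx => ?_⟩
  have hsx := hX x hx
  obtain ⟨s, hs⟩ : ∃ s, s = Real.sqrt (x : ℝ) := ⟨_, rfl⟩
  rw [← hs] at hsx ⊢
  have h4δ : 0 < 4 / δ := by positivity
  have hs1 : δ ≤ s := by linarith
  have hs2 : 4 / δ ≤ s := by linarith
  have hs3 : 4 ≤ s := by linarith
  have hs2' : 4 ≤ δ * s := by rw [div_le_iff₀ hδ] at hs2; linarith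
  have hss : s ^ 2 = x := by rw [hs]; exact Real.sq_sqrt (Nat.cast_nonneg x)
  -- the interval for one `q`
  obtain ⟨D, hD⟩ : ∃ D : ℕ, D = ⌊δ * s / 2 + 1⌋₊ := ⟨_, rfl⟩
  have hDle : (D : ℝ) ≤ δ * s / 2 + 1 := by
    rw [hD]; exact Nat.floor_le (by positivity)
  have hone : ∀ q : ℕ, ((Icc 1 x).filter (fun m : ℕ => 2 * m < q ^ 2 + 3 ∧
      (q : ℝ) ^ 2 ≤ 2 * (m : ℝ) + δ * s)).card ≤ D + 1 := by
    intro q
    rcases Finset.eq_empty_or_nonempty ((Icc 1 x).filter (fun m : ℕ => 2 * m < q ^ 2 + 3 ∧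
      (q : ℝ) ^ 2 ≤ 2 * (m : ℝ) + δ * s)) with he | hne
    · rw [he]; simp
    · obtain ⟨m₀, hm₀, hmin⟩ := Finset.exists_min_image _ (fun m : ℕ => m) hne
      have hsub : (Icc 1 x).filter (fun m : ℕ => 2 * m < q ^ 2 + 3 ∧
          (q : ℝ) ^ 2 ≤ 2 * (m : ℝ) + δ * s) ⊆ Icc m₀ (m₀ + D) := by
        intro m hm
        have h1 := hmin m hm
        rw [mem_filter] at hm hm₀
        rw [mem_Icc]
        refine ⟨h1, ?_⟩
        have h2 : 2 * m ≤ q ^ 2 + 2 := by omega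
        have h3 : 2 * (m : ℝ) ≤ (q : ℝ) ^ 2 + 2 := by exact_mod_cast h2
        have h4 := hm₀.2.2
        have h5 : ((m - m₀ : ℕ) : ℝ) ≤ δ * s / 2 + 1 := by
          rw [Nat.cast_sub h1]; linarith
        have h6 : m - m₀ ≤ D := by
          rw [hD]; exact Nat.le_floor h5
        omega
      refine (card_le_card hsub).trans ?_
      rw [Nat.card_Icc]; omega
  obtain ⟨Q, hQ⟩ : ∃ Q : ℕ, Q = ⌊7 / 4 * s⌋₊ := ⟨_, rfl⟩
  have hQle : (Q : ℝ) ≤ 7 / 4 * s := by rw [hQ]; exact Nat.floor_le (by linarith)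
  have hcover : (Icc 1 x).filter (fun m : ℕ => ∃ q : ℕ, 2 * m < q ^ 2 + 3 ∧
      (q : ℝ) ^ 2 ≤ 2 * (m : ℝ) + δ * s) ⊆ (range (Q + 1)).biUnion (fun q : ℕ =>
      (Icc 1 x).filter (fun m : ℕ => 2 * m < q ^ 2 + 3 ∧ (q : ℝ) ^ 2 ≤ 2 * (m : ℝ) + δ * s)) := by
    intro m hm
    rw [mem_filter] at hm
    obtain ⟨hm1, q, hq1, hq2⟩ := hm
    rw [mem_biUnion]
    refine ⟨q, ?_, mem_filter.mpr ⟨hm1, hq1, hq2⟩⟩
    rw [mem_range]
    have hmx : (m : ℝ) ≤ s ^ 2 := by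
      rw [hss]; exact_mod_cast (mem_Icc.mp hm1).2
    have h1 : (q : ℝ) ^ 2 ≤ (7 / 4 * s) ^ 2 := by nlinarith
    have h2 : (q : ℝ) ≤ 7 / 4 * s := le_of_sq_le_sq h1 (by linarith)
    have h3 : q ≤ Q := by rw [hQ]; exact Nat.le_floor h2
    omega
  have hcard : ((Icc 1 x).filter (fun m : ℕ => ∃ q : ℕ, 2 * m < q ^ 2 + 3 ∧
      (q : ℝ) ^ 2 ≤ 2 * (m : ℝ) + δ * s)).card ≤ (Q + 1) * (D + 1) := by
    refine (card_le_card hcover).trans ?_
    refine (card_biUnion_le_card_mul _ _ _ (fun q _ => hone q)).trans ?_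
    rw [card_range]
  have hcard' : (((Icc 1 x).filter (fun m : ℕ => ∃ q : ℕ, 2 * m < q ^ 2 + 3 ∧
      (q : ℝ) ^ 2 ≤ 2 * (m : ℝ) + δ * s)).card : ℝ) ≤ ((Q : ℝ) + 1) * (D + 1) := by
    exact_mod_cast hcard
  refine hcard'.trans ?_
  have h1 : (Q : ℝ) + 1 ≤ 2 * s := by linarith
  have h2 : (D : ℝ) + 1 ≤ δ * s := by linarith
  calc ((Q : ℝ) + 1) * (D + 1) ≤ (2 * s) * (δ * s) :=
        mul_le_mul h1 h2 (by positivity) (by linarith)
    _ = 2 * δ * x := by rw [← hss]; ring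
    _ ≤ 4 * δ * x := by
        have : 0 ≤ δ * x := by positivity
        linarith

end Pool.Agent.Lib.MP_02fec8_nt
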