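import Mathlib
import Pool.Agent.Lib.MP_02fec8_nt.Defs

set_option autoImplicit false

namespace Pool.Agent.Lib.MP_02fec8_nt

open Finset

/-- class index: `0`, `n+1`, or `i` for `±i`. -/
def kap (n : ℕ) (u : ZMod (2 * n + 2)) : ℕ := min u.val (2 * n + 2 - u.val)

lemma kap_lt (n : ℕ) (u : ZMod (2 * n + 2)) : kap n u < n + 2 := by
  unfold kap
  have := ZMod.val_lt u
  omega

lemma val_natCast_small (n i : ℕ) (hi : i < 2 * n + 2) : ((i : ℕ) : ZMod (2 * n + 2)).val = i :=
  ZMod.val_natCast_of_lt hi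

lemma kap_eq_zero (n : ℕ) (u : ZMod (2 * n + 2)) : kap n u = 0 ↔ u = 0 := by
  unfold kap
  have := ZMod.val_lt u
  rw [← ZMod.val_eq_zero]
  omega

lemma kap_eq_half (n : ℕ) (u : ZMod (2 * n + 2)) :
    kap n u = n + 1 ↔ u = ((n + 1 : ℕ) : ZMod (2 * n + 2)) := by
  unfold kap
  have := ZMod.val_lt u
  constructor
  · intro h
    apply ZMod.val_injective
    rw [val_natCast_small n (n + 1) (by omega)]
    omega
  · rintro rfl
    rw [val_natCast_small n (n + 1) (by omega)]
    omega

lemma kap_eq_mid (n : ℕ) (u : ZMod (2 * n + 2)) (i : ℕ) (h1 : 1 ≤ i) (h2 : i ≤ n) :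
    kap n u = i ↔ (u = (i : ZMod (2 * n + 2)) ∨ u = -(i : ZMod (2 * n + 2))) := by
  unfold kap
  have hlt := ZMod.val_lt u
  have hneg : (-(i : ZMod (2 * n + 2))) = ((2 * n + 2 - i : ℕ) : ZMod (2 * n + 2)) := by
    rw [neg_eq_iff_add_eq_zero, ← Nat.cast_add]
    have : i + (2 * n + 2 - i) = 2 * n + 2 := by omega
    rw [this]
    simp
  constructor
  · intro h
    have h3 : u.val = i ∨ u.val = 2 * n + 2 - i := by omega
    rcases h3 with h3 | h3
    · left
      apply ZMod.val_injective
      rw [val_natCast_small n i (by omega), h3]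
    · right
      rw [hneg]
      apply ZMod.val_injective
      rw [val_natCast_small n (2 * n + 2 - i) (by omega), h3]
  · rintro (rfl | rfl)
    · rw [val_natCast_small n i (by omega)]
      omega
    · rw [hneg, val_natCast_small n (2 * n + 2 - i) (by omega)]
      omega

lemma mid_ne_neg (n i : ℕ) (h1 : 1 ≤ i) (h2 : i ≤ n) :
    (i : ZMod (2 * n + 2)) ≠ -(i : ZMod (2 * n + 2)) := by
  intro h
  have h3 : ((i + i : ℕ) : ZMod (2 * n + 2)) = 0 := by
    push_cast
    nth_rewrite 1 [h]
    ring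
  rw [ZMod.natCast_eq_zero_iff] at h3
  have := Nat.le_of_dvd (by omega) h3
  omega

lemma two_half (n : ℕ) : (2 : ZMod (2 * n + 2)) * ((n + 1 : ℕ) : ZMod (2 * n + 2)) = 0 := by
  have : ((2 * (n + 1) : ℕ) : ZMod (2 * n + 2)) = 0 := by
    rw [ZMod.natCast_eq_zero_iff]
    exact ⟨1, by ring⟩
  rw [← this]
  push_cast
  ring

lemma mem_cls {c p : ℕ} (S : Finset (ZMod c × ZMod p)) (j : ZMod c) (x : ZMod p) :
    x ∈ cls S j ↔ (j, x) ∈ S := by
  unfold cls
  rw [Finset.mem_image]
  constructor
  · rintro ⟨⟨a, b⟩, h, h2⟩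
    rw [Finset.mem_filter] at h
    obtain ⟨h3, h4⟩ := h
    simp only at h2 h4
    rw [← h2, ← h4]; exact h3
  · intro h
    exact ⟨(j, x), by rw [Finset.mem_filter]; exact ⟨h, rfl⟩, rfl⟩

lemma card_cls {c p : ℕ} (S : Finset (ZMod c × ZMod p)) (j : ZMod c) :
    (cls S j).card = (S.filter (fun x => x.1 = j)).card := by
  unfold cls
  apply Finset.card_image_of_injOn
  intro x hx y hy h
  rw [Finset.mem_coe, Finset.mem_filter] at hx hy
  exact Prod.ext (hx.2.trans hy.2.symm) h

theorem split : SplitStmt := by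
  classical
  intro n p S
  have h1 : S.card = ∑ i ∈ range (n + 2), (S.filter (fun x => kap n x.1 = i)).card := by
    apply Finset.card_eq_sum_card_fiberwise
    intro x _
    simpa using kap_lt n x.1
  rw [h1, Finset.sum_range_succ, Finset.sum_range_succ']
  have h0 : (S.filter (fun x => kap n x.1 = 0)).card = (cls S 0).card := by
    rw [card_cls]
    congr 1
    apply Finset.filter_congr
    intro x _
    exact kap_eq_zero n x.1
  have h2 : (S.filter (fun x => kap n x.1 = n + 1)).card =
      (cls S ((n + 1 : ℕ) : ZMod (2 * n + 2))).card := by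
    rw [card_cls]
    congr 1
    apply Finset.filter_congr
    intro x _
    exact kap_eq_half n x.1
  have h3 : ∑ i ∈ range n, (S.filter (fun x => kap n x.1 = i + 1)).card =
      ∑ i ∈ Icc 1 n, wt S i := by
    have h4 : ∑ i ∈ Icc 1 n, wt S i = ∑ i ∈ range n, wt S (i + 1) := by
      rw [Finset.range_eq_Ico, Finset.sum_Ico_add' (fun i => wt S i) 0 n 1]
      rfl
    rw [h4]
    apply Finset.sum_congr rfl
    intro i hi
    rw [Finset.mem_range] at hi
    unfold wt
    rw [card_cls, card_cls, ← Finset.card_union_of_disjoint]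
    · congr 1
      ext x
      simp only [Finset.mem_filter, Finset.mem_union]
      rw [kap_eq_mid n x.1 (i + 1) (by omega) (by omega)]
      tauto
    · rw [Finset.disjoint_left]
      intro x hx hx'
      rw [Finset.mem_filter] at hx hx'
      exact mid_ne_neg n (i + 1) (by omega) (by omega) (hx.2.symm.trans hx'.2)
  rw [h0, h2, h3]
  ring

end Pool.Agent.Lib.MP_02fec8_nt
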