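import Mathlib
import Pool.Agent.Lib.MP_02fec8_nt.Defs
import Pool.Agent.Lib.MP_02fec8_nt.TypeB

set_option autoImplicit false

namespace Pool.Agent.Lib.MP_02fec8_nt

open Finset

lemma mem_sumsPar {G : Type*} [AddCommGroup G] [DecidableEq G] (e : ℕ) (S : Finset G) (x : G) :
    x ∈ sumsPar e S ↔ ∃ T ⊆ S, T.card % 2 = e % 2 ∧ ∑ y ∈ T, y = x := by
  unfold sumsPar
  rw [Finset.mem_image]
  constructor
  · rintro ⟨T, hT, h⟩
    rw [Finset.mem_filter, Finset.mem_powerset] at hT
    exact ⟨T, hT.1, hT.2, h⟩
  · rintro ⟨T, hT, h1, h⟩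
    exact ⟨T, by rw [Finset.mem_filter, Finset.mem_powerset]; exact ⟨hT, h1⟩, h⟩

lemma sumsPar_mono {G : Type*} [AddCommGroup G] [DecidableEq G] (e : ℕ) {S T : Finset G}
    (h : S ⊆ T) : sumsPar e S ⊆ sumsPar e T := by
  intro x hx
  rw [mem_sumsPar] at hx ⊢
  obtain ⟨U, hU, h1, h2⟩ := hx
  exact ⟨U, hU.trans h, h1, h2⟩

lemma vdm_odd {p s : ℕ} : vdm p (fun j : Fin s => 2 * (j : ℕ) + 1) =
    (∏ i, MvPolynomial.X i) * vdm p (fun j : Fin s => 2 * (j : ℕ)) := by
  unfold vdm
  rw [← Matrix.det_mul_column]
  congr 1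
  ext i j
  simp only [Matrix.of_apply]
  rw [pow_succ, mul_comm]

lemma vdm_deg_le {p s : ℕ} (b : Fin s → ℕ) : (vdm p b).totalDegree ≤ ∑ i, b i := by
  classical
  unfold vdm
  rw [Matrix.det_apply']
  apply MvPolynomial.totalDegree_finsetSum_le
  intro σ _
  have h1 : ∏ i, (Matrix.of fun i j => (MvPolynomial.X i : MvPolynomial (Fin s) (ZMod p)) ^ (b j))
      (σ i) i = MvPolynomial.monomial (∑ i, Finsupp.single (σ i) (b i)) 1 := by
    rw [MvPolynomial.monomial_sum_one]
    apply Finset.prod_congr rfl
    intro i _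
    rw [Matrix.of_apply, MvPolynomial.X_pow_eq_monomial]
  rw [h1]
  have h5 : ((Equiv.Perm.sign σ : ℤ) : MvPolynomial (Fin s) (ZMod p)) =
      MvPolynomial.C (((Equiv.Perm.sign σ : ℤ) : ZMod p)) := by
    simp
  rw [h5, MvPolynomial.C_mul_monomial]
  refine (MvPolynomial.totalDegree_monomial_le _ _).trans (le_of_eq ?_)
  change (∑ i, Finsupp.single (σ i) (b i)).degree = _
  rw [map_sum]
  simp

lemma typeD_core (hcore : CoreStmt) (hnv : NVDStmt) (p : ℕ) (hp : p.Prime) (hp2 : p ≠ 2)
    (B : Finset (ZMod p)) (hB : ∀ x ∈ B, ∀ y ∈ B, x + y ≠ 0) (d N : ℕ)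
    (hB1 : 1 ≤ B.card) (hd : d < B.card) (hN : 2 * (N + d) = B.card * (B.card - 1))
    (hNp : N < p) : N + 1 ≤ (sumsPar 0 B).card := by
  classical
  haveI : Fact p.Prime := ⟨hp⟩
  by_contra hcon
  push Not at hcon
  set s := B.card with hs
  have h2s := two_card_lt hp B hB
  rw [← hs] at h2s
  set σ := ∑ y ∈ B, y with hσ
  set π : ZMod p := ∏ y ∈ B, y with hπ
  have hsum1 : ∑ i : Fin s, 2 * (i : ℕ) = s * (s - 1) := by
    rw [← Finset.mul_sum, Fin.sum_univ_eq_sum_range (fun i => i) s, mul_comm,
      Finset.sum_range_id_mul_two]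
  have hsum2 : ∑ i : Fin s, (2 * (i : ℕ) + 1) = s * (s - 1) + s := by
    rw [Finset.sum_add_distrib, hsum1]
    simp
  have hRdiff : vdm p (fun j : Fin s => 2 * (j : ℕ)) * ((∏ i, MvPolynomial.X i) + MvPolynomial.C π)
      - vdm p (fun j : Fin s => 2 * (j : ℕ) + 1) =
      vdm p (fun j : Fin s => 2 * (j : ℕ)) * MvPolynomial.C π := by
    rw [vdm_odd]; ring
  obtain ⟨x, hxC, hxR, hxE⟩ := hcore p hp s (B ∪ B.image (fun y => -y))
    (fun j => 2 * (j : ℕ) + 1) (tvec s (2 * s - 1) d)
    (vdm p (fun j : Fin s => 2 * (j : ℕ)) * ((∏ i, MvPolynomial.X i) + MvPolynomial.C π)) N hNp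
    (by
      have h1 := tvec_sum s (2 * s - 1) d hB1 (by omega)
      rw [hsum2]
      obtain ⟨r, hr⟩ : ∃ r, s = r + 1 := ⟨s - 1, by omega⟩
      rw [hr] at h1 hN ⊢
      have h3 : 2 * (r + 1) - 1 = 2 * r + 1 := by omega
      rw [h3] at h1 ⊢
      simp only [Nat.add_sub_cancel] at h1 hN ⊢
      nlinarith)
    (Or.inr (by
      rw [hRdiff, hsum2]
      refine lt_of_le_of_lt (MvPolynomial.totalDegree_mul _ _) ?_
      rw [MvPolynomial.totalDegree_C, add_zero]
      refine lt_of_le_of_lt (vdm_deg_le _) ?_
      rw [hsum1]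
      omega)) (hnv p hp s d hB1 hd h2s)
    (fun i => tvec_lt s (2 * s - 1) d _ (by rw [card_union_neg B hB]; omega) i)
    ((sumsPar 0 B).image (fun y => σ - 2 * y))
    (Finset.card_image_le.trans (by omega))
  rw [map_mul, eval_vdm_two] at hxR
  have hxR1 := left_ne_zero_of_mul hxR
  have hxR2 := right_ne_zero_of_mul hxR
  rw [Matrix.det_vandermonde_ne_zero_iff] at hxR1
  obtain ⟨a, hinj, ha, hx⟩ := signed_sum B hs.symm x hxC hxR1
  simp only [map_add, map_prod, MvPolynomial.eval_X, MvPolynomial.eval_C] at hxR2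
  have hpa : ∏ i, a i = π := by
    rw [hπ, ← ha, Finset.prod_image (fun i _ j _ h => hinj h)]
  have hpx : ∏ i, x i = (-1) ^ (Finset.univ.filter (fun i => x i ∉ B)).card * π := by
    rw [← hpa]
    have h1 : ∀ i, x i = (if x i ∉ B then (-1 : ZMod p) else 1) * a i := by
      intro i
      by_cases h : x i ∈ B
      · have h2 := hx i
        rw [if_pos h] at h2
        simp only [h, not_true, if_false, one_mul]
        exact h2
      · have h2 := hx i
        rw [if_neg h] at h2
        simp only [h, not_false_iff, if_true]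
        rw [h2]; ring
    rw [Finset.prod_congr rfl (fun i _ => h1 i), Finset.prod_mul_distrib]
    congr 1
    rw [Finset.prod_ite]
    simp
  have heven : (Finset.univ.filter (fun i => x i ∉ B)).card % 2 = 0 := by
    by_contra hodd
    have hodd' : Odd (Finset.univ.filter (fun i => x i ∉ B)).card := by
      rw [Nat.odd_iff]; omega
    apply hxR2
    rw [hpx, hodd'.neg_one_pow]
    ring
  apply hxE
  rw [Finset.mem_image]
  refine ⟨∑ y ∈ (Finset.univ.filter (fun i => x i ∉ B)).image a, y, ?_, ?_⟩
  · rw [mem_sumsPar]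
    refine ⟨_, ?_, ?_, rfl⟩
    · rw [← ha]
      exact Finset.image_subset_image (Finset.filter_subset _ _)
    · rw [Finset.card_image_of_injective _ hinj]
      omega
  · exact (signed_sum2 B x a hinj ha hx).symm

lemma typeD_even (hcore : CoreStmt) (hnv : NVDStmt) (hB' : TypeBStmt) (p : ℕ) (hp : p.Prime)
    (hp2 : p ≠ 2) (B : Finset (ZMod p)) (hB : ∀ x ∈ B, ∀ y ∈ B, x ≠ y → x + y ≠ 0) :
    min p (1 + B.card * (B.card - 1) / 2) ≤ (sumsPar 0 B).card := by
  classical
  haveI : Fact p.Prime := ⟨hp⟩
  have h2 : (2 : ZMod p) ≠ 0 := by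
    intro h
    have : ((2 : ℕ) : ZMod p) = 0 := by exact_mod_cast h
    rw [ZMod.natCast_eq_zero_iff] at this
    exact hp2 ((Nat.prime_dvd_prime_iff_eq hp Nat.prime_two).1 this)
  by_cases h0 : (0 : ZMod p) ∈ B
  · have h1 := hB' p hp hp2 (B.erase 0) (by
      intro x hx y hy
      rw [Finset.mem_erase] at hx hy
      by_cases hxy : x = y
      · subst hxy
        rw [← two_mul]
        exact mul_ne_zero h2 hx.1
      · exact hB x hx.2 y hy.2 hxy)
    rw [Finset.card_erase_of_mem h0] at h1
    have hpos : 1 ≤ B.card := Finset.card_pos.2 ⟨0, h0⟩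
    have h3 : (B.card - 1) * (B.card - 1 + 1) = B.card * (B.card - 1) := by
      rw [Nat.sub_add_cancel hpos, mul_comm]
    rw [h3] at h1
    refine h1.trans (Finset.card_le_card ?_)
    intro x hx
    rw [mem_sums] at hx
    obtain ⟨T, hT, hTx⟩ := hx
    rw [mem_sumsPar]
    rcases Nat.mod_two_eq_zero_or_one T.card with h | h
    · exact ⟨T, hT.trans (Finset.erase_subset _ _), by omega, hTx⟩
    · have h0T : (0 : ZMod p) ∉ T := fun h => by simpa using hT h
      refine ⟨insert 0 T, ?_, ?_, ?_⟩
      · intro y hy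
        rw [Finset.mem_insert] at hy
        rcases hy with rfl | hy
        · exact h0
        · exact Finset.mem_of_mem_erase (hT hy)
      · rw [Finset.card_insert_of_notMem h0T]
        omega
      · rw [Finset.sum_insert h0T, zero_add, hTx]
  · have hB2 : ∀ x ∈ B, ∀ y ∈ B, x + y ≠ 0 := by
      intro x hx y hy
      by_cases hxy : x = y
      · subst hxy
        rw [← two_mul]
        exact mul_ne_zero h2 (fun h => h0 (h ▸ hx))
      · exact hB x hx y hy hxy
    rcases Nat.eq_zero_or_pos B.card with hc0 | hc1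
    · rw [hc0]
      refine (min_le_right _ _).trans ?_
      simp only [zero_mul, Nat.zero_div, add_zero]
      apply Finset.card_pos.2
      refine ⟨0, ?_⟩
      rw [mem_sumsPar]
      exact ⟨∅, by simp, by simp, by simp⟩
    · have hev : ∀ s : ℕ, 2 * (s * (s - 1) / 2) = s * (s - 1) := by
        intro s
        apply Nat.mul_div_cancel'
        rcases s with _ | r
        · simp
        · simp only [Nat.add_sub_cancel]
          rw [mul_comm]
          exact (Nat.even_mul_succ_self r).two_dvd
      by_cases hlt : B.card * (B.card - 1) / 2 < p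
      · refine (min_le_right _ _).trans ?_
        have := typeD_core hcore hnv p hp hp2 B hB2 0 (B.card * (B.card - 1) / 2) hc1 hc1
          (by rw [add_zero]; exact hev _) hlt
        omega
      · push Not at hlt
        refine (min_le_left _ _).trans ?_
        have hev1 := hev B.card
        have hex : ∃ s, 2 * (p - 1) ≤ s * (s - 1) := ⟨B.card, by omega⟩
        set s := Nat.find hex with hs
        have hs1 : 2 * (p - 1) ≤ s * (s - 1) := Nat.find_spec hex
        have hsB : s ≤ B.card := Nat.find_min' hex (by omega)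
        have hp3 : 2 ≤ p := hp.two_le
        have hs0 : 2 ≤ s := by
          by_contra h
          have h' : s = 0 ∨ s = 1 := by omega
          rcases h' with h' | h' <;> rw [h'] at hs1 <;> omega
        have hs2 : (s - 1) * (s - 2) < 2 * (p - 1) := by
          have := Nat.find_min hex (m := s - 1) (by omega)
          push Not at this
          have h4 : s - 1 - 1 = s - 2 := by omega
          rw [h4] at this
          exact this
        obtain ⟨B₁, hB₁B, hB₁c⟩ := Finset.exists_subset_card_eq hsB
        have hev2 := hev s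
        have h5 : s * (s - 1) = (s - 1) * (s - 2) + 2 * (s - 1) := by
          obtain ⟨r, hr⟩ : ∃ r, s = r + 2 := ⟨s - 2, by omega⟩
          rw [hr]
          have e1 : r + 2 - 1 = r + 1 := by omega
          have e2 : r + 2 - 2 = r := by omega
          rw [e1, e2]; ring
        have := typeD_core hcore hnv p hp hp2 B₁ (fun x hx y hy => hB2 x (hB₁B hx) y (hB₁B hy))
          (s * (s - 1) / 2 - (p - 1)) (p - 1) (by omega) (by rw [hB₁c]; omega)
          (by rw [hB₁c]; omega) (by omega)
        have h6 := Finset.card_le_card (sumsPar_mono 0 hB₁B)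
        omega

theorem typeD (hcore : CoreStmt) (hnv : NVDStmt) (hB' : TypeBStmt) : TypeDStmt := by
  classical
  intro p hp hp2 B hB e he
  rcases he with rfl | ⟨rfl, ⟨y, hy⟩⟩
  · exact typeD_even hcore hnv hB' p hp hp2 B hB
  · have hny : -y ∉ B.erase y := by
      intro h
      rw [Finset.mem_erase] at h
      exact hB (-y) h.2 y hy h.1 (by ring)
    set B₁ := insert (-y) (B.erase y) with hB₁
    have hc : B₁.card = B.card := by
      rw [hB₁, Finset.card_insert_of_notMem hny, Finset.card_erase_of_mem hy]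
      have := Finset.card_pos.2 ⟨y, hy⟩
      omega
    have h1 := typeD_even hcore hnv hB' p hp hp2 B₁ (by
      intro x hx z hz hxz
      rw [hB₁, Finset.mem_insert, Finset.mem_erase] at hx hz
      rcases hx with rfl | hx
      · rcases hz with rfl | hz
        · exact absurd rfl hxz
        · intro h
          apply hz.1
          have := neg_add_eq_zero.1 h
          exact this.symm
      · rcases hz with rfl | hz
        · intro h
          apply hx.1
          exact add_neg_eq_zero.1 h
        · exact hB x hx.2 z hz.2 hxz)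
    rw [hc] at h1
    refine h1.trans ?_
    rw [← Finset.card_image_of_injective (sumsPar 0 B₁) (add_right_injective y)]
    apply Finset.card_le_card
    intro x hx
    rw [Finset.mem_image] at hx
    obtain ⟨z, hz, rfl⟩ := hx
    rw [mem_sumsPar] at hz ⊢
    obtain ⟨T, hT, hTc, hTz⟩ := hz
    by_cases hyT : -y ∈ T
    · refine ⟨T.erase (-y), ?_, ?_, ?_⟩
      · intro u hu
        rw [Finset.mem_erase] at hu
        have := hT hu.2
        rw [hB₁, Finset.mem_insert] at this
        rcases this with h | h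
        · exact absurd h hu.1
        · exact Finset.mem_of_mem_erase h
      · rw [Finset.card_erase_of_mem hyT]
        have := Finset.card_pos.2 ⟨_, hyT⟩
        omega
      · rw [← hTz, ← Finset.add_sum_erase T (fun u => u) hyT]
        ring
    · have hTB : T ⊆ B.erase y := by
        intro u hu
        have := hT hu
        rw [hB₁, Finset.mem_insert] at this
        rcases this with h | h
        · exact absurd (h ▸ hu) hyT
        · exact h
      have hyT' : y ∉ T := fun h => by simpa using hTB h
      refine ⟨insert y T, ?_, ?_, ?_⟩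
      · intro u hu
        rw [Finset.mem_insert] at hu
        rcases hu with rfl | hu
        · exact hy
        · exact Finset.mem_of_mem_erase (hTB hu)
      · rw [Finset.card_insert_of_notMem hyT']
        omega
      · rw [Finset.sum_insert hyT', hTz]

end Pool.Agent.Lib.MP_02fec8_nt
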