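import Mathlib
import Pool.Agent.Lib.MP_02fec8_nt.Defs
import Pool.Agent.Lib.MP_02fec8_nt.Kap
import Pool.Agent.Lib.MP_02fec8_nt.TypeD

set_option autoImplicit false

namespace Pool.Agent.Lib.MP_02fec8_nt

open Finset
open scoped Pointwise

section

variable {c p : ℕ}

lemma cls_sums_add (S T T' : Finset (ZMod c × ZMod p)) (hd : Disjoint T T') (h1 : T ⊆ S)
    (h2 : T' ⊆ S) (j j' : ZMod c) (x y : ZMod p) (hx : x ∈ cls (sums T) j)
    (hy : y ∈ cls (sums T') j') : x + y ∈ cls (sums S) (j + j') := by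
  classical
  rw [mem_cls, mem_sums] at *
  obtain ⟨U, hU, hUx⟩ := hx
  obtain ⟨V, hV, hVy⟩ := hy
  refine ⟨U ∪ V, Finset.union_subset (hU.trans h1) (hV.trans h2), ?_⟩
  rw [Finset.sum_union (Finset.disjoint_of_subset_left hU (Finset.disjoint_of_subset_right hV hd)),
    hUx, hVy]
  rfl

lemma min_add_bound (hp : p.Prime) (X Y Z : Finset (ZMod p)) (a b : ℕ)
    (hX : min p (1 + a) ≤ X.card) (hY : min p (1 + b) ≤ Y.card)
    (h : ∀ x ∈ X, ∀ y ∈ Y, x + y ∈ Z) : min p (1 + (a + b)) ≤ Z.card := by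
  classical
  have hp1 := hp.pos
  have hXn : X.Nonempty := Finset.card_pos.1 (by omega)
  have hYn : Y.Nonempty := Finset.card_pos.1 (by omega)
  have h1 := ZMod.cauchy_davenport hp hXn hYn
  have h2 : (X + Y).card ≤ Z.card := by
    apply Finset.card_le_card
    intro z hz
    rw [Finset.mem_add] at hz
    obtain ⟨x, hx, y, hy, rfl⟩ := hz
    exact h x hx y hy
  omega

end

section

variable {n p : ℕ}

lemma zsf_pair {G : Type*} [AddCommGroup G] [DecidableEq G] {S : Finset G} (hS : ZSF S) {x y : G}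
    (hx : x ∈ S) (hy : y ∈ S) (hxy : x ≠ y) : x + y ≠ 0 := by
  have := hS {x, y} (by intro z hz; rw [Finset.mem_insert, Finset.mem_singleton] at hz
                        rcases hz with rfl | rfl <;> assumption) ⟨x, by simp⟩
  rwa [Finset.sum_pair hxy] at this

lemma zsf_ne_zero {G : Type*} [AddCommGroup G] [DecidableEq G] {S : Finset G} (hS : ZSF S) {x : G}
    (hx : x ∈ S) : x ≠ 0 := by
  have := hS {x} (by simpa using hx) ⟨x, by simp⟩
  simpa using this

lemma two_ne (hp : p.Prime) (hp2 : p ≠ 2) : (2 : ZMod p) ≠ 0 := by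
  intro h
  have : ((2 : ℕ) : ZMod p) = 0 := by exact_mod_cast h
  rw [ZMod.natCast_eq_zero_iff] at this
  exact hp2 ((Nat.prime_dvd_prime_iff_eq hp Nat.prime_two).1 this)

lemma cls_zero_cond (hp : p.Prime) (hp2 : p ≠ 2) (S : Finset (ZMod (2 * n + 2) × ZMod p))
    (hS : ZSF S) : ∀ x ∈ cls S 0, ∀ y ∈ cls S 0, x + y ≠ 0 := by
  haveI : Fact p.Prime := ⟨hp⟩
  intro x hx y hy
  rw [mem_cls] at hx hy
  by_cases hxy : x = y
  · subst hxy
    rw [← two_mul]
    apply mul_ne_zero (two_ne hp hp2)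
    intro h
    subst h
    exact zsf_ne_zero hS hx rfl
  · intro h
    apply zsf_pair hS hx hy (by intro h'; exact hxy (Prod.ext_iff.1 h').2)
    exact Prod.ext (by simp) h

lemma cls_half_cond (S : Finset (ZMod (2 * n + 2) × ZMod p))
    (hS : ZSF S) : ∀ x ∈ cls S ((n + 1 : ℕ) : ZMod (2 * n + 2)),
      ∀ y ∈ cls S ((n + 1 : ℕ) : ZMod (2 * n + 2)), x ≠ y → x + y ≠ 0 := by
  intro x hx y hy hxy h
  rw [mem_cls] at hx hy
  apply zsf_pair hS hx hy (by intro h'; exact hxy (Prod.ext_iff.1 h').2)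
  apply Prod.ext
  · change ((n + 1 : ℕ) : ZMod (2 * n + 2)) + ((n + 1 : ℕ) : ZMod (2 * n + 2)) = 0
    rw [← two_mul]; exact two_half n
  · exact h

/-- the class over `0`. -/
lemma part_zero (S : Finset (ZMod (2 * n + 2) × ZMod p)) (x : ZMod p)
    (hx : x ∈ sums (cls S 0)) : x ∈ cls (sums (S.filter (fun u => kap n u.1 = 0))) 0 := by
  classical
  rw [mem_cls, mem_sums]
  rw [mem_sums] at hx
  obtain ⟨U, hU, hUx⟩ := hx
  refine ⟨U.image (fun y => ((0 : ZMod (2 * n + 2)), y)), ?_, ?_⟩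
  · intro u hu
    rw [Finset.mem_image] at hu
    obtain ⟨y, hy, rfl⟩ := hu
    rw [Finset.mem_filter]
    exact ⟨(mem_cls S 0 y).1 (hU hy), (kap_eq_zero n 0).2 rfl⟩
  · rw [Finset.sum_image (by intro a _ b _ h; exact (Prod.ext_iff.1 h).2)]
    apply Prod.ext
    · rw [Prod.fst_sum]; simp
    · rw [Prod.snd_sum]; exact hUx

/-- the class over `n+1`. -/
lemma part_half (S : Finset (ZMod (2 * n + 2) × ZMod p)) (e : ℕ) (x : ZMod p)
    (hx : x ∈ sumsPar e (cls S ((n + 1 : ℕ) : ZMod (2 * n + 2)))) :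
    x ∈ cls (sums (S.filter (fun u => kap n u.1 = n + 1)))
      ((e : ZMod (2 * n + 2)) * ((n + 1 : ℕ) : ZMod (2 * n + 2))) := by
  classical
  rw [mem_cls, mem_sums]
  rw [mem_sumsPar] at hx
  obtain ⟨U, hU, hUc, hUx⟩ := hx
  refine ⟨U.image (fun y => (((n + 1 : ℕ) : ZMod (2 * n + 2)), y)), ?_, ?_⟩
  · intro u hu
    rw [Finset.mem_image] at hu
    obtain ⟨y, hy, rfl⟩ := hu
    rw [Finset.mem_filter]
    exact ⟨(mem_cls S _ y).1 (hU hy), (kap_eq_half n _).2 rfl⟩
  · rw [Finset.sum_image (by intro a _ b _ h; exact (Prod.ext_iff.1 h).2)]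
    apply Prod.ext
    · rw [Prod.fst_sum]
      simp only [Finset.sum_const, nsmul_eq_mul]
      have h1 : ∀ k : ℕ, (k : ZMod (2 * n + 2)) * ((n + 1 : ℕ) : ZMod (2 * n + 2)) =
          ((k % 2 : ℕ) : ZMod (2 * n + 2)) * ((n + 1 : ℕ) : ZMod (2 * n + 2)) := by
        intro k
        conv_lhs => rw [← Nat.div_add_mod k 2]
        push_cast
        rw [add_mul, mul_comm (2 : ZMod (2 * n + 2)), mul_assoc]
        have h2 := two_half n
        push_cast at h2
        rw [h2, mul_zero, zero_add]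
      rw [h1 U.card, h1 e, hUc]
    · rw [Prod.snd_sum]; exact hUx

/-- the classes over `i` and `-i`. -/
lemma part_mid (hD : DdshStmt) (hp : p.Prime) (S : Finset (ZMod (2 * n + 2) × ZMod p))
    (hS : ZSF S) (i : ℕ) (h1 : 1 ≤ i) (h2 : i ≤ n) (h : ℕ) (hh : h ≤ wt S i) :
    min p (1 + h * (wt S i - h)) ≤ (cls (sums (S.filter (fun u => kap n u.1 = i)))
      ((i : ZMod (2 * n + 2)) * ((h : ZMod (2 * n + 2)) - (tt S i : ℕ)))).card := by
  classical
  haveI : Fact p.Prime := ⟨hp⟩
  set I : ZMod (2 * n + 2) := (i : ZMod (2 * n + 2)) with hI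
  have hII : I ≠ -I := mid_ne_neg n i h1 h2
  set P := cls S I with hP
  set Q := cls S (-I) with hQ
  set W := P ∪ Q.image (fun y => -y) with hW
  have hdisj : Disjoint P (Q.image (fun y => -y)) := by
    rw [Finset.disjoint_left]
    intro x hx hx'
    rw [Finset.mem_image] at hx'
    obtain ⟨y, hy, rfl⟩ := hx'
    rw [hP, mem_cls] at hx
    rw [hQ, mem_cls] at hy
    apply zsf_pair hS hx hy (by intro h'; exact hII (Prod.ext_iff.1 h').1)
    apply Prod.ext <;> simp
  have hWc : W.card = wt S i := by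
    rw [hW, Finset.card_union_of_disjoint hdisj, Finset.card_image_of_injective _ neg_injective]
    rfl
  have hdd := hD p hp W h (by rw [hWc]; exact hh)
  rw [hWc] at hdd
  refine hdd.trans ?_
  set σ := ∑ y ∈ Q, y with hσ
  rw [← Finset.card_image_of_injective (sumsCard h W) (add_left_injective σ)]
  apply Finset.card_le_card
  intro x hx
  rw [Finset.mem_image] at hx
  obtain ⟨z, hz, rfl⟩ := hx
  unfold sumsCard at hz
  rw [Finset.mem_image] at hz
  obtain ⟨H, hH, rfl⟩ := hz
  rw [Finset.mem_powersetCard] at hH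
  obtain ⟨hHW, hHc⟩ := hH
  set F := Q.filter (fun y => -y ∈ H) with hF
  set F' := Q.filter (fun y => ¬ (-y ∈ H)) with hF'
  have hFF : F.card + F'.card = Q.card := Finset.card_filter_add_card_filter_not (fun y => -y ∈ H)
  have hFs : ∑ y ∈ F, y + ∑ y ∈ F', y = σ :=
    Finset.sum_filter_add_sum_filter_not Q (fun y => -y ∈ H) (fun y => y)
  have hHeq : H = H ∩ P ∪ F.image (fun y => -y) := by
    ext x
    rw [Finset.mem_union, Finset.mem_inter, Finset.mem_image]
    constructor
    · intro hx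
      have := hHW hx
      rw [hW, Finset.mem_union, Finset.mem_image] at this
      rcases this with h' | ⟨y, hy, rfl⟩
      · exact Or.inl ⟨hx, h'⟩
      · right
        exact ⟨y, by rw [hF, Finset.mem_filter]; exact ⟨hy, hx⟩, rfl⟩
    · rintro (h' | ⟨y, hy, rfl⟩)
      · exact h'.1
      · rw [hF, Finset.mem_filter] at hy
        exact hy.2
  have hd2 : Disjoint (H ∩ P) (F.image (fun y => -y)) := by
    apply Finset.disjoint_of_subset_left Finset.inter_subset_right
    apply Finset.disjoint_of_subset_right _ hdisj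
    exact Finset.image_subset_image (Finset.filter_subset _ _)
  have hHc2 : (H ∩ P).card + F.card = h := by
    have h3 := Finset.card_union_of_disjoint hd2
    rw [← hHeq, Finset.card_image_of_injective _ neg_injective] at h3
    omega
  have hHs : ∑ y ∈ H, y = ∑ y ∈ H ∩ P, y - ∑ y ∈ F, y := by
    conv_lhs => rw [hHeq]
    rw [Finset.sum_union hd2, Finset.sum_image (fun a _ b _ h => neg_injective h),
      Finset.sum_neg_distrib]
    ring
  rw [mem_cls, mem_sums]
  refine ⟨(H ∩ P).image (fun y => (I, y)) ∪ F'.image (fun y => (-I, y)), ?_, ?_⟩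
  · intro u hu
    rw [Finset.mem_union, Finset.mem_image, Finset.mem_image] at hu
    rw [Finset.mem_filter]
    rcases hu with ⟨y, hy, rfl⟩ | ⟨y, hy, rfl⟩
    · refine ⟨(mem_cls S I y).1 (Finset.mem_inter.1 hy).2, ?_⟩
      exact (kap_eq_mid n I i h1 h2).2 (Or.inl rfl)
    · refine ⟨(mem_cls S (-I) y).1 (Finset.mem_filter.1 hy).1, ?_⟩
      exact (kap_eq_mid n (-I) i h1 h2).2 (Or.inr rfl)
  · rw [Finset.sum_union, Finset.sum_image (by intro a _ b _ h; exact (Prod.ext_iff.1 h).2),
      Finset.sum_image (by intro a _ b _ h; exact (Prod.ext_iff.1 h).2)]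
    · apply Prod.ext
      · rw [Prod.fst_add, Prod.fst_sum, Prod.fst_sum]
        simp only [Finset.sum_const, nsmul_eq_mul]
        have ht : tt S i = Q.card := rfl
        rw [ht]
        have e1 : (h : ZMod (2 * n + 2)) = ((H ∩ P).card : ZMod (2 * n + 2)) + F.card := by
          rw [← hHc2]; push_cast; ring
        have e2 : (Q.card : ZMod (2 * n + 2)) = (F.card : ZMod (2 * n + 2)) + F'.card := by
          rw [← hFF]; push_cast; ring
        rw [e1, e2]
        ring
      · rw [Prod.snd_add, Prod.snd_sum, Prod.snd_sum]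
        simp only
        rw [hHs, ← hFs]
        ring
    · rw [Finset.disjoint_left]
      intro u hu hu'
      rw [Finset.mem_image] at hu hu'
      obtain ⟨y, _, rfl⟩ := hu
      obtain ⟨y', _, h'⟩ := hu'
      exact hII (Prod.ext_iff.1 h').1.symm

lemma fib_aux (hB : TypeBStmt) (hDt : TypeDStmt) (hD : DdshStmt) (hp : p.Prime) (hp2 : p ≠ 2)
    (S : Finset (ZMod (2 * n + 2) × ZMod p)) (hS : ZSF S) (h : ℕ → ℕ)
    (hh : ∀ i ∈ Icc 1 n, h i ≤ wt S i) (e : ℕ)
    (he : e = 0 ∨ (e = 1 ∧ (cls S ((n + 1 : ℕ) : ZMod (2 * n + 2))).Nonempty)) :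
    ∀ I : Finset ℕ, I ⊆ Icc 1 n →
    min p (1 + ((cls S 0).card * ((cls S 0).card + 1) / 2
      + (cls S ((n + 1 : ℕ) : ZMod (2 * n + 2))).card *
        ((cls S ((n + 1 : ℕ) : ZMod (2 * n + 2))).card - 1) / 2
      + ∑ i ∈ I, h i * (wt S i - h i))) ≤
    (cls (sums (S.filter (fun u => kap n u.1 = 0 ∨ kap n u.1 = n + 1 ∨ kap n u.1 ∈ I)))
      (∑ i ∈ I, (i : ZMod (2 * n + 2)) * ((h i : ZMod (2 * n + 2)) - (tt S i : ℕ))
      + (e : ZMod (2 * n + 2)) * ((n + 1 : ℕ) : ZMod (2 * n + 2)))).card := by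
  classical
  intro I
  induction I using Finset.induction_on with
  | empty =>
    intro _
    simp only [Finset.sum_empty, add_zero, zero_add, Finset.notMem_empty, or_false]
    apply min_add_bound hp (sums (cls S 0))
      (sumsPar e (cls S ((n + 1 : ℕ) : ZMod (2 * n + 2)))) _ _ _
      (hB p hp hp2 _ (cls_zero_cond hp hp2 S hS))
      (hDt p hp hp2 _ (cls_half_cond S hS) e he)
    intro x hx y hy
    have h1 := part_zero S x hx
    have h2 := part_half S e y hy
    have h3 := cls_sums_add (S.filter (fun u => kap n u.1 = 0 ∨ kap n u.1 = n + 1))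
      (S.filter (fun u => kap n u.1 = 0)) (S.filter (fun u => kap n u.1 = n + 1))
      (by
        rw [Finset.disjoint_left]
        intro u hu hu'
        rw [Finset.mem_filter] at hu hu'
        omega)
      (by
        intro u hu
        rw [Finset.mem_filter] at hu ⊢
        exact ⟨hu.1, Or.inl hu.2⟩)
      (by
        intro u hu
        rw [Finset.mem_filter] at hu ⊢
        exact ⟨hu.1, Or.inr hu.2⟩) 0
      ((e : ZMod (2 * n + 2)) * ((n + 1 : ℕ) : ZMod (2 * n + 2))) x y h1 h2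
    rw [zero_add] at h3
    exact h3
  | insert i I hi ih =>
    intro hI
    have hiI := hI (Finset.mem_insert_self i I)
    rw [Finset.mem_Icc] at hiI
    have ih' := ih (fun j hj => hI (Finset.mem_insert_of_mem hj))
    rw [Finset.sum_insert hi, Finset.sum_insert hi]
    have h1 := part_mid hD hp S hS i hiI.1 hiI.2 (h i) (hh i (Finset.mem_Icc.2 hiI))
    have h2 := min_add_bound hp _ _
      (cls (sums (S.filter (fun u => kap n u.1 = 0 ∨ kap n u.1 = n + 1 ∨ kap n u.1 ∈ insert i I)))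
      ((i : ZMod (2 * n + 2)) * ((h i : ZMod (2 * n + 2)) - (tt S i : ℕ)) +
        (∑ i ∈ I, (i : ZMod (2 * n + 2)) * ((h i : ZMod (2 * n + 2)) - (tt S i : ℕ))
      + (e : ZMod (2 * n + 2)) * ((n + 1 : ℕ) : ZMod (2 * n + 2))))) _ _ h1 ih' (by
        intro x hx y hy
        refine cls_sums_add _ _ _ ?_ ?_ ?_ _ _ x y hx hy
        · rw [Finset.disjoint_left]
          intro u hu hu'
          rw [Finset.mem_filter] at hu hu'
          rcases hu'.2 with h | h | h
          · omega
          · omega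
          · exact hi (hu.2 ▸ h)
        · intro u hu
          rw [Finset.mem_filter] at hu ⊢
          exact ⟨hu.1, Or.inr (Or.inr (by rw [hu.2]; exact Finset.mem_insert_self _ _))⟩
        · intro u hu
          rw [Finset.mem_filter] at hu ⊢
          refine ⟨hu.1, ?_⟩
          rcases hu.2 with h | h | h
          · exact Or.inl h
          · exact Or.inr (Or.inl h)
          · exact Or.inr (Or.inr (Finset.mem_insert_of_mem h)))
    refine le_trans (le_of_eq ?_) (h2.trans (le_of_eq ?_))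
    · congr 1
      ring
    · congr 2
      rw [add_assoc]

theorem fib (hB : TypeBStmt) (hDt : TypeDStmt) (hD : DdshStmt) : FibStmt := by
  classical
  intro n p hp hp2 S hS h hh e he
  have h1 := fib_aux hB hDt hD hp hp2 S hS h hh e he (Icc 1 n) (Finset.Subset.refl _)
  rw [← add_assoc, ← add_assoc] at h1
  refine h1.trans (Finset.card_le_card ?_)
  intro x hx
  rw [mem_cls] at hx ⊢
  exact sums_mono (Finset.filter_subset _ _) hx

end

end Pool.Agent.Lib.MP_02fec8_nt
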