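import Mathlib
import Pool.Agent.Lib.MP_02fec8_nt.Defs
import Pool.Agent.Lib.MP_02fec8_nt.Kap
import Pool.Agent.Lib.MP_02fec8_nt.Fib

set_option autoImplicit false

namespace Pool.Agent.Lib.MP_02fec8_nt

open Finset

lemma zsf_subset {G : Type*} [AddCommGroup G] [DecidableEq G] {S T : Finset G} (hS : ZSF S)
    (h : T ⊆ S) : ZSF T := fun U hU hn => hS U (hU.trans h) hn

lemma half_ne_zero (n : ℕ) : ((n + 1 : ℕ) : ZMod (2 * n + 2)) ≠ 0 := by
  intro h
  have h1 := (kap_eq_zero n ((n + 1 : ℕ) : ZMod (2 * n + 2))).2 h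
  have h2 := (kap_eq_half n ((n + 1 : ℕ) : ZMod (2 * n + 2))).2 rfl
  omega

lemma mid_ne_zero (n i : ℕ) (h1 : 1 ≤ i) (h2 : i ≤ n) : (i : ZMod (2 * n + 2)) ≠ 0 := by
  intro h
  have h3 := (kap_eq_zero n (i : ZMod (2 * n + 2))).2 h
  have h4 := (kap_eq_mid n (i : ZMod (2 * n + 2)) i h1 h2).2 (Or.inl rfl)
  omega

lemma cls_filter_ne {c p : ℕ} (S : Finset (ZMod c × ZMod p)) (j : ZMod c) (hj : j ≠ 0) :
    cls (S.filter (fun x => x.1 ≠ 0)) j = cls S j := by
  ext x
  rw [mem_cls, mem_cls, Finset.mem_filter]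
  constructor
  · exact fun h => h.1
  · exact fun h => ⟨h, hj⟩

lemma cls_filter_zero {c p : ℕ} (S : Finset (ZMod c × ZMod p)) :
    cls (S.filter (fun x => x.1 ≠ 0)) 0 = ∅ := by
  ext x
  rw [mem_cls, Finset.mem_filter]
  simp

theorem star (hB : TypeBStmt) (hF : FibStmt) : StarStmt := by
  classical
  intro n p hp hp2 S hS h hh e he hidx
  haveI : Fact p.Prime := ⟨hp⟩
  set S' := S.filter (fun x => x.1 ≠ 0) with hS'
  have hhalf : cls S' ((n + 1 : ℕ) : ZMod (2 * n + 2)) = cls S ((n + 1 : ℕ) : ZMod (2 * n + 2)) :=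
    cls_filter_ne S _ (half_ne_zero n)
  have htt : ∀ i ∈ Icc 1 n, tt S' i = tt S i := by
    intro i hi
    rw [Finset.mem_Icc] at hi
    unfold tt
    rw [cls_filter_ne S _ (neg_ne_zero.2 (mid_ne_zero n i hi.1 hi.2))]
  have hwt : ∀ i ∈ Icc 1 n, wt S' i = wt S i := by
    intro i hi
    rw [Finset.mem_Icc] at hi
    unfold wt
    rw [cls_filter_ne S _ (neg_ne_zero.2 (mid_ne_zero n i hi.1 hi.2)),
      cls_filter_ne S _ (mid_ne_zero n i hi.1 hi.2)]
  have h1 := hF n p hp hp2 S' (zsf_subset hS (Finset.filter_subset _ _)) h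
    (fun i hi => by rw [hwt i hi]; exact hh i hi) e (by rw [hhalf]; exact he)
  have hidx' : (∑ i ∈ Icc 1 n, (i : ZMod (2 * n + 2)) *
      ((h i : ZMod (2 * n + 2)) - (tt S' i : ℕ))
      + (e : ZMod (2 * n + 2)) * ((n + 1 : ℕ) : ZMod (2 * n + 2))) = 0 := by
    rw [← hidx]
    congr 1
    apply Finset.sum_congr rfl
    intro i hi
    rw [htt i hi]
  have hsum' : ∑ i ∈ Icc 1 n, h i * (wt S' i - h i) = ∑ i ∈ Icc 1 n, h i * (wt S i - h i) := by
    apply Finset.sum_congr rfl
    intro i hi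
    rw [hwt i hi]
  rw [hidx', hsum', hhalf, cls_filter_zero] at h1
  simp only [Finset.card_empty, zero_mul, Nat.zero_div, add_zero] at h1
  have h2 := hB p hp hp2 (cls S 0) (cls_zero_cond hp hp2 S hS)
  set X := (sums (cls S 0)).image (fun y => -y) with hX
  have hXc : X.card = (sums (cls S 0)).card := Finset.card_image_of_injective _ neg_injective
  set Y := cls (sums S') 0 with hY
  have hXY : X ∩ Y ⊆ {0} := by
    intro z hz
    rw [Finset.mem_inter, hX, Finset.mem_image] at hz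
    obtain ⟨⟨x, hx, rfl⟩, hz2⟩ := hz
    rw [Finset.mem_singleton]
    rw [mem_sums] at hx
    obtain ⟨U, hU, hUx⟩ := hx
    rw [hY, mem_cls, mem_sums] at hz2
    obtain ⟨V, hV, hVx⟩ := hz2
    set U' := U.image (fun y => ((0 : ZMod (2 * n + 2)), y)) with hU'
    have hU's : ∑ u ∈ U', u = (0, x) := by
      rw [hU', Finset.sum_image (by intro a _ b _ h; exact (Prod.ext_iff.1 h).2)]
      apply Prod.ext
      · rw [Prod.fst_sum]; simp
      · rw [Prod.snd_sum]; exact hUx
    have hd : Disjoint U' V := by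
      rw [Finset.disjoint_left]
      intro u hu hu'
      rw [hU', Finset.mem_image] at hu
      obtain ⟨y, _, rfl⟩ := hu
      have := hV hu'
      rw [hS', Finset.mem_filter] at this
      exact this.2 rfl
    by_cases hne : (U' ∪ V).Nonempty
    · exfalso
      refine hS (U' ∪ V) ?_ hne ?_
      · apply Finset.union_subset
        · intro u hu
          rw [hU', Finset.mem_image] at hu
          obtain ⟨y, hy, rfl⟩ := hu
          exact (mem_cls S 0 y).1 (hU hy)
        · exact hV.trans (Finset.filter_subset _ _)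
      · rw [Finset.sum_union hd, hU's, hVx]
        apply Prod.ext <;> simp
    · rw [Finset.not_nonempty_iff_eq_empty, Finset.union_eq_empty] at hne
      have : x = 0 := by
        have h3 := hU's
        rw [hne.1, Finset.sum_empty] at h3
        exact (Prod.ext_iff.1 h3).2.symm
      rw [this, neg_zero]
  have hcard : X.card + Y.card ≤ p + 1 := by
    rw [← Finset.card_union_add_card_inter]
    have h3 := Finset.card_le_card hXY
    have h4 : (X ∪ Y).card ≤ p := by
      have := Finset.card_le_univ (X ∪ Y)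
      rwa [ZMod.card] at this
    rw [Finset.card_singleton] at h3
    omega
  have hp2' := hp.two_le
  rw [← hXc] at h2
  by_cases hA : 1 + (cls S 0).card * ((cls S 0).card + 1) / 2 ≤ p
  · by_cases hFF : 1 + ((cls S ((n + 1 : ℕ) : ZMod (2 * n + 2))).card *
        ((cls S ((n + 1 : ℕ) : ZMod (2 * n + 2))).card - 1) / 2
      + ∑ i ∈ Icc 1 n, h i * (wt S i - h i)) ≤ p
    · left
      rw [min_eq_right hA] at h2
      rw [add_assoc, min_eq_right hFF] at h1
      omega
    · right; right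
      push Not at hFF
      rw [min_eq_right hA] at h2
      rw [add_assoc, min_eq_left hFF.le] at h1
      have h5 : (cls S 0).card * ((cls S 0).card + 1) / 2 = 0 := by omega
      by_contra h6
      have h7 : 1 ≤ (cls S 0).card := by omega
      have h8 : 1 * (1 + 1) ≤ (cls S 0).card * ((cls S 0).card + 1) :=
        Nat.mul_le_mul h7 (by omega)
      omega
  · right; left
    push Not at hA
    rw [min_eq_left hA.le] at h2
    rw [add_assoc] at h1
    have h5 : Y.card ≤ 1 := by omega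
    have h6 : min p (1 + ((cls S ((n + 1 : ℕ) : ZMod (2 * n + 2))).card *
        ((cls S ((n + 1 : ℕ) : ZMod (2 * n + 2))).card - 1) / 2
      + ∑ i ∈ Icc 1 n, h i * (wt S i - h i))) ≤ 1 := h1.trans h5
    omega

theorem star3 (hF : FibStmt) : Star3Stmt := by
  classical
  intro n p hp hp2 S hS v hv h hh e he hidx
  haveI : Fact p.Prime := ⟨hp⟩
  have h1 := hF n p hp hp2 (S.erase v) (zsf_subset hS (Finset.erase_subset _ _)) h hh e he
  rw [hidx] at h1
  have h2 : (-v).2 ∉ cls (sums (S.erase v)) (-v.1) := by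
    intro h3
    rw [mem_cls, mem_sums] at h3
    obtain ⟨T, hT, hTv⟩ := h3
    have hvT : v ∉ T := fun h => by simpa using hT h
    refine hS (insert v T) ?_ ⟨v, Finset.mem_insert_self _ _⟩ ?_
    · intro u hu
      rw [Finset.mem_insert] at hu
      rcases hu with rfl | hu
      · exact hv
      · exact Finset.mem_of_mem_erase (hT hu)
    · rw [Finset.sum_insert hvT, hTv]
      apply Prod.ext <;> simp
  have h3 : (cls (sums (S.erase v)) (-v.1)).card < p := by
    have h4 : cls (sums (S.erase v)) (-v.1) ⊂ Finset.univ := by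
      rw [Finset.ssubset_univ_iff]
      intro h5
      apply h2
      rw [h5]
      exact Finset.mem_univ _
    have := Finset.card_lt_card h4
    rwa [Finset.card_univ, ZMod.card] at this
  omega

lemma card_cls_erase_same {c p : ℕ} (S : Finset (ZMod c × ZMod p)) (v : ZMod c × ZMod p)
    (hv : v ∈ S) (j : ZMod c) (hj : v.1 = j) :
    (cls (S.erase v) j).card + 1 = (cls S j).card := by
  classical
  have h1 : cls (S.erase v) j = (cls S j).erase v.2 := by
    ext x
    rw [mem_cls, Finset.mem_erase, Finset.mem_erase, mem_cls]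
    constructor
    · rintro ⟨h, h'⟩
      refine ⟨?_, h'⟩
      intro h3
      exact h (Prod.ext hj.symm h3)
    · rintro ⟨h, h'⟩
      refine ⟨?_, h'⟩
      intro h3
      exact h (Prod.ext_iff.1 h3).2
  have h2 : v.2 ∈ cls S j := by
    rw [mem_cls, ← hj]; exact hv
  rw [h1, Finset.card_erase_of_mem h2]
  have := Finset.card_pos.2 ⟨_, h2⟩
  omega

lemma cls_erase_ne {c p : ℕ} (S : Finset (ZMod c × ZMod p)) (v : ZMod c × ZMod p)
    (j : ZMod c) (hj : v.1 ≠ j) : cls (S.erase v) j = cls S j := by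
  classical
  ext x
  rw [mem_cls, Finset.mem_erase, mem_cls]
  constructor
  · exact fun h => h.2
  · intro h
    refine ⟨?_, h⟩
    intro h3
    exact hj (Prod.ext_iff.1 h3).1.symm

theorem two (hst : StarStmt) (hst3 : Star3Stmt) (hsp : SplitStmt) : TwoStmt := by
  classical
  intro p hp hp2 S hS
  have hp3 : 3 ≤ p := by
    have := hp.two_le
    omega
  have h1 := hst 0 p hp hp2 S hS (fun _ => 0) (by simp) 0 (Or.inl rfl) (by simp)
  have h2 := hsp 0 p S
  have hI : Icc 1 0 = (∅ : Finset ℕ) := rfl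
  rw [hI] at h1 h2
  simp only [Finset.sum_empty, add_zero] at h1 h2
  have hev : ∀ s : ℕ, 2 * (s * (s + 1) / 2) = s * (s + 1) := fun s =>
    Nat.mul_div_cancel' (Nat.even_mul_succ_self s).two_dvd
  have hev' : ∀ s : ℕ, 2 * (s * (s - 1) / 2) = s * (s - 1) := by
    intro s
    apply Nat.mul_div_cancel'
    rcases s with _ | r
    · simp
    · simp only [Nat.add_sub_cancel]
      rw [mul_comm]
      exact (Nat.even_mul_succ_self r).two_dvd
  -- removing an element over `0`
  have hE0 : 1 ≤ (cls S (0 : ZMod (2 * 0 + 2))).card →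
      4 + ((cls S (0 : ZMod (2 * 0 + 2))).card - 1) * (cls S (0 : ZMod (2 * 0 + 2))).card ≤
        2 * p := by
    intro ha
    obtain ⟨x, hx⟩ := Finset.card_pos.1 ha
    rw [mem_cls] at hx
    have h3 := hst3 0 p hp hp2 S hS _ hx (fun _ => 0) (by simp) 0 (Or.inl rfl) (by simp)
    have h4 := card_cls_erase_same S _ hx 0 rfl
    have h5 := hev (cls (S.erase ((0 : ZMod (2 * 0 + 2)), x)) 0).card
    have h6 : (cls S (0 : ZMod (2 * 0 + 2))).card - 1 =
      (cls (S.erase ((0 : ZMod (2 * 0 + 2)), x)) 0).card := by omega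
    rw [h6, ← h4]
    rw [← h5]
    omega
  have hE1 : 2 ≤ (cls S ((0 + 1 : ℕ) : ZMod (2 * 0 + 2))).card →
      4 + ((cls S ((0 + 1 : ℕ) : ZMod (2 * 0 + 2))).card - 1) *
        ((cls S ((0 + 1 : ℕ) : ZMod (2 * 0 + 2))).card - 2) ≤ 2 * p := by
    intro hb
    obtain ⟨x, hx⟩ := Finset.card_pos.1 (lt_of_lt_of_le Nat.zero_lt_two hb)
    rw [mem_cls] at hx
    have h4 := card_cls_erase_same S _ hx ((0 + 1 : ℕ) : ZMod (2 * 0 + 2)) rfl
    have h3 := hst3 0 p hp hp2 S hS _ hx (fun _ => 0) (by simp) 1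
      (Or.inr ⟨rfl, Finset.card_pos.1 (by omega)⟩) (by
        simp only [Nat.cast_one, one_mul]
        rw [hI, Finset.sum_empty, zero_add]
        decide)
    have h5 := hev' (cls (S.erase (((0 + 1 : ℕ) : ZMod (2 * 0 + 2)), x))
      ((0 + 1 : ℕ) : ZMod (2 * 0 + 2))).card
    have h6 : (cls S ((0 + 1 : ℕ) : ZMod (2 * 0 + 2))).card - 1 =
      (cls (S.erase (((0 + 1 : ℕ) : ZMod (2 * 0 + 2)), x))
      ((0 + 1 : ℕ) : ZMod (2 * 0 + 2))).card := by omega
    have h7 : (cls S ((0 + 1 : ℕ) : ZMod (2 * 0 + 2))).card - 2 =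
      (cls (S.erase (((0 + 1 : ℕ) : ZMod (2 * 0 + 2)), x))
      ((0 + 1 : ℕ) : ZMod (2 * 0 + 2))).card - 1 := by omega
    rw [h6, h7, ← h5]
    omega
  change S.card ^ 2 + 3 ≤ 4 * p
  rw [h2]
  set a := (cls S (0 : ZMod (2 * 0 + 2))).card with ha
  set b := (cls S ((0 + 1 : ℕ) : ZMod (2 * 0 + 2))).card with hb
  have ea := hev a
  have eb := hev' b
  rcases h1 with h1 | h1 | h1
  · -- main case
    have h3 : a * (a + 1) + b * (b - 1) + 2 ≤ 2 * p := by omega
    rcases Nat.eq_zero_or_pos b with hb0 | hb0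
    · rw [hb0] at h3 ⊢
      simp only [zero_mul, add_zero] at h3 ⊢
      nlinarith [Nat.zero_le a]
    · obtain ⟨r, hr⟩ : ∃ r, b = r + 1 := ⟨b - 1, by omega⟩
      rw [hr] at h3 ⊢
      simp only [Nat.add_sub_cancel] at h3
      zify at h3 ⊢
      nlinarith [sq_nonneg ((a : ℤ) - r)]
  · have hb1 : b ≤ 1 := by
      by_contra hb2
      push Not at hb2
      have h3 : 2 * 1 ≤ b * (b - 1) := Nat.mul_le_mul (by omega) (by omega)
      omega
    rcases Nat.eq_zero_or_pos a with ha0 | ha0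
    · rw [ha0]
      have : (0 + b) ^ 2 ≤ 1 := by
        have : 0 + b ≤ 1 := by omega
        calc (0 + b) ^ 2 ≤ 1 ^ 2 := Nat.pow_le_pow_left this 2
          _ = 1 := by norm_num
      omega
    · have h4 := hE0 ha0
      obtain ⟨r, hr⟩ : ∃ r, a = r + 1 := ⟨a - 1, by omega⟩
      rw [hr] at h4 ⊢
      simp only [Nat.add_sub_cancel] at h4
      have h5 : (r + 1 + b) ^ 2 ≤ (r + 2) ^ 2 := Nat.pow_le_pow_left (by omega) 2
      have h6 : (r + 2) ^ 2 + 3 ≤ 4 * p := by
        zify at h4 ⊢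
        nlinarith [sq_nonneg ((r : ℤ) - 1)]
      omega
  · rw [h1, zero_add]
    rcases Nat.lt_or_ge b 2 with hb2 | hb2
    · have : b ^ 2 ≤ 1 := by
        calc b ^ 2 ≤ 1 ^ 2 := Nat.pow_le_pow_left (by omega) 2
          _ = 1 := by norm_num
      omega
    · have h4 := hE1 hb2
      obtain ⟨r, hr⟩ : ∃ r, b = r + 2 := ⟨b - 2, by omega⟩
      rw [hr] at h4 ⊢
      have e1 : r + 2 - 1 = r + 1 := by omega
      have e2 : r + 2 - 2 = r := by omega
      rw [e1, e2] at h4
      zify at h4 ⊢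
      nlinarith [sq_nonneg ((r : ℤ) - 1)]

end Pool.Agent.Lib.MP_02fec8_nt
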