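import Mathlib
import Pool.Agent.Lib.MP_02fec8_nt.Defs
import Pool.Agent.Lib.MP_02fec8_nt.Kap

set_option autoImplicit false

namespace Pool.Agent.Lib.MP_02fec8_nt

open Finset

theorem vecA : VecAStmt := by
  classical
  intro n hn w t hw
  set c := 2 * n + 2 with hc
  set μ : ZMod c := ∑ i ∈ Icc 1 n, (i : ZMod c) * (((w i / 2 : ℕ) : ZMod c) - (t i : ℕ)) with hμ
  set ν := (-μ).val with hν
  have hνlt : ν < c := ZMod.val_lt _
  have hνcast : ((ν : ℕ) : ZMod c) = -μ := by
    rw [hν, ZMod.natCast_val, ZMod.cast_id]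
  set e := ν / (n + 1) with he
  set r := ν % (n + 1) with hr
  have her : ν = (n + 1) * e + r := (Nat.div_add_mod ν (n + 1)).symm
  have hrn : r < n + 1 := Nat.mod_lt _ (by omega)
  have he2 : e < 2 := by
    rw [he, Nat.div_lt_iff_lt_mul (by omega)]
    omega
  set h : ℕ → ℕ := fun i => if i = r then w i / 2 + 1 else w i / 2 with hh
  refine ⟨h, e, Nat.le_one_iff_eq_zero_or_eq_one.1 (Nat.lt_succ_iff.1 he2), ?_, ?_, ?_, ?_⟩
  · intro i hi
    have := hw i hi
    simp only [hh]
    split_ifs <;> omega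
  · have h1 : ∑ i ∈ Icc 1 n, (i : ZMod c) * ((h i : ZMod c) - (t i : ℕ)) =
        μ + ((r : ℕ) : ZMod c) := by
      have h2 : ∀ i ∈ Icc 1 n, (i : ZMod c) * ((h i : ZMod c) - (t i : ℕ)) =
          (i : ZMod c) * (((w i / 2 : ℕ) : ZMod c) - (t i : ℕ)) +
          (if i = r then (i : ZMod c) else 0) := by
        intro i _
        simp only [hh]
        split_ifs with h3
        · push_cast
          ring
        · ring
      rw [Finset.sum_congr rfl h2, Finset.sum_add_distrib, ← hμ]
      congr 1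
      rw [Finset.sum_ite_eq']
      split_ifs with h3
      · rfl
      · rw [Finset.mem_Icc] at h3
        have : r = 0 := by omega
        rw [this]; simp
    rw [h1]
    have h4 : ((ν : ℕ) : ZMod c) = (e : ZMod c) * ((n + 1 : ℕ) : ZMod c) + ((r : ℕ) : ZMod c) := by
      rw [her]
      push_cast
      ring
    rw [h4] at hνcast
    have h5 : μ = -((e : ZMod c) * ((n + 1 : ℕ) : ZMod c) + ((r : ℕ) : ZMod c)) := by
      rw [hνcast, neg_neg]
    rw [h5]
    ring
  · have h2 : ∀ i ∈ Icc 1 n, ((w i : ℤ) - 2 * (h i : ℤ)) ^ 2 ≤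
        1 + (if i = r then (3 : ℤ) else 0) := by
      intro i _
      simp only [hh]
      split_ifs with h3
      · have h4 : (w i : ℤ) - 2 * ((w i / 2 + 1 : ℕ) : ℤ) = (w i % 2 : ℕ) - 2 := by
          push_cast; omega
        rw [h4]
        have h5 : w i % 2 = 0 ∨ w i % 2 = 1 := by omega
        rcases h5 with h5 | h5 <;> rw [h5] <;> norm_num
      · have h4 : (w i : ℤ) - 2 * ((w i / 2 : ℕ) : ℤ) = (w i % 2 : ℕ) := by
          push_cast; omega
        rw [h4]
        have h5 : w i % 2 = 0 ∨ w i % 2 = 1 := by omega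
        rcases h5 with h5 | h5 <;> rw [h5] <;> norm_num
    refine (Finset.sum_le_sum h2).trans ?_
    rw [Finset.sum_add_distrib, Finset.sum_const, Nat.card_Icc, Finset.sum_ite_eq']
    simp only [Nat.add_sub_cancel, nsmul_eq_mul, mul_one]
    split_ifs <;> omega
  · intro i _
    simp only [hh]
    rw [abs_le]
    split_ifs with h3
    · push_cast
      constructor <;> omega
    · push_cast
      constructor <;> omega

end Pool.Agent.Lib.MP_02fec8_nt
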