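import Mathlib
import Pool.Agent.Lib.MP_02fec8_nt.Defs

set_option autoImplicit false

namespace Pool.Agent.Lib.MP_02fec8_nt

open Finset

/-- Reduction by the Erdos-Ginzburg-Ziv theorem. -/
lemma egz_reduce (c : ℕ) (hc : 1 ≤ c) (P : Finset ℕ) : ∀ (N : ℕ) (γ : ℕ → ℕ),
    ∑ i ∈ P, γ i = N → ∃ γ' : ℕ → ℕ, ∑ i ∈ P, γ' i ≤ 2 * c - 2 ∧
      ∑ i ∈ P, (i : ZMod c) * (γ' i : ZMod c) = ∑ i ∈ P, (i : ZMod c) * (γ i : ZMod c) := by
  classical
  intro N
  induction N using Nat.strong_induction_on with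
  | _ N ih =>
    intro γ hγ
    by_cases hN : N ≤ 2 * c - 2
    · exact ⟨γ, by omega, rfl⟩
    · push Not at hN
      set s : Finset (Σ _ : ℕ, ℕ) := P.sigma (fun i => range (γ i)) with hs
      have hsc : s.card = N := by
        rw [hs, Finset.card_sigma, ← hγ]
        simp
      obtain ⟨t, hts, htc, ht0⟩ := ZMod.erdos_ginzburg_ziv (n := c) (s := s)
        (fun x => ((x.1 : ℕ) : ZMod c)) (by omega)
      set v : ℕ → ℕ := fun i => (t.filter (fun x => x.1 = i)).card with hv
      have hvγ : ∀ i, v i ≤ γ i := by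
        intro i
        have h1 : t.filter (fun x => x.1 = i) ⊆
            (range (γ i)).image (fun k => (⟨i, k⟩ : Σ _ : ℕ, ℕ)) := by
          intro x hx
          rw [Finset.mem_filter] at hx
          have h2 := hts hx.1
          rw [hs, Finset.mem_sigma] at h2
          rw [Finset.mem_image]
          obtain ⟨x1, x2⟩ := x
          simp only at hx h2 ⊢
          obtain ⟨_, rfl⟩ := hx
          exact ⟨x2, h2.2, rfl⟩
        calc v i ≤ _ := Finset.card_le_card h1
          _ ≤ (range (γ i)).card := Finset.card_image_le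
          _ = γ i := by simp
      have hmaps : ∀ x ∈ t, x.1 ∈ P := by
        intro x hx
        have h2 := hts hx
        rw [hs, Finset.mem_sigma] at h2
        exact h2.1
      have hvsum : ∑ i ∈ P, v i = c := by
        rw [← htc]
        exact (Finset.card_eq_sum_card_fiberwise hmaps).symm
      have hv0 : ∑ i ∈ P, (i : ZMod c) * (v i : ZMod c) = 0 := by
        rw [← ht0, ← Finset.sum_fiberwise_of_maps_to hmaps]
        apply Finset.sum_congr rfl
        intro i _
        rw [Finset.sum_congr rfl (g := fun _ => (i : ZMod c))]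
        · rw [Finset.sum_const, nsmul_eq_mul, mul_comm]
        · intro x hx
          rw [(Finset.mem_filter.1 hx).2]
      have hsub : ∑ i ∈ P, (γ i - v i) = N - c := by
        have h3 : ∑ i ∈ P, (γ i - v i) + ∑ i ∈ P, v i = ∑ i ∈ P, γ i := by
          rw [← Finset.sum_add_distrib]
          exact Finset.sum_congr rfl (fun i _ => Nat.sub_add_cancel (hvγ i))
        omega
      obtain ⟨γ', h1, h2⟩ := ih (N - c) (by omega) (fun i => γ i - v i) hsub
      refine ⟨γ', h1, h2.trans ?_⟩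
      have h4 : ∀ i ∈ P, (i : ZMod c) * ((γ i - v i : ℕ) : ZMod c) =
          (i : ZMod c) * (γ i : ZMod c) - (i : ZMod c) * (v i : ZMod c) := by
        intro i _
        rw [Nat.cast_sub (hvγ i)]
        ring
      rw [Finset.sum_congr rfl h4, Finset.sum_sub_distrib, hv0, sub_zero]

theorem vecB : VecBStmt := by
  classical
  intro n hn P hP w t g ht hw j hj
  set c := 2 * n + 2 with hc
  obtain ⟨γ, hγ1, hγ2⟩ := egz_reduce c (by omega) P _
    (fun i => ((g i : ZMod c) - ((w i / 2 : ℕ) : ZMod c)).val) rfl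
  have hγle : ∀ i ∈ P, γ i ≤ 2 * c - 2 := fun i hi =>
    (Finset.single_le_sum (f := γ) (fun _ _ => Nat.zero_le _) hi).trans hγ1
  have hγ3 : ∀ i ∈ P, (i : ZMod c) *
      ((((g i : ZMod c) - ((w i / 2 : ℕ) : ZMod c)).val : ℕ) : ZMod c) =
      (i : ZMod c) * ((g i : ZMod c) - ((w i / 2 : ℕ) : ZMod c)) := by
    intro i _
    rw [ZMod.natCast_val, ZMod.cast_id]
  rw [Finset.sum_congr rfl hγ3] at hγ2
  refine ⟨fun i => if i ∈ P then w i / 2 + γ i else t i, ?_, ?_, ?_⟩
  · intro i hi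
    simp only
    split_ifs with h
    · have := hγle i h
      have := hw i h
      omega
    · exact ht i hi
  · have h1 : ∑ i ∈ Icc 1 n, (i : ZMod c) *
        (((if i ∈ P then w i / 2 + γ i else t i : ℕ) : ZMod c) - (t i : ℕ)) =
        ∑ i ∈ P, (i : ZMod c) * (((w i / 2 + γ i : ℕ) : ZMod c) - (t i : ℕ)) := by
      rw [← Finset.sum_subset hP]
      · apply Finset.sum_congr rfl
        intro i hi
        rw [if_pos hi]
      · intro i _ hi
        rw [if_neg hi]
        ring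
    rw [h1, ← hj]
    have h2 : ∀ i ∈ P, (i : ZMod c) * (((w i / 2 + γ i : ℕ) : ZMod c) - (t i : ℕ)) =
        (i : ZMod c) * (((w i / 2 : ℕ) : ZMod c) - (t i : ℕ)) +
        (i : ZMod c) * (γ i : ZMod c) := by
      intro i _
      push_cast
      ring
    rw [Finset.sum_congr rfl h2, Finset.sum_add_distrib, hγ2, ← Finset.sum_add_distrib]
    apply Finset.sum_congr rfl
    intro i _
    ring
  · have h1 : ∀ i ∈ P, ((w i : ℤ) -
        2 * ((if i ∈ P then w i / 2 + γ i else t i : ℕ) : ℤ)) ^ 2 ≤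
        1 + 4 * ((γ i : ℤ)) ^ 2 := by
      intro i hi
      rw [if_pos hi]
      have h4 : (w i : ℤ) - 2 * ((w i / 2 + γ i : ℕ) : ℤ) = (w i % 2 : ℕ) - 2 * (γ i : ℤ) := by
        push_cast; omega
      rw [h4]
      have h5 : w i % 2 = 0 ∨ w i % 2 = 1 := by omega
      have h6 : (0 : ℤ) ≤ γ i := Int.natCast_nonneg _
      rcases h5 with h5 | h5 <;> rw [h5] <;> push_cast <;> nlinarith
    refine (Finset.sum_le_sum h1).trans ?_
    rw [Finset.sum_add_distrib, ← Finset.mul_sum]
    have h2 : ∑ i ∈ P, (γ i : ℤ) ^ 2 ≤ (∑ i ∈ P, (γ i : ℤ)) ^ 2 :=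
      Finset.sum_sq_le_sq_sum_of_nonneg (fun i _ => Int.natCast_nonneg _)
    have h3 : ∑ i ∈ P, (γ i : ℤ) ≤ 2 * (c : ℤ) - 2 := by
      have : ((∑ i ∈ P, γ i : ℕ) : ℤ) ≤ ((2 * c - 2 : ℕ) : ℤ) := by exact_mod_cast hγ1
      rw [Nat.cast_sum] at this
      refine this.trans ?_
      omega
    have h3' : 0 ≤ ∑ i ∈ P, (γ i : ℤ) := Finset.sum_nonneg (fun i _ => Int.natCast_nonneg _)
    have h4 : (P.card : ℤ) ≤ n := by
      have := Finset.card_le_card hP
      rw [Nat.card_Icc] at this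
      simp only [Nat.add_sub_cancel] at this
      exact_mod_cast this
    have h5 : ∑ i ∈ P, (1 : ℤ) = P.card := by simp
    rw [h5]
    have h6 : (∑ i ∈ P, (γ i : ℤ)) ^ 2 ≤ (2 * (c : ℤ) - 2) ^ 2 := pow_le_pow_left₀ h3' h3 2
    have h7 : (c : ℤ) = 2 * n + 2 := by rw [hc]; push_cast; ring
    have h8 : (1 : ℤ) ≤ n := by exact_mod_cast hn
    rw [h7] at h6 ⊢
    push_cast
    nlinarith

end Pool.Agent.Lib.MP_02fec8_nt
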