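import Mathlib
import Pool.Agent.Lib.MP_02fec8_nt.Defs
import Pool.Agent.Lib.MP_02fec8_nt.Core
import Pool.Agent.Lib.MP_02fec8_nt.TypeB
import Pool.Agent.Lib.MP_02fec8_nt.TypeD
import Pool.Agent.Lib.MP_02fec8_nt.Ddsh
import Pool.Agent.Lib.MP_02fec8_nt.Kap
import Pool.Agent.Lib.MP_02fec8_nt.Fib
import Pool.Agent.Lib.MP_02fec8_nt.Star
import Pool.Agent.Lib.MP_02fec8_nt.VecA
import Pool.Agent.Lib.MP_02fec8_nt.VecB
import Pool.Agent.Lib.MP_02fec8_nt.NumA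
import Pool.Agent.Lib.MP_02fec8_nt.CaseA
import Pool.Agent.Lib.MP_02fec8_nt.CaseB
import Pool.Agent.Lib.MP_02fec8_nt.Bound
import Pool.Agent.Lib.MP_02fec8_nt.Cons

set_option autoImplicit false

namespace Pool.Agent.Lib.MP_02fec8_nt

open Finset

section

variable (hnvb : NVBStmt) (hnvd : NVDStmt) (hnvh : NVHStmt)
include hnvb hnvd hnvh

theorem star_fin : StarStmt :=
  star (typeB core hnvb) (fib (typeB core hnvb) (typeD core hnvd (typeB core hnvb))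
    (ddsh core hnvh))

theorem star3_fin : Star3Stmt :=
  star3 (fib (typeB core hnvb) (typeD core hnvd (typeB core hnvb)) (ddsh core hnvh))

theorem two_fin : TwoStmt := two (star_fin hnvb hnvd hnvh) (star3_fin hnvb hnvd hnvh) split

theorem caseA_fin : CaseAStmt :=
  caseA (star_fin hnvb hnvd hnvh) (star3_fin hnvb hnvd hnvh) vecA numA split

theorem caseB_fin : CaseBStmt := caseB (star3_fin hnvb hnvd hnvh) vecB split

theorem bound_fin : BoundStmt :=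
  bound (two_fin hnvb hnvd hnvh) (caseA_fin hnvb hnvd hnvh) (caseB_fin hnvb hnvd hnvh) crt katt

theorem twoP_fin : ∀ p : ℕ, p.Prime → p ≠ 2 →
    kmax (2 * p) = smax (2 * p) ∧ kmax (2 * p) = Nat.sqrt (4 * p - 3) := by
  intro p hp hp2
  have hp3 : 3 ≤ p := by
    have := hp.two_le
    omega
  have h1 := (cons (2 * p) ⟨p, by ring⟩ (by omega)).2.2 (by
    intro S hS
    have hcop : Nat.Coprime 2 p := by
      rw [Nat.coprime_primes Nat.prime_two hp]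
      exact fun h => hp2 h.symm
    obtain ⟨S', hS', hc⟩ := crt 2 p hcop S hS
    have := two_fin hnvb hnvd hnvh p hp hp2 S' hS'
    rw [← hc]
    omega)
  refine ⟨h1.1, ?_⟩
  rw [h1.2]
  congr 1
  omega

end

theorem gap_fin (hb : BoundStmt) : ∀ c p : ℕ, Even c → 0 < c → p.Prime → 100 * c ^ 3 ≤ p →
    (∀ q : ℕ, q ^ 2 + 3 ≤ 2 * (c * p) ∨ 8 * (c * p) + c ^ 2 < 4 * q ^ 2 + 2 * c) →
    kmax (c * p) = smax (c * p) := by
  intro c p hce hc hp hcp hgap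
  have hc2 : 2 ≤ c := by
    obtain ⟨r, hr⟩ := hce
    omega
  have hp3 : 3 ≤ p := by
    have : 1 ≤ c ^ 3 := Nat.one_le_pow _ _ hc
    omega
  have hm6 : 6 ≤ c * p := by nlinarith
  have hk := hb c p hce hc hp hcp
  have hne : c * p ≠ 0 := by omega
  obtain ⟨S₀, hS₀, hS₀c⟩ := katt (c * p) hne
  have hk2 : kmax (c * p) ^ 2 + 3 ≤ 2 * (c * p) := by
    rcases hgap (kmax (c * p)) with h | h
    · exact h
    · omega
  have hcons := cons (c * p) (hce.mul_right p) hm6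
  apply le_antisymm _ hcons.1
  refine le_trans ?_ hcons.2.1
  rw [Nat.le_sqrt']
  omega

theorem succ_fin (hb : BoundStmt) : ∀ c p : ℕ, Even c → 0 < c → p.Prime → 100 * c ^ 3 ≤ p →
    kmax (c * p) ≤ smax (c * p) + 1 := by
  intro c p hce hc hp hcp
  have hc2 : 2 ≤ c := by
    obtain ⟨r, hr⟩ := hce
    omega
  have hp3 : 3 ≤ p := by
    have : 1 ≤ c ^ 3 := Nat.one_le_pow _ _ hc
    omega
  have hm6 : 6 ≤ c * p := by nlinarith
  have hk := hb c p hce hc hp hcp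
  have hcons := cons (c * p) (hce.mul_right p) hm6
  set q := Nat.sqrt (2 * (c * p) - 3) with hq
  have hq1 : 2 * (c * p) - 3 < (q + 1) ^ 2 := by
    have := Nat.lt_succ_sqrt' (2 * (c * p) - 3)
    rwa [← hq] at this
  have hqs : q ≤ smax (c * p) := hcons.2.1
  by_contra hcon
  push Not at hcon
  have hkq : q + 2 ≤ kmax (c * p) := by omega
  have h1 : (q + 2) ^ 2 ≤ kmax (c * p) ^ 2 := Nat.pow_le_pow_left hkq 2
  have h1' : 2 * (c * p) ≤ (q + 1) ^ 2 + 2 := by omega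
  have h2 : 8 * q + 2 * c ≤ c ^ 2 := by
    have e1 : (q + 2) ^ 2 = q ^ 2 + 4 * q + 4 := by ring
    have e2 : (q + 1) ^ 2 = q ^ 2 + 2 * q + 1 := by ring
    rw [e1] at h1
    rw [e2] at h1'
    omega
  have h3 : q ≤ c ^ 2 := by omega
  have h4 : (q + 1) ^ 2 ≤ (c ^ 2 + 1) ^ 2 := Nat.pow_le_pow_left (by omega) 2
  have h5 : c * (100 * c ^ 3) ≤ c * p := Nat.mul_le_mul_left c hcp
  have h6 : c * (100 * c ^ 3) = 100 * c ^ 4 := by ring
  have h7 : (c ^ 2 + 1) ^ 2 ≤ 4 * c ^ 4 := by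
    have : 1 ≤ c ^ 2 := Nat.one_le_pow _ _ hc
    calc (c ^ 2 + 1) ^ 2 ≤ (c ^ 2 + c ^ 2) ^ 2 := Nat.pow_le_pow_left (by omega) 2
      _ = 4 * c ^ 4 := by ring
  have h8 : 1 ≤ c ^ 4 := Nat.one_le_pow _ _ hc
  omega

end Pool.Agent.Lib.MP_02fec8_nt
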