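import Pool.Agent.Lib.MP_02fec8_nt.Defs

/-!
# MERT: Mertens' theorem and primes between `K x^{3/4}` and `x/2` (Paper 10)
-/

set_option autoImplicit false

namespace Pool.Agent.Lib.MP_02fec8_nt

open Finset

namespace Mert

/-- `∑_{p ≤ n} log p / p` -/
noncomputable def M (n : ℕ) : ℝ := ∑ p ∈ Nat.primesLE n, Real.log p / p

lemma log_fact (n : ℕ) : Real.log (n.factorial : ℝ) =
    ∑ p ∈ Nat.primesLE n, ((n.factorial.factorization p : ℕ) : ℝ) * Real.log p := by
  rw [Real.log_nat_eq_sum_factorization, Finsupp.sum]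
  apply Finset.sum_subset
  · intro p hp
    rw [Nat.support_factorization, Nat.mem_primeFactors] at hp
    rw [Nat.mem_primesLE]
    exact ⟨(Nat.Prime.dvd_factorial hp.1).mp hp.2.1, hp.1⟩
  · intro p _ hp
    rw [Finsupp.notMem_support_iff] at hp
    rw [hp]; simp

lemma log_prime_nonneg {n p : ℕ} (hp : p ∈ Nat.primesLE n) : 0 ≤ Real.log p := by
  rw [Nat.mem_primesLE] at hp
  exact Real.log_nonneg (by exact_mod_cast hp.2.one_lt.le)

lemma upper (n : ℕ) : (n : ℝ) * M n - Real.log 4 * n ≤ Real.log (n.factorial : ℝ) := by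
  have h1 : Chebyshev.theta n ≤ Real.log 4 * n := Chebyshev.theta_le_log4_mul_x (Nat.cast_nonneg n)
  rw [Chebyshev.theta_eq_sum_primesLE_log] at h1
  have h2 : (n : ℝ) * M n - ∑ p ∈ Nat.primesLE n, Real.log p ≤ Real.log (n.factorial : ℝ) := by
    rw [log_fact, M, Finset.mul_sum, ← Finset.sum_sub_distrib]
    apply Finset.sum_le_sum
    intro p hp
    have hp' := Nat.mem_primesLE.mp hp
    have : Fact p.Prime := ⟨hp'.2⟩
    have hp0 : (0 : ℝ) < p := by exact_mod_cast hp'.2.pos
    have h3 : n / p ≤ n.factorial.factorization p := by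
      rw [Nat.factorization_def _ hp'.2,
        padicValNat_factorial (b := Nat.log p n + 2) (by omega)]
      have h4 : (1 : ℕ) ∈ Ico 1 (Nat.log p n + 2) := by rw [mem_Ico]; omega
      have := Finset.single_le_sum (f := fun i => n / p ^ i) (fun _ _ => Nat.zero_le _) h4
      simpa using this
    have h4 : (n : ℝ) / p - 1 ≤ ((n.factorial.factorization p : ℕ) : ℝ) := by
      have h5 : (n : ℝ) / p < ((n / p : ℕ) : ℝ) + 1 := by
        have := Nat.lt_floor_add_one ((n : ℝ) / p)
        rwa [Nat.floor_div_eq_div] at this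
      have h6 : ((n / p : ℕ) : ℝ) ≤ ((n.factorial.factorization p : ℕ) : ℝ) := by
        exact_mod_cast h3
      linarith
    have h5 := mul_le_mul_of_nonneg_right h4 (log_prime_nonneg hp)
    calc (n : ℝ) * (Real.log p / p) - Real.log p = ((n : ℝ) / p - 1) * Real.log p := by
          field_simp
      _ ≤ _ := h5
  linarith

/-- a bound for `∑ log p / (p (p - 1))` -/
lemma exists_B : ∃ B : ℝ, 0 ≤ B ∧ ∀ n : ℕ,
    ∑ p ∈ Nat.primesLE n, Real.log p / ((p : ℝ) * (p - 1)) ≤ B := by
  have hs : Summable (fun n : ℕ => 4 * (1 / (n : ℝ) ^ (3 / 2 : ℝ))) :=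
    (Real.summable_one_div_nat_rpow.mpr (by norm_num)).mul_left 4
  refine ⟨∑' n : ℕ, 4 * (1 / (n : ℝ) ^ (3 / 2 : ℝ)), tsum_nonneg fun n => by positivity,
    fun n => ?_⟩
  refine le_trans (Finset.sum_le_sum ?_) (hs.sum_le_tsum (Nat.primesLE n)
    (fun i _ => by positivity))
  intro p hp
  have hp' := Nat.mem_primesLE.mp hp
  have h2 : (2 : ℝ) ≤ p := by exact_mod_cast hp'.2.two_le
  have h1 : Real.log p ≤ (p : ℝ) ^ (1 / 2 : ℝ) / (1 / 2) :=
    Real.log_le_rpow_div (by linarith) (by norm_num)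
  have h3 : (p : ℝ) ^ (3 / 2 : ℝ) * (p : ℝ) ^ (1 / 2 : ℝ) = (p : ℝ) ^ 2 := by
    rw [← Real.rpow_add (by linarith), ← Real.rpow_natCast]
    norm_num
  have hq : 0 < (p : ℝ) ^ (3 / 2 : ℝ) := Real.rpow_pos_of_pos (by linarith) _
  have hr : 0 < (p : ℝ) ^ (1 / 2 : ℝ) := Real.rpow_pos_of_pos (by linarith) _
  rw [mul_one_div, div_le_div_iff₀ (by nlinarith) hq]
  have h4 : Real.log p ≤ 2 * (p : ℝ) ^ (1 / 2 : ℝ) := by linarith
  calc Real.log p * (p : ℝ) ^ (3 / 2 : ℝ)
      ≤ 2 * (p : ℝ) ^ (1 / 2 : ℝ) * (p : ℝ) ^ (3 / 2 : ℝ) :=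
        mul_le_mul_of_nonneg_right h4 hq.le
    _ = 2 * (p : ℝ) ^ 2 := by rw [← h3]; ring
    _ ≤ 4 * ((p : ℝ) * (p - 1)) := by nlinarith

lemma lower {B : ℝ} (hB : ∀ n : ℕ,
    ∑ p ∈ Nat.primesLE n, Real.log p / ((p : ℝ) * (p - 1)) ≤ B) (n : ℕ) :
    Real.log (n.factorial : ℝ) ≤ n * M n + n * B := by
  refine le_trans ?_ (add_le_add_right (mul_le_mul_of_nonneg_left (hB n) (Nat.cast_nonneg n)) _)
  rw [log_fact, M, Finset.mul_sum, Finset.mul_sum, ← Finset.sum_add_distrib]
  apply Finset.sum_le_sum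
  intro p hp
  have hp' := Nat.mem_primesLE.mp hp
  have : Fact p.Prime := ⟨hp'.2⟩
  have h2 : (2 : ℝ) ≤ p := by exact_mod_cast hp'.2.two_le
  have h3 : (p - 1) * n.factorial.factorization p ≤ n := by
    rw [Nat.factorization_def _ hp'.2, sub_one_mul_padicValNat_factorial]
    exact Nat.sub_le _ _
  have h4 : ((p : ℝ) - 1) * ((n.factorial.factorization p : ℕ) : ℝ) ≤ n := by
    have : (((p - 1) * n.factorial.factorization p : ℕ) : ℝ) ≤ (n : ℝ) := by exact_mod_cast h3
    rw [Nat.cast_mul, Nat.cast_sub hp'.2.one_lt.le] at this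
    simpa using this
  have h5 : ((n.factorial.factorization p : ℕ) : ℝ) ≤ n / ((p : ℝ) - 1) := by
    rw [le_div_iff₀ (by linarith)]; linarith
  calc ((n.factorial.factorization p : ℕ) : ℝ) * Real.log p ≤ n / ((p : ℝ) - 1) * Real.log p :=
        mul_le_mul_of_nonneg_right h5 (log_prime_nonneg hp)
    _ = (n : ℝ) * (Real.log p / p) + n * (Real.log p / ((p : ℝ) * (p - 1))) := by
        have hp1 : (p : ℝ) - 1 ≠ 0 := by linarith
        have hp0 : (p : ℝ) ≠ 0 := by linarith
        field_simp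
        ring

/-- **Mertens' first theorem** -/
theorem mertens1 : ∃ C : ℝ, 0 ≤ C ∧ ∀ n : ℕ, 1 ≤ n → |M n - Real.log n| ≤ C := by
  obtain ⟨B, hB0, hB⟩ := exists_B
  have h4 : 0 ≤ Real.log 4 := Real.log_nonneg (by norm_num)
  refine ⟨Real.log 4 + 1 + B, by linarith, fun n hn => ?_⟩
  have hn0 : (0 : ℝ) < n := by exact_mod_cast hn
  have hup := upper n
  have hlo := lower hB n
  have h1 : Real.log (n.factorial : ℝ) ≤ n * Real.log n := by
    rw [← Real.log_pow]
    apply Real.log_le_log (by exact_mod_cast n.factorial_pos)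
    exact_mod_cast Nat.factorial_le_pow n
  have h2 : (n : ℝ) * Real.log n - n ≤ Real.log (n.factorial : ℝ) := by
    have h3 := Real.pow_div_factorial_le_exp (x := (n : ℝ)) hn0.le n
    have hf : (0 : ℝ) < (n.factorial : ℝ) := by exact_mod_cast n.factorial_pos
    have h5 := Real.log_le_log (by positivity) h3
    rw [Real.log_exp, Real.log_div (by positivity) hf.ne', Real.log_pow] at h5
    linarith
  rw [abs_le]
  constructor
  · have : (n : ℝ) * (-(Real.log 4 + 1 + B)) ≤ n * (M n - Real.log n) := by nlinarith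
    exact le_of_mul_le_mul_left this hn0
  · have : (n : ℝ) * (M n - Real.log n) ≤ n * (Real.log 4 + 1 + B) := by nlinarith
    exact le_of_mul_le_mul_left this hn0

lemma M_succ (z : ℕ) : M (z + 1) = M z +
    (if (z + 1).Prime then Real.log ((z + 1 : ℕ) : ℝ) / ((z + 1 : ℕ) : ℝ) else 0) := by
  unfold M
  rw [Nat.primesLE_eq_filter_range, Nat.primesLE_eq_filter_range, Finset.range_add_one,
    Finset.filter_insert]
  split_ifs with h
  · rw [Finset.sum_insert (by simp)]
    ring
  · simp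

open Classical in
/-- `∑_{y < p ≤ z} 1/p` -/
noncomputable def S (y z : ℕ) : ℝ := ∑ p ∈ (Ioc y z).filter Nat.Prime, (1 : ℝ) / p

lemma S_succ {y z : ℕ} (h : y ≤ z) : S y (z + 1) = S y z +
    (if (z + 1).Prime then (1 : ℝ) / ((z + 1 : ℕ) : ℝ) else 0) := by
  classical
  unfold S
  have h1 : Ioc y (z + 1) = insert (z + 1) (Ioc y z) := by
    ext i; simp only [mem_insert, mem_Ioc]; omega
  rw [h1, Finset.filter_insert]
  split_ifs with h
  · rw [Finset.sum_insert (by simp)]
    ring
  · simp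

lemma potential {C : ℝ} (hC : ∀ n : ℕ, 1 ≤ n → |M n - Real.log n| ≤ C) {y : ℕ} (hy : 2 ≤ y) :
    ∀ z : ℕ, y ≤ z → -(M y - Real.log y) / Real.log y - Real.log (Real.log y) -
      (C + 1) * (1 / Real.log y - 1 / Real.log z) ≤
      S y z - (M z - Real.log z) / Real.log z - Real.log (Real.log z) := by
  intro z hz
  induction z, hz using Nat.le_induction with
  | base =>
    have : S y y = 0 := by unfold S; simp
    rw [this]
    apply le_of_eq; ring
  | succ z hz ih =>
    obtain ⟨v, hv⟩ : ∃ v, v = Real.log (z : ℝ) := ⟨_, rfl⟩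
    obtain ⟨u, hu⟩ : ∃ u, u = Real.log ((z + 1 : ℕ) : ℝ) := ⟨_, rfl⟩
    have hz2 : (2 : ℝ) ≤ z := by exact_mod_cast hy.trans hz
    have hv0 : 0 < v := by rw [hv]; exact Real.log_pos (by linarith)
    have huv : v ≤ u := by
      rw [hv, hu]; exact Real.log_le_log (by linarith) (by push_cast; linarith)
    have hu0 : 0 < u := lt_of_lt_of_le hv0 huv
    have huv1 : u - v ≤ 1 := by
      rw [hu, hv, ← Real.log_div (by positivity) (by positivity)]
      have h1 : Real.log (((z + 1 : ℕ) : ℝ) / z) ≤ ((z + 1 : ℕ) : ℝ) / z - 1 :=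
        Real.log_le_sub_one_of_pos (by positivity)
      have h2 : ((z + 1 : ℕ) : ℝ) / z - 1 ≤ 1 := by
        rw [sub_le_iff_le_add, div_le_iff₀ (by linarith)]
        push_cast; linarith
      linarith
    have hlog : Real.log u - Real.log v ≤ (u - v) / v := by
      rw [← Real.log_div hu0.ne' hv0.ne']
      have h1 : Real.log (u / v) ≤ u / v - 1 := Real.log_le_sub_one_of_pos (by positivity)
      have h2 : u / v - 1 = (u - v) / v := by field_simp
      linarith
    have hSM : S y (z + 1) = S y z + (M (z + 1) - M z) / u := by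
      rw [S_succ hz, M_succ, ← hu]
      split_ifs with h
      · have : ((z + 1 : ℕ) : ℝ) ≠ 0 := by positivity
        field_simp
        ring
      · simp
    have hE := hC z (by omega)
    rw [← hv] at ih hE
    rw [← hu, hSM]
    obtain ⟨E, hEdef⟩ : ∃ E, E = M z - v := ⟨_, rfl⟩
    rw [← hEdef] at ih hE
    have hgap : 0 ≤ 1 / v - 1 / u := by
      rw [sub_nonneg]; exact one_div_le_one_div_of_le hv0 huv
    have h1 : -(C * (1 / v - 1 / u)) ≤ E * (1 / v - 1 / u) := by
      have := (abs_le.mp hE).1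
      nlinarith
    have h2 : (u - v) / v - (u - v) / u ≤ 1 * (1 / v - 1 / u) := by
      have h3 : (u - v) / v - (u - v) / u = (u - v) * (1 / v - 1 / u) := by ring
      rw [h3]
      exact mul_le_mul_of_nonneg_right huv1 hgap
    have h3 : S y z + (M (z + 1) - M z) / u - (M (z + 1) - u) / u - Real.log u =
        (S y z - E / v - Real.log v) + E * (1 / v - 1 / u) + (u - v) / u -
          (Real.log u - Real.log v) := by
      have h4 : (M (z + 1) - M z) / u - (M (z + 1) - u) / u = (u - v) / u - E * (1 / u) := by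
        rw [hEdef]; field_simp; ring
      have h5 : S y z + (M (z + 1) - M z) / u - (M (z + 1) - u) / u - Real.log u =
          S y z + ((M (z + 1) - M z) / u - (M (z + 1) - u) / u) - Real.log u := by ring
      rw [h5, h4]; ring
    rw [h3]
    nlinarith

/-- lower bound in Mertens' second theorem -/
theorem mertens2 : ∃ C : ℝ, 0 ≤ C ∧ ∀ y z : ℕ, 2 ≤ y → y ≤ z →
    Real.log (Real.log z) - Real.log (Real.log y) - C / Real.log y ≤ S y z := by
  obtain ⟨C, hC0, hC⟩ := mertens1
  refine ⟨3 * C + 1, by linarith, fun y z hy hz => ?_⟩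
  have hp := potential hC hy z hz
  have hy2 : (2 : ℝ) ≤ y := by exact_mod_cast hy
  have hyz : (y : ℝ) ≤ z := by exact_mod_cast hz
  have hly : 0 < Real.log y := Real.log_pos (by linarith)
  have hlz : 0 < Real.log z := Real.log_pos (by linarith)
  have hyz' : Real.log y ≤ Real.log z := Real.log_le_log (by linarith) hyz
  have h1 : 1 / Real.log z ≤ 1 / Real.log y := one_div_le_one_div_of_le hly hyz'
  have h2 : (M y - Real.log y) * (1 / Real.log y) ≤ C * (1 / Real.log y) :=
    mul_le_mul_of_nonneg_right (abs_le.mp (hC y (by omega))).2 (by positivity)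
  have h3 : -(C * (1 / Real.log y)) ≤ (M z - Real.log z) * (1 / Real.log z) := by
    have h4 : -C * (1 / Real.log z) ≤ (M z - Real.log z) * (1 / Real.log z) :=
      mul_le_mul_of_nonneg_right (abs_le.mp (hC z (by omega))).1 (by positivity)
    have h5 : C * (1 / Real.log z) ≤ C * (1 / Real.log y) := mul_le_mul_of_nonneg_left h1 hC0
    linarith
  have h6 : (C + 1) * (1 / Real.log y - 1 / Real.log z) ≤ (C + 1) * (1 / Real.log y) := by
    apply mul_le_mul_of_nonneg_left _ (by linarith)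
    have : 0 ≤ 1 / Real.log z := by positivity
    linarith
  have e1 : (3 * C + 1) / Real.log y = 2 * (C * (1 / Real.log y)) + (C + 1) * (1 / Real.log y) := by
    ring
  have e2 : -(M y - Real.log y) / Real.log y = -((M y - Real.log y) * (1 / Real.log y)) := by ring
  have e3 : (M z - Real.log z) / Real.log z = (M z - Real.log z) * (1 / Real.log z) := by ring
  rw [e2, e3] at hp
  rw [e1]
  linarith

end Mert

open Mert in
open Classical in
/-- **MERT** -/
theorem mert : MertStmt := by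
  intro K hK ε hε
  obtain ⟨C, hC0, hC⟩ := mertens2
  -- the limit of the main term in `L = log x`
  obtain ⟨b, hb⟩ : ∃ b, b = Real.log (2 * K) := ⟨_, rfl⟩
  have hlim : Filter.Tendsto (fun L : ℝ => Real.log ((L - Real.log 4) / (3 / 4 * L + b)) -
      C / (3 / 4 * L)) Filter.atTop (nhds (Real.log (4 / 3) - 0)) := by
    apply Filter.Tendsto.sub
    · have h1 : Filter.Tendsto (fun L : ℝ => (L - Real.log 4) / (3 / 4 * L + b)) Filter.atTop
          (nhds (4 / 3)) := by
        have h2 : Filter.Tendsto (fun L : ℝ => (1 - Real.log 4 / L) / (3 / 4 + b / L))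
            Filter.atTop (nhds ((1 - 0) / (3 / 4 + 0))) := by
          apply Filter.Tendsto.div
          · exact tendsto_const_nhds.sub (tendsto_const_nhds.div_atTop Filter.tendsto_id)
          · exact tendsto_const_nhds.add (tendsto_const_nhds.div_atTop Filter.tendsto_id)
          · norm_num
        have h3 : ((1 : ℝ) - 0) / (3 / 4 + 0) = 4 / 3 := by norm_num
        rw [h3] at h2
        refine h2.congr' ?_
        filter_upwards [Filter.eventually_gt_atTop 0] with L hL
        have : (1 - Real.log 4 / L) = (L - Real.log 4) / L := by field_simp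
        rw [this]
        have : (3 / 4 + b / L) = (3 / 4 * L + b) / L := by field_simp
        rw [this]
        exact div_div_div_cancel_right₀ hL.ne' _ _
      exact (Real.continuousAt_log (by norm_num)).tendsto.comp h1
    · apply Filter.Tendsto.div_atTop tendsto_const_nhds
      exact Filter.tendsto_id.const_mul_atTop (by norm_num)
  rw [sub_zero] at hlim
  have hev := hlim.eventually (lt_mem_nhds (show Real.log (4 / 3) - ε < Real.log (4 / 3) by linarith))
  have hlogx : Filter.Tendsto (fun x : ℕ => Real.log (x : ℝ)) Filter.atTop Filter.atTop :=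
    Real.tendsto_log_atTop.comp tendsto_natCast_atTop_atTop
  have hev2 := hlogx.eventually hev
  -- `2 K x^{3/4} ≤ x / 4` eventually
  have hpow : Filter.Tendsto (fun x : ℕ => (x : ℝ) ^ (1 / 4 : ℝ)) Filter.atTop Filter.atTop :=
    (tendsto_rpow_atTop (by norm_num)).comp tendsto_natCast_atTop_atTop
  have hev3 := hpow.eventually (Filter.eventually_ge_atTop (8 * K))
  have hev4 := hlogx.eventually (Filter.eventually_gt_atTop (Real.log 4 + |b| * 4))
  obtain ⟨X, hX⟩ := Filter.eventually_atTop.mp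
    ((hev2.and hev3).and (hev4.and (Filter.eventually_ge_atTop 4)))
  refine ⟨X, fun x hx => ?_⟩
  obtain ⟨⟨h2, h3⟩, h4, h5⟩ := hX x hx
  have hx4 : (4 : ℝ) ≤ x := by exact_mod_cast h5
  have hx0 : (0 : ℝ) < x := by linarith
  obtain ⟨w, hw⟩ : ∃ w : ℝ, w = (x : ℝ) ^ (3 / 4 : ℝ) := ⟨_, rfl⟩
  have hw1 : 1 ≤ w := by rw [hw]; exact Real.one_le_rpow (by linarith) (by norm_num)
  have hwx : w * (x : ℝ) ^ (1 / 4 : ℝ) = x := by
    rw [hw, ← Real.rpow_add hx0]; norm_num
  have hwx2 : 8 * K * w ≤ x := by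
    rw [← hwx]; nlinarith
  have hw8 : 8 ≤ w := by
    have h6 : (x : ℝ) ^ (1 / 4 : ℝ) ≤ w := by
      rw [hw]; exact Real.rpow_le_rpow_of_exponent_le (by linarith) (by norm_num)
    linarith
  obtain ⟨y, hy⟩ : ∃ y : ℕ, y = ⌈K * w⌉₊ + 1 := ⟨_, rfl⟩
  have hKw : 8 ≤ K * w := by nlinarith
  have hy1 : K * w ≤ y := by
    have := Nat.le_ceil (K * w)
    rw [hy]; push_cast; linarith
  have hy2 : (y : ℝ) ≤ 2 * K * w := by
    have := Nat.ceil_lt_add_one (show 0 ≤ K * w by linarith)
    rw [hy]; push_cast; linarith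
  obtain ⟨z, hz⟩ : ∃ z : ℕ, z = x / 2 := ⟨_, rfl⟩
  have hz1 : (x : ℝ) / 4 ≤ z := by
    have h6 : x ≤ 2 * z + 1 := by omega
    have h7 : (x : ℝ) ≤ 2 * z + 1 := by exact_mod_cast h6
    linarith
  have hyz : y ≤ z := by
    have : (y : ℝ) ≤ z := by linarith
    exact_mod_cast this
  have hyc : 1 ≤ ⌈K * w⌉₊ := Nat.one_le_ceil_iff.mpr (by linarith)
  have hmain := hC y z (by omega) hyz
  obtain ⟨L, hL⟩ : ∃ L, L = Real.log (x : ℝ) := ⟨_, rfl⟩
  rw [← hL] at h2 h4
  have hlw : Real.log w = 3 / 4 * L := by rw [hw, Real.log_rpow hx0, hL]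
  have hly1 : 3 / 4 * L ≤ Real.log y := by
    rw [← hlw]; exact Real.log_le_log (by linarith) (by nlinarith)
  have hly2 : Real.log y ≤ 3 / 4 * L + b := by
    rw [← hlw, hb, add_comm, ← Real.log_mul (by positivity) (by positivity)]
    exact Real.log_le_log (by linarith) hy2
  have hlz : L - Real.log 4 ≤ Real.log z := by
    rw [hL, ← Real.log_div (by positivity) (by norm_num)]
    exact Real.log_le_log (by positivity) hz1
  have hl4 : 0 < Real.log 4 := Real.log_pos (by norm_num)
  have hL0 : 0 < L := by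
    have := abs_nonneg b
    linarith
  have hL4 : 0 < L - Real.log 4 := by
    have := abs_nonneg b
    linarith
  have hlypos : 0 < Real.log y := by linarith
  have hlzpos : 0 < Real.log z := by linarith
  have h6 : Real.log ((L - Real.log 4) / (3 / 4 * L + b)) ≤
      Real.log (Real.log z) - Real.log (Real.log y) := by
    rw [← Real.log_div hlzpos.ne' hlypos.ne']
    apply Real.log_le_log (div_pos hL4 (by linarith))
    exact div_le_div₀ hlzpos.le hlz hlypos hly2
  have h7 : C / Real.log y ≤ C / (3 / 4 * L) :=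
    div_le_div_of_nonneg_left hC0 (by positivity) hly1
  have h8 : S y z ≤ ∑ p ∈ (Icc 1 (x / 2)).filter
      (fun p : ℕ => p.Prime ∧ K * (x : ℝ) ^ (3 / 4 : ℝ) ≤ (p : ℝ)), (1 / (p : ℝ)) := by
    unfold S
    apply Finset.sum_le_sum_of_subset_of_nonneg
    · intro p hp
      rw [mem_filter, mem_Ioc] at hp
      rw [mem_filter, mem_Icc, ← hz, ← hw]
      have h9 : (y : ℝ) ≤ p := by exact_mod_cast hp.1.1.le
      exact ⟨⟨hp.2.one_lt.le, hp.1.2⟩, hp.2, by linarith⟩
    · intro p _ _; positivity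
  linarith

end Pool.Agent.Lib.MP_02fec8_nt
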