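import Mathlib
import Pool.Agent.Lib.MP_02fec8_nt.Defs

set_option autoImplicit false

namespace Pool.Agent.Lib.MP_02fec8_nt

open Finset Polynomial

lemma fact_ne (p : ℕ) (hp : p.Prime) (n : ℕ) (hn : n < p) : ((n.factorial : ℕ) : ZMod p) ≠ 0 := by
  rw [Ne, ZMod.natCast_eq_zero_iff, hp.dvd_factorial, not_le]
  exact hn

lemma choose_ne (p : ℕ) (hp : p.Prime) (n k : ℕ) (hn : n < p) (hk : k ≤ n) :
    ((n.choose k : ℕ) : ZMod p) ≠ 0 := by
  intro h
  apply fact_ne p hp n hn
  rw [← Nat.choose_mul_factorial_mul_factorial hk]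
  push_cast
  rw [h]
  ring

/-- The determinant is nonzero as soon as no nonzero polynomial with exponents `e_j` has vanishing
Taylor coefficients `r_i` at `1`. -/
lemma fac_det_ne_zero (p : ℕ) (hp : p.Prime) (s M : ℕ) (r e : Fin s → ℕ) (hM : M < p)
    (hr : ∀ i, r i ≤ M) (he : ∀ j, e j ≤ M) (hinj : Function.Injective e)
    (b t : Fin s → ℕ) (hb : ∀ j, b j = M - e j) (ht : ∀ i, t i = M - r i)
    (hQ : ∀ Q : (ZMod p)[X], Q ≠ 0 → (∀ k, Q.coeff k ≠ 0 → ∃ j, k = e j) →
      (∀ i, (taylor 1 Q).coeff (r i) = 0) → False) :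
    (fac p b t).det ≠ 0 := by
  classical
  haveI : Fact p.Prime := ⟨hp⟩
  intro hdet
  obtain ⟨v, hv0, hv⟩ := Matrix.exists_mulVec_eq_zero_iff.2 hdet
  set u : Fin s → ZMod p := fun j => v j * (((e j).factorial : ℕ) : ZMod p)⁻¹ with hu
  have hcoeff : ∀ k, (∑ j, monomial (e j) (u j) : (ZMod p)[X]).coeff k =
      ∑ j, if e j = k then u j else 0 := by
    intro k
    rw [finset_sum_coeff]
    exact Finset.sum_congr rfl (fun j _ => coeff_monomial)
  apply hQ (∑ j, monomial (e j) (u j))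
  · intro h0
    apply hv0
    funext j
    have h1 := hcoeff (e j)
    rw [h0, coeff_zero, Finset.sum_eq_single j] at h1
    · rw [if_pos rfl] at h1
      rw [Pi.zero_apply]
      have h2 : v j * (((e j).factorial : ℕ) : ZMod p)⁻¹ = 0 := h1.symm
      rcases mul_eq_zero.1 h2 with h3 | h3
      · exact h3
      · exact absurd (inv_eq_zero.1 h3) (fact_ne p hp _ (lt_of_le_of_lt (he j) hM))
    · intro i _ hij
      rw [if_neg (fun h => hij (hinj h))]
    · intro h; exact absurd (Finset.mem_univ _) h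
  · intro k hk
    rw [hcoeff] at hk
    obtain ⟨j, _, hj⟩ := Finset.exists_ne_zero_of_sum_ne_zero hk
    refine ⟨j, ?_⟩
    by_contra hne
    exact hj (if_neg (fun h => hne h.symm))
  · intro i
    rw [taylor_coeff, map_sum, eval_finset_sum]
    have h1 : ∀ j, ((hasseDeriv (r i)) ((monomial (e j)) (u j))).eval 1 =
        (((r i).factorial : ℕ) : ZMod p)⁻¹ * (fac p b t i j * v j) := by
      intro j
      rw [hasseDeriv_monomial, eval_monomial, one_pow, mul_one]
      unfold fac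
      rw [hb, ht]
      have hri := hr i
      have hej := he j
      by_cases hle : r i ≤ e j
      · rw [if_pos (by omega)]
        have h2 : M - r i - (M - e j) = e j - r i := by omega
        rw [h2]
        have h3 := Nat.choose_mul_factorial_mul_factorial hle
        have h4 : (((e j).choose (r i) : ℕ) : ZMod p) * (((r i).factorial : ℕ) : ZMod p) *
            (((e j - r i).factorial : ℕ) : ZMod p) = (((e j).factorial : ℕ) : ZMod p) := by
          exact_mod_cast congrArg (Nat.cast (R := ZMod p)) h3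
        have h5 := fact_ne p hp (e j) (by omega)
        have h6 := fact_ne p hp (r i) (by omega)
        have h7 := fact_ne p hp (e j - r i) (by omega)
        rw [hu]
        simp only
        field_simp
        rw [← h4]
        ring
      · rw [if_neg (by omega), Nat.choose_eq_zero_of_lt (by omega)]
        simp
    rw [Finset.sum_congr rfl (fun j _ => h1 j), ← Finset.mul_sum]
    have h2 := congrFun hv i
    rw [Matrix.mulVec, dotProduct, Pi.zero_apply] at h2
    rw [h2, mul_zero]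

/-- the index `r_i`. -/
def rvec (s d : ℕ) (i : Fin s) : ℕ := if (i : ℕ) + 1 = s then s - 1 + d else (i : ℕ)

lemma tvec_eq (s M d : ℕ) (i : Fin s) : tvec s M d i = M - rvec s d i := by
  unfold tvec rvec
  split_ifs <;> rfl

lemma dvd_of_taylor {p : ℕ} [Fact p.Prime] (s d : ℕ) (Q : (ZMod p)[X])
    (h : ∀ i : Fin s, (taylor 1 Q).coeff (rvec s d i) = 0) :
    (X - C 1 : (ZMod p)[X]) ^ (s - 1) ∣ Q := by
  rw [X_sub_C_pow_dvd_iff, X_pow_dvd_iff]
  intro k hk
  have h1 := h ⟨k, by omega⟩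
  unfold rvec at h1
  rw [if_neg (by simp only; omega)] at h1
  exact h1

lemma last_taylor {p : ℕ} [Fact p.Prime] (s d : ℕ) (hs : 1 ≤ s) (Q : (ZMod p)[X])
    (h : ∀ i : Fin s, (taylor 1 Q).coeff (rvec s d i) = 0) :
    (taylor 1 Q).coeff (s - 1 + d) = 0 := by
  have h1 := h ⟨s - 1, by omega⟩
  unfold rvec at h1
  rw [if_pos (by simp only; omega)] at h1
  exact h1

lemma comp_neg_X_coeff' {R : Type*} [CommRing R] (Q : R[X]) (k : ℕ) :
    (Q.comp (-X)).coeff k = (-1) ^ k * Q.coeff k := by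
  have h : (-X : R[X]) = C (-1) * X := by
    rw [C_neg, C_1]; ring
  rw [h, comp_C_mul_X_coeff, mul_comm]

lemma two_ne' (p : ℕ) (hp : p.Prime) (hp2 : 2 < p) : (2 : ZMod p) ≠ 0 := by
  intro h
  have : ((2 : ℕ) : ZMod p) = 0 := by exact_mod_cast h
  rw [ZMod.natCast_eq_zero_iff] at this
  exact absurd (Nat.le_of_dvd (by norm_num) this) (by omega)

lemma coprime_pm {p : ℕ} [Fact p.Prime] (h2 : (2 : ZMod p) ≠ 0) (n : ℕ) :
    IsCoprime ((X - C 1 : (ZMod p)[X]) ^ n) ((X + C 1 : (ZMod p)[X]) ^ n) := by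
  apply IsCoprime.pow
  refine ⟨-C (2⁻¹), C (2⁻¹), ?_⟩
  have : (C (2⁻¹) : (ZMod p)[X]) * C 2 = 1 := by
    rw [← C_mul, inv_mul_cancel₀ h2, C_1]
  have h3 : (C 2 : (ZMod p)[X]) = C 1 + C 1 := by
    rw [← C_add]; norm_num
  rw [h3] at this
  linear_combination this

theorem nvD : NVDStmt := by
  classical
  intro p hp s d hs hd hsp
  haveI : Fact p.Prime := ⟨hp⟩
  have h2 := two_ne' p hp (by omega)
  apply fac_det_ne_zero p hp s (2 * s - 1) (rvec s d) (fun j => 2 * s - 2 - 2 * (j : ℕ)) (by omega)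
    (fun i => by unfold rvec; have := i.2; split_ifs <;> omega)
    (fun j => by omega)
    (fun i j hij => by
      have := i.2; have := j.2
      apply Fin.ext
      simp only at hij
      omega)
    _ _ (fun j => by have := j.2; omega) (fun i => tvec_eq s _ d i)
  intro Q hQ0 hQs hQt
  have hd1 := dvd_of_taylor s d Q hQt
  have hlast := last_taylor s d hs Q hQt
  have heven : Q.comp (-X) = Q := by
    ext k
    rw [comp_neg_X_coeff']
    by_cases hk : Q.coeff k = 0
    · rw [hk]; ring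
    · obtain ⟨j, hj⟩ := hQs k hk
      have : Even k := ⟨s - 1 - (j : ℕ), by have := j.2; omega⟩
      rw [this.neg_one_pow, one_mul]
  have hd2 : (X + C 1 : (ZMod p)[X]) ^ (s - 1) ∣ Q := by
    obtain ⟨P, hP⟩ := hd1
    have h3 : Q = ((X - C 1 : (ZMod p)[X]) ^ (s - 1) * P).comp (-X) := by rw [← hP, heven]
    rw [mul_comp, pow_comp, sub_comp, X_comp, C_comp] at h3
    have h4 : (-X - C 1 : (ZMod p)[X]) = -(X + C 1) := by ring
    rw [h4, neg_pow] at h3
    rw [h3]
    exact ⟨(-1) ^ (s - 1) * P.comp (-X), by ring⟩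
  obtain ⟨P, hP⟩ := (coprime_pm h2 (s - 1)).mul_dvd hd1 hd2
  have hPne : P ≠ 0 := by
    rintro rfl
    exact hQ0 (by rw [hP, mul_zero])
  have hdeg : Q.natDegree ≤ 2 * s - 2 := by
    rw [natDegree_le_iff_coeff_eq_zero]
    intro k hk
    by_contra hne
    obtain ⟨j, hj⟩ := hQs k hne
    omega
  have hPdeg : P.natDegree = 0 := by
    rw [hP, natDegree_mul _ hPne, natDegree_mul] at hdeg
    · rw [natDegree_pow, natDegree_pow, natDegree_X_sub_C, natDegree_X_add_C] at hdeg
      omega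
    · exact pow_ne_zero _ (X_sub_C_ne_zero 1)
    · exact pow_ne_zero _ (X_add_C_ne_zero 1)
    · exact mul_ne_zero (pow_ne_zero _ (X_sub_C_ne_zero 1)) (pow_ne_zero _ (X_add_C_ne_zero 1))
  obtain ⟨κ, rfl⟩ := natDegree_eq_zero.1 hPdeg
  have hκ : κ ≠ 0 := fun h => hPne (by rw [h, C_0])
  have htay : taylor 1 Q = X ^ (s - 1) * ((X + C 2) ^ (s - 1) * C κ) := by
    rw [hP, taylor_mul, taylor_mul, taylor_pow, taylor_pow, map_sub, map_add, taylor_X, taylor_C,
      taylor_C]
    have h5 : (X + C 1 + C 1 : (ZMod p)[X]) = X + C 2 := by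
      rw [add_assoc, ← C_add]; norm_num
    rw [h5]
    ring
  rw [htay, add_comm (s - 1) d, coeff_X_pow_mul, coeff_mul_C, coeff_X_add_C_pow] at hlast
  have h6 := choose_ne p hp (s - 1) d (by omega) (by omega)
  exact mul_ne_zero (mul_ne_zero (pow_ne_zero _ h2) h6) hκ hlast

theorem nvB : NVBStmt := by
  classical
  intro p hp s d hs hd hsp
  haveI : Fact p.Prime := ⟨hp⟩
  have h2 := two_ne' p hp (by omega)
  apply fac_det_ne_zero p hp s (2 * s - 1) (rvec s d) (fun j => 2 * s - 1 - 2 * (j : ℕ)) (by omega)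
    (fun i => by unfold rvec; have := i.2; split_ifs <;> omega)
    (fun j => by omega)
    (fun i j hij => by
      have := i.2; have := j.2
      apply Fin.ext
      simp only at hij
      omega)
    _ _ (fun j => by have := j.2; omega) (fun i => tvec_eq s _ d i)
  intro Q hQ0 hQs hQt
  have hd1 := dvd_of_taylor s d Q hQt
  have hlast := last_taylor s d hs Q hQt
  have hodd : Q.comp (-X) = -Q := by
    ext k
    rw [comp_neg_X_coeff', coeff_neg]
    by_cases hk : Q.coeff k = 0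
    · rw [hk]; ring
    · obtain ⟨j, hj⟩ := hQs k hk
      have : Odd k := ⟨s - 1 - (j : ℕ), by have := j.2; omega⟩
      rw [this.neg_one_pow]
      ring
  have hd2 : (X + C 1 : (ZMod p)[X]) ^ (s - 1) ∣ Q := by
    obtain ⟨P, hP⟩ := hd1
    have h3 : Q = -((X - C 1 : (ZMod p)[X]) ^ (s - 1) * P).comp (-X) := by
      rw [← hP, hodd, neg_neg]
    rw [mul_comp, pow_comp, sub_comp, X_comp, C_comp] at h3
    have h4 : (-X - C 1 : (ZMod p)[X]) = -(X + C 1) := by ring
    rw [h4, neg_pow] at h3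
    rw [h3]
    exact ⟨-((-1) ^ (s - 1) * P.comp (-X)), by ring⟩
  have hd3 : (X : (ZMod p)[X]) ∣ Q := by
    rw [X_dvd_iff]
    by_contra hne
    obtain ⟨j, hj⟩ := hQs 0 hne
    have := j.2
    omega
  have hcop : IsCoprime (X : (ZMod p)[X])
      ((X - C 1 : (ZMod p)[X]) ^ (s - 1) * (X + C 1 : (ZMod p)[X]) ^ (s - 1)) := by
    apply IsCoprime.mul_right
    · apply IsCoprime.pow_right
      refine ⟨1, -1, ?_⟩
      rw [C_1]; ring
    · apply IsCoprime.pow_right
      refine ⟨-1, 1, ?_⟩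
      rw [C_1]; ring
  obtain ⟨P, hP⟩ := hcop.mul_dvd hd3 ((coprime_pm h2 (s - 1)).mul_dvd hd1 hd2)
  have hPne : P ≠ 0 := by
    rintro rfl
    exact hQ0 (by rw [hP, mul_zero])
  have hdeg : Q.natDegree ≤ 2 * s - 1 := by
    rw [natDegree_le_iff_coeff_eq_zero]
    intro k hk
    by_contra hne
    obtain ⟨j, hj⟩ := hQs k hne
    omega
  have hPdeg : P.natDegree = 0 := by
    have n1 : (X - C 1 : (ZMod p)[X]) ^ (s - 1) ≠ 0 := pow_ne_zero _ (X_sub_C_ne_zero 1)
    have n2 : (X + C 1 : (ZMod p)[X]) ^ (s - 1) ≠ 0 := pow_ne_zero _ (X_add_C_ne_zero 1)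
    rw [hP, natDegree_mul (mul_ne_zero X_ne_zero (mul_ne_zero n1 n2)) hPne,
      natDegree_mul X_ne_zero (mul_ne_zero n1 n2), natDegree_mul n1 n2,
      natDegree_pow, natDegree_pow, natDegree_X_sub_C, natDegree_X_add_C, natDegree_X] at hdeg
    omega
  obtain ⟨κ, rfl⟩ := natDegree_eq_zero.1 hPdeg
  have hκ : κ ≠ 0 := fun h => hPne (by rw [h, C_0])
  have htay : taylor 1 Q = X ^ (s - 1) * (((X + C 2) ^ (s - 1) * C κ) +
      ((X + C 2) ^ (s - 1) * C κ) * X) := by
    rw [hP, taylor_mul, taylor_mul, taylor_mul, taylor_pow, taylor_pow, map_sub, map_add, taylor_X,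
      taylor_C, taylor_C]
    have h5 : (X + C 1 + C 1 : (ZMod p)[X]) = X + C 2 := by
      rw [add_assoc, ← C_add]; norm_num
    rw [h5, C_1]
    ring
  rw [htay, add_comm (s - 1) d, coeff_X_pow_mul, coeff_add, coeff_mul_C, coeff_X_add_C_pow] at hlast
  have h6 := choose_ne p hp (s - 1) d (by omega) (by omega)
  rcases d with _ | d
  · rw [coeff_mul_X_zero, add_zero] at hlast
    exact mul_ne_zero (mul_ne_zero (pow_ne_zero _ h2) h6) hκ hlast
  · rw [coeff_mul_X, coeff_mul_C, coeff_X_add_C_pow] at hlast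
    -- `(s - d - 1) * (C(s-1,d+1) + 2 C(s-1,d)) = (s + d + 1) C(s-1,d+1)`
    have h7 := Nat.choose_succ_right_eq (s - 1) d
    have h8 : (((s - 1).choose (d + 1) : ℕ) : ZMod p) * ((d + 1 : ℕ) : ZMod p) =
        (((s - 1).choose d : ℕ) : ZMod p) * ((s - 1 - d : ℕ) : ZMod p) := by
      exact_mod_cast congrArg (Nat.cast (R := ZMod p)) h7
    have h9 : s - 1 - d = (s - 1 - (d + 1)) + 1 := by omega
    have h10 : (2 : ZMod p) ^ (s - 1 - d) = 2 ^ (s - 1 - (d + 1)) * 2 := by
      rw [h9, pow_succ]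
    rw [h10] at hlast
    have h11 : (2 : ZMod p) ^ (s - 1 - (d + 1)) * κ *
        ((((s - 1).choose (d + 1) : ℕ) : ZMod p) + 2 * (((s - 1).choose d : ℕ) : ZMod p)) = 0 := by
      rw [← hlast]; ring
    have h12 : (((s - 1).choose (d + 1) : ℕ) : ZMod p) + 2 * (((s - 1).choose d : ℕ) : ZMod p)
        = 0 := by
      rcases mul_eq_zero.1 h11 with h | h
      · exact absurd h (mul_ne_zero (pow_ne_zero _ h2) hκ)
      · exact h
    have h13 : ((s - 1 - d : ℕ) : ZMod p) * ((((s - 1).choose (d + 1) : ℕ) : ZMod p) +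
        2 * (((s - 1).choose d : ℕ) : ZMod p)) =
        ((s + d + 1 : ℕ) : ZMod p) * (((s - 1).choose (d + 1) : ℕ) : ZMod p) := by
      have h14 : s + d + 1 = (s - 1 - d) + 2 * (d + 1) := by omega
      rw [h14]
      push_cast
      push_cast at h8
      linear_combination -2 * h8
    rw [h12, mul_zero] at h13
    have h15 : ((s + d + 1 : ℕ) : ZMod p) ≠ 0 := by
      rw [Ne, ZMod.natCast_eq_zero_iff]
      intro h
      have := Nat.le_of_dvd (by omega) h
      omega
    exact mul_ne_zero h15 h6 h13.symm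

theorem nvH : NVHStmt := by
  classical
  intro p hp h w d h1 hw hd hwp
  haveI : Fact p.Prime := ⟨hp⟩
  apply fac_det_ne_zero p hp h (w - 1) (rvec h d) (fun j => w - 1 - (j : ℕ)) (by omega)
    (fun i => by unfold rvec; have := i.2; split_ifs <;> omega)
    (fun j => by omega)
    (fun i j hij => by
      have := i.2; have := j.2
      apply Fin.ext
      simp only at hij
      omega)
    _ _ (fun j => by have := j.2; omega) (fun i => tvec_eq h _ d i)
  intro Q hQ0 hQs hQt
  have hd1 := dvd_of_taylor h d Q hQt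
  have hlast := last_taylor h d h1 Q hQt
  have hd3 : (X : (ZMod p)[X]) ^ (w - h) ∣ Q := by
    rw [X_pow_dvd_iff]
    intro k hk
    by_contra hne
    obtain ⟨j, hj⟩ := hQs k hne
    have := j.2
    omega
  have hcop : IsCoprime ((X : (ZMod p)[X]) ^ (w - h)) ((X - C 1 : (ZMod p)[X]) ^ (h - 1)) := by
    apply IsCoprime.pow
    refine ⟨1, -1, ?_⟩
    rw [C_1]; ring
  obtain ⟨P, hP⟩ := hcop.mul_dvd hd3 hd1
  have hPne : P ≠ 0 := by
    rintro rfl
    exact hQ0 (by rw [hP, mul_zero])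
  have hdeg : Q.natDegree ≤ w - 1 := by
    rw [natDegree_le_iff_coeff_eq_zero]
    intro k hk
    by_contra hne
    obtain ⟨j, hj⟩ := hQs k hne
    omega
  have hPdeg : P.natDegree = 0 := by
    have n1 : (X - C 1 : (ZMod p)[X]) ^ (h - 1) ≠ 0 := pow_ne_zero _ (X_sub_C_ne_zero 1)
    have n2 : (X : (ZMod p)[X]) ^ (w - h) ≠ 0 := pow_ne_zero _ X_ne_zero
    rw [hP, natDegree_mul (mul_ne_zero n2 n1) hPne, natDegree_mul n2 n1,
      natDegree_pow, natDegree_pow, natDegree_X_sub_C, natDegree_X] at hdeg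
    omega
  obtain ⟨κ, rfl⟩ := natDegree_eq_zero.1 hPdeg
  have hκ : κ ≠ 0 := fun h => hPne (by rw [h, C_0])
  have htay : taylor 1 Q = X ^ (h - 1) * ((X + C 1) ^ (w - h) * C κ) := by
    rw [hP, taylor_mul, taylor_mul, taylor_pow, taylor_pow, map_sub, taylor_X, taylor_C, taylor_C]
    ring
  rw [htay, add_comm (h - 1) d, coeff_X_pow_mul, coeff_mul_C, coeff_X_add_C_pow, one_pow, one_mul] at hlast
  exact mul_ne_zero (choose_ne p hp (w - h) d (by omega) hd) hκ hlast

end Pool.Agent.Lib.MP_02fec8_nt
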