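import Pool.Agent.Lib.MP_02fec8_nt.CaseB

/-!
# NUMA: the final inequality in case A (Paper 7)
-/

set_option autoImplicit false

namespace Pool.Agent.Lib.MP_02fec8_nt

open Finset

open CaseBAux in
/-- **NUMA** -/
theorem numA : NumAStmt := by
  classical
  intro n p a b w h hn hb hh hst hsq
  obtain ⟨A, hA⟩ : ∃ A : ℝ, A = (a : ℝ) + 1 / 2 := ⟨_, rfl⟩
  obtain ⟨B, hB⟩ : ∃ B : ℝ, B = (b : ℝ) - 1 / 2 := ⟨_, rfl⟩
  have hcs : (∑ i ∈ Icc 1 n, (w i : ℝ)) ^ 2 ≤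
      (2 * (n : ℝ)) * ((∑ i ∈ Icc 1 n, (w i : ℝ) ^ 2) / 2) := by
    have := sq_sum_le_card_mul_sum_sq (s := Icc 1 n) (f := fun i => (w i : ℝ))
    rw [Nat.card_Icc, Nat.add_sub_cancel] at this
    linarith
  have hUsq : (A + B + ∑ i ∈ Icc 1 n, (w i : ℝ)) ^ 2 ≤ (1 + 1 + 2 * (n : ℝ)) *
      (A ^ 2 + B ^ 2 + (∑ i ∈ Icc 1 n, (w i : ℝ) ^ 2) / 2) := by
    refine cs2 (by positivity) (by positivity) (by positivity) (by positivity) ?_ hcs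
    exact cs2 (by positivity) (by positivity) (by positivity) (by positivity) (by simp) (by simp)
  have e1 : ((a * (a + 1) / 2 : ℕ) : ℝ) = (a : ℝ) * (a + 1) / 2 := by
    have h1 : a * (a + 1) / 2 * 2 = a * (a + 1) :=
      Nat.div_mul_cancel (Nat.even_mul_succ_self a).two_dvd
    have h2 : ((a * (a + 1) / 2 : ℕ) : ℝ) * 2 = a * (a + 1) := by exact_mod_cast h1
    linarith
  have e2 : ((b * (b - 1) / 2 : ℕ) : ℝ) = (b : ℝ) * (b - 1) / 2 := by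
    have h1 : b * (b - 1) / 2 * 2 = b * (b - 1) :=
      Nat.div_mul_cancel (Nat.even_mul_pred_self b).two_dvd
    have h2 : ((b * (b - 1) / 2 : ℕ) : ℝ) * 2 = b * ((b - 1 : ℕ) : ℝ) := by exact_mod_cast h1
    rw [Nat.cast_sub hb] at h2
    push_cast at h2 ⊢
    linarith
  have e3 : ((∑ i ∈ Icc 1 n, h i * (w i - h i) : ℕ) : ℝ) =
      ∑ i ∈ Icc 1 n, ((w i : ℝ) ^ 2 / 4 - ((w i : ℝ) - 2 * (h i : ℝ)) ^ 2 / 4) := by
    push_cast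
    apply Finset.sum_congr rfl
    intro i hi
    rw [Nat.cast_sub (hh i hi)]
    ring
  rw [Finset.sum_sub_distrib, ← Finset.sum_div, ← Finset.sum_div] at e3
  have e4 : (1 : ℝ) + ((a * (a + 1) / 2 : ℕ) : ℝ) + ((b * (b - 1) / 2 : ℕ) : ℝ) +
      ((∑ i ∈ Icc 1 n, h i * (w i - h i) : ℕ) : ℝ) ≤ p := by exact_mod_cast hst
  have e5 : ∑ i ∈ Icc 1 n, ((w i : ℝ) - 2 * (h i : ℝ)) ^ 2 ≤ (n : ℝ) + 3 := by
    exact_mod_cast hsq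
  have e6 : A ^ 2 + B ^ 2 + (∑ i ∈ Icc 1 n, (w i : ℝ) ^ 2) / 2 ≤ (4 * (p : ℝ) + n) / 2 := by
    rw [hA, hB]
    linarith
  have e7 : (A + B + ∑ i ∈ Icc 1 n, (w i : ℝ)) ^ 2 ≤
      (2 * (n : ℝ) + 2) * ((4 * (p : ℝ) + n) / 2) := by
    refine hUsq.trans ?_
    have : (1 : ℝ) + 1 + 2 * (n : ℝ) = 2 * n + 2 := by ring
    rw [this]
    exact mul_le_mul_of_nonneg_left e6 (by positivity)
  have e8 : A + B + ∑ i ∈ Icc 1 n, (w i : ℝ) = ((a + b + ∑ i ∈ Icc 1 n, w i : ℕ) : ℝ) := by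
    rw [hA, hB]; push_cast; ring
  rw [e8] at e7
  have e9 : (4 : ℝ) * ((a + b + ∑ i ∈ Icc 1 n, w i : ℕ) : ℝ) ^ 2 + 2 * (2 * n + 2) ≤
      8 * ((2 * n + 2) * p) + (2 * (n : ℝ) + 2) ^ 2 := by
    linarith
  exact_mod_cast e9

end Pool.Agent.Lib.MP_02fec8_nt
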